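import Pool.Agent.J4H71.PC.Prin

/-!
# Fibres: affine diagonal quadrics and pure equations (helper71)
-/

set_option autoImplicit false
set_option linter.unusedSectionVars false

namespace Pool.Agent.J4H71.PC

open Set Filter Topology Pool.Agent.H581R2 Pool.Agent.TH729.SQ Pool.Agent.J4H71.SC

section quad

variable {μ : Type} [Fintype μ]

/-- affine diagonal quadrics and pure equations -/
def Aff (s : ℕ) (c : Option μ → ℚ) : Set (μ → ℚ) :=
  {u | c none + ∑ j, c (some j) * u j ^ s = 0}

open Classical in
/-- the shapes -/
def ShQ (c : Option μ → ℚ) : Set (Option μ ⊕ μ → ℝ) :=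
  {v | (v (Sum.inl none) + ∑ j, v (Sum.inl (some j)) * v (Sum.inr j) ^ 2 = 0) ∧
    (¬ Iso c → v (Sum.inl none) = 0 ∧ ∀ j, v (Sum.inl (some j)) * v (Sum.inr j) = 0)}

/-- **Affine diagonal quadrics.** -/
theorem fib_quad : Fib 2 (Aff (μ := μ) 2) ShQ := by
  classical
  refine ⟨?_, ?_, ?_, ?_⟩
  · -- two shapes
    refine Set.Finite.subset (s := {{v | (v (Sum.inl none) + ∑ j, v (Sum.inl (some j)) *
        v (Sum.inr j) ^ 2 = 0)}, {v | (v (Sum.inl none) + ∑ j, v (Sum.inl (some j)) *
        v (Sum.inr j) ^ 2 = 0) ∧ (v (Sum.inl none) = 0 ∧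
        ∀ j, v (Sum.inl (some j)) * v (Sum.inr j) = 0)}}) (by simp) ?_
    rintro _ ⟨c, rfl⟩
    by_cases h : Iso c
    · left
      ext v
      simp [ShQ, h]
    · right
      ext v
      simp only [ShQ, Set.mem_ofPred_eq, h, not_false_eq_true, true_imp_iff]
  · intro c
    refine SAP.and (SAP.eq_zero ((PF.coord _).add (PF.sum _ fun j _ => (PF.coord _).mul
      ((PF.coord _).pow 2)))) (SAP.imp (SAP.const _) (SAP.and (SAP.eq_zero (PF.coord _))
      (SAP.forall_fin fun j => SAP.eq_zero ((PF.coord _).mul (PF.coord _)))))
  · intro c u hu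
    have hu' : c none + ∑ j, c (some j) * u j ^ 2 = 0 := hu
    refine ⟨?_, fun hiso => ?_⟩
    · simp only [Sum.elim_inl, Sum.elim_inr]
      exact_mod_cast hu'
    · simp only [Sum.elim_inl, Sum.elim_inr]
      have h1 : ∀ j : Option μ, c j * (j.elim 1 u) = 0 := by
        by_contra hcon
        push Not at hcon
        apply hiso
        refine ⟨fun j => j.elim 1 u, ?_, hcon⟩
        rw [Fintype.sum_option]
        simp only [Option.elim, one_pow, mul_one]
        exact hu'
      refine ⟨?_, fun j => ?_⟩
      · have := h1 none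
        simp only [Option.elim, mul_one] at this
        exact_mod_cast this
      · have := h1 (some j)
        simp only [Option.elim] at this
        exact_mod_cast this
  · intro c b c' u' hcb hb hc0 hS ε hε
    obtain ⟨hS1, hS2⟩ := hS
    simp only [Sum.elim_inl, Sum.elim_inr] at hS1 hS2
    -- the coefficients vanish identically or nowhere
    have hb0 : ∀ n j, c' j = 0 → b n j = 0 := fun n j h0 => (hcb n j).eq_zero_iff.1 (hc0 j h0)
    set w : Option μ → ℝ := fun j => j.elim 1 u' with hw
    set v : ℕ → Option μ → ℝ := fun n j => if c' j = 0 then w j else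
      w j * Real.sqrt (c' j / b n j) with hv
    have hvl : ∀ j, Tendsto (fun n => v n j) atTop (𝓝 (w j)) := by
      intro j
      by_cases h0 : c' j = 0
      · simp only [hv, h0, if_true]
        exact tendsto_const_nhds
      · simp only [hv, h0, if_false]
        have h2 : Tendsto (fun n => c' j / (b n j : ℝ)) atTop (𝓝 (c' j / c' j)) :=
          tendsto_const_nhds.div (hb j) h0
        rw [div_self h0] at h2
        have h3 := ((Real.continuous_sqrt.tendsto 1).comp h2).const_mul (w j)
        rw [Real.sqrt_one, mul_one] at h3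
        exact h3
    have hwz : ∑ j, c' j * w j ^ 2 = 0 := by
      rw [Fintype.sum_option]
      simp only [hw, Option.elim, one_pow, mul_one]
      exact hS1
    have hvz : ∀ᶠ n in atTop, ∑ j, (b n j : ℝ) * v n j ^ 2 = 0 := by
      have h2 : ∀ᶠ n in atTop, ∀ j, c' j ≠ 0 → 0 < c' j / (b n j : ℝ) := by
        rw [Filter.eventually_all]
        intro j
        by_cases h0 : c' j = 0
        · exact Eventually.of_forall fun n h => absurd h0 h
        · have h2 : Tendsto (fun n => c' j / (b n j : ℝ)) atTop (𝓝 (c' j / c' j)) :=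
            tendsto_const_nhds.div (hb j) h0
          rw [div_self h0] at h2
          filter_upwards [h2.eventually_const_lt zero_lt_one] with n hn _
          exact hn
      filter_upwards [h2] with n hn
      rw [← hwz]
      refine Finset.sum_congr rfl fun j _ => ?_
      by_cases h0 : c' j = 0
      · rw [hb0 n j h0, h0]
        push_cast
        ring
      · have h3 := hn j h0
        simp only [hv, h0, if_false]
        rw [mul_pow, Real.sq_sqrt h3.le]
        have h4 : (b n j : ℝ) ≠ 0 := by
          intro h5
          rw [h5, div_zero] at h3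
          exact lt_irrefl _ h3
        field_simp
    -- continuity of the division
    have hdiv : ∀ j : μ, ∃ η : ℝ, 0 < η ∧ ∀ x y : ℝ, |x - u' j| < η → |y - 1| < η →
        |x / y - u' j| < ε := by
      intro j
      have hc : ContinuousAt (fun p : ℝ × ℝ => p.1 / p.2) (u' j, 1) :=
        continuousAt_fst.div continuousAt_snd one_ne_zero
      obtain ⟨η, hη, h⟩ := Metric.continuousAt_iff.1 hc ε hε
      refine ⟨η, hη, fun x y hx hy => ?_⟩
      have := h (x := (x, y)) (by
        rw [Prod.dist_eq, max_lt_iff, Real.dist_eq, Real.dist_eq]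
        exact ⟨hx, hy⟩)
      rw [Real.dist_eq] at this
      simpa using this
    choose η hη hη' using hdiv
    obtain ⟨η₀, hη₀, hη₀'⟩ : ∃ η₀ : ℝ, 0 < η₀ ∧ (∀ j, η₀ ≤ η j) ∧ η₀ ≤ 1 := by
      rcases isEmpty_or_nonempty μ with hμ | hμ
      · exact ⟨1, one_pos, fun j => (hμ.false j).elim, le_rfl⟩
      · refine ⟨min 1 (Finset.univ.inf' Finset.univ_nonempty η), ?_, fun j => ?_, min_le_left _ _⟩
        · refine lt_min one_pos ?_
          rw [Finset.lt_inf'_iff]
          exact fun j _ => hη j
        · exact (min_le_right _ _).trans (Finset.inf'_le _ (Finset.mem_univ j))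
    have hvn : ∀ᶠ n in atTop, ∀ j, |v n j - w j| < η₀ / 2 := by
      rw [Filter.eventually_all]
      intro j
      have := (Metric.tendsto_nhds.1 (hvl j)) (η₀ / 2) (half_pos hη₀)
      filter_upwards [this] with n hn
      rw [Real.dist_eq] at hn
      exact hn
    filter_upwards [hvz, hvn] with n hn1 hn2
    obtain ⟨p, hp1, hp2⟩ := diag_dense (b n) (v n) hn1 (by
      by_cases hiso : Iso c
      · left
        exact Iso.sim (fun j => hcb n j) hiso
      · right
        obtain ⟨h3, h4⟩ := hS2 hiso
        have h5 : ∀ j, c' j * w j = 0 := by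
          rintro (_ | j)
          · simp only [hw, Option.elim, mul_one]
            exact h3
          · exact h4 j
        intro j
        rcases mul_eq_zero.1 (h5 j) with h6 | h6
        · rw [hb0 n j h6]
          push_cast
          ring
        · have : v n j = 0 := by
            simp only [hv, h6]
            split_ifs
            · rfl
            · ring
          rw [this, mul_zero]) (half_pos hη₀)
    have hpw : ∀ j, |(p j : ℝ) - w j| < η₀ := by
      intro j
      have h1 := abs_sub_le (p j : ℝ) (v n j) (w j)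
      have h2 := hp2 j
      have h3 := hn2 j
      linarith
    have hp0 : p none ≠ 0 := by
      intro h0
      have := hpw none
      simp only [h0, hw, Option.elim, Rat.cast_zero, zero_sub, abs_neg, abs_one] at this
      linarith [hη₀'.2]
    refine ⟨fun j => p (some j) / p none, ?_, fun j => ?_⟩
    · rw [Fintype.sum_option] at hp1
      have h2 : p none ^ 2 ≠ 0 := pow_ne_zero 2 hp0
      change b n none + ∑ j, b n (some j) * (p (some j) / p none) ^ 2 = 0
      apply (mul_eq_zero.1 (?_ : p none ^ 2 * _ = 0)).resolve_left h2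
      rw [mul_add, Finset.mul_sum, ← hp1]
      congr 1
      · ring
      · refine Finset.sum_congr rfl fun j _ => ?_
        field_simp
    · push_cast
      refine hη' j _ _ ((hpw (some j)).trans_le (hη₀'.1 j)) ?_
      exact (hpw none).trans_le (hη₀'.1 j)

end quad

section pow

variable {μ : Type} [Fintype μ]

/-- the shapes -/
def ShP (s : ℕ) (c : Option μ → ℚ) : Set (Option μ ⊕ μ → ℝ) :=
  {v | (v (Sum.inl none) + ∑ j, v (Sum.inl (some j)) * v (Sum.inr j) ^ s = 0) ∧
    (Aff (μ := μ) s c).Nonempty}

lemma pow_lim {x : ℕ → ℝ} {u : ℝ} {s : ℕ} (hs : s ≠ 0) (hu : u ≠ 0)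
    (h : Tendsto (fun n => x n ^ s) atTop (𝓝 (u ^ s))) (hpos : ∀ᶠ n in atTop, 0 < x n * u) :
    Tendsto x atTop (𝓝 u) := by
  have h1 : Tendsto (fun n => (x n / u) ^ s) atTop (𝓝 1) := by
    have := h.div_const (u ^ s)
    rw [div_self (pow_ne_zero s hu)] at this
    refine this.congr fun n => ?_
    rw [div_pow]
  have h2 : Tendsto (fun n => x n / u) atTop (𝓝 1) := by
    rw [Metric.tendsto_nhds] at h1 ⊢
    intro ε hε
    filter_upwards [h1 ε hε, hpos] with n hn1 hn2
    rw [Real.dist_eq] at hn1 ⊢
    refine lt_of_le_of_lt ?_ hn1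
    have hy : 0 ≤ x n / u := by
      have : x n / u = x n * u / u ^ 2 := by field_simp
      rw [this]
      positivity
    set y := x n / u
    obtain ⟨m, rfl⟩ : ∃ m, s = m + 1 := ⟨s - 1, by omega⟩
    have h3 : y ^ (m + 1) - 1 = (y - 1) * ∑ i ∈ Finset.range (m + 1), y ^ i := by
      rw [mul_comm]
      exact (geom_sum_mul y (m + 1)).symm
    rw [h3, abs_mul]
    have h4 : 1 ≤ ∑ i ∈ Finset.range (m + 1), y ^ i := by
      have := Finset.single_le_sum (f := fun i => y ^ i) (s := Finset.range (m + 1))
        (fun i _ => pow_nonneg hy i) (Finset.mem_range.2 (Nat.succ_pos m))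
      simpa using this
    have h5 : 1 ≤ |∑ i ∈ Finset.range (m + 1), y ^ i| := h4.trans (le_abs_self _)
    nlinarith [abs_nonneg (y - 1)]
  have h3 := h2.mul_const u
  rw [one_mul] at h3
  refine h3.congr fun n => ?_
  field_simp

/-- **Pure equations.** -/
theorem fib_pow [Unique μ] {s : ℕ} (hs : s ≠ 0) : Fib s (Aff (μ := μ) s) (ShP s) := by
  classical
  refine ⟨?_, ?_, ?_, ?_⟩
  · refine Set.Finite.subset (s := {∅, {v | (v (Sum.inl none) + ∑ j, v (Sum.inl (some j)) *
        v (Sum.inr j) ^ s = 0)}}) (by simp) ?_
    rintro _ ⟨c, rfl⟩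
    by_cases h : (Aff (μ := μ) s c).Nonempty
    · right
      ext v
      simp [ShP, h]
    · left
      ext v
      simp [ShP, h]
  · intro c
    exact SAP.and (SAP.eq_zero ((PF.coord _).add (PF.sum _ fun j _ => (PF.coord _).mul
      ((PF.coord _).pow s)))) (SAP.const _)
  · intro c u hu
    have hu' : c none + ∑ j, c (some j) * u j ^ s = 0 := hu
    refine ⟨?_, ⟨u, hu⟩⟩
    simp only [Sum.elim_inl, Sum.elim_inr]
    exact_mod_cast hu'
  · intro c b c' u' hcb hb hc0 hS ε hε
    obtain ⟨hS1, ⟨ρ, hρ⟩⟩ := hS
    simp only [Sum.elim_inl, Sum.elim_inr, Finset.univ_unique, Finset.sum_singleton] at hS1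
    have hρ' : c none + c (some default) * ρ default ^ s = 0 := by
      have : c none + ∑ j, c (some j) * ρ j ^ s = 0 := hρ
      simpa using this
    have hb0 : ∀ n j, c' j = 0 → b n j = 0 := fun n j h0 => (hcb n j).eq_zero_iff.1 (hc0 j h0)
    have hmem : ∀ n (x : ℚ), b n none + b n (some default) * x ^ s = 0 →
        (fun _ => x) ∈ Aff (μ := μ) s (b n) := by
      intro n x hx
      change b n none + ∑ j, b n (some j) * x ^ s = 0
      simpa using hx
    by_cases h1 : c' (some default) = 0
    · have h2 : c' none = 0 := by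
        rw [h1, zero_mul, add_zero] at hS1
        exact hS1
      obtain ⟨q, hq1, hq2⟩ := exists_rat_btwn (show u' default - ε < u' default by linarith)
      refine Eventually.of_forall fun n => ⟨fun _ => q, hmem n q ?_, fun _ => ?_⟩
      · rw [hb0 n _ h1, hb0 n _ h2]
        ring
      · rename_i k
        rw [Unique.eq_default k, abs_lt]
        constructor <;> linarith
    by_cases h2 : c' none = 0
    · have hu0 : u' default = 0 := by
        rw [h2, zero_add] at hS1
        exact pow_eq_zero_iff hs |>.1 ((mul_eq_zero.1 hS1).resolve_left h1)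
      refine Eventually.of_forall fun n => ⟨fun _ => 0, hmem n 0 ?_, fun k => ?_⟩
      · rw [hb0 n _ h2, zero_pow hs]
        ring
      · have : u' k = 0 := by rw [Unique.eq_default k]; exact hu0
        rw [this]
        simpa using hε
    -- the main case
    have hu0 : u' default ≠ 0 := by
      intro h0
      rw [h0, zero_pow hs, mul_zero, add_zero] at hS1
      exact h2 hS1
    choose r hr0 hr using hcb
    have hbn : ∀ᶠ n in atTop, b n none ≠ 0 ∧ b n (some default) ≠ 0 := by
      filter_upwards [(hb none).eventually_ne h2, (hb (some default)).eventually_ne h1] with n k1 k2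
      exact ⟨fun h => k1 (by rw [h]; norm_num), fun h => k2 (by rw [h]; norm_num)⟩
    set x : ℕ → ℚ := fun n => ρ default * r n none / r n (some default) with hx
    have hxe : ∀ n, b n none + b n (some default) * x n ^ s = 0 := by
      intro n
      rw [hr n none, hr n (some default), hx]
      have := hr0 n (some default)
      simp only
      rw [div_pow, mul_pow]
      field_simp
      linear_combination (r n none ^ s) * hρ'
    have hxl : Tendsto (fun n => (x n : ℝ) ^ s) atTop (𝓝 (u' default ^ s)) := by
      have h3 : Tendsto (fun n => -((b n none : ℝ) / (b n (some default) : ℝ))) atTop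
          (𝓝 (-(c' none / c' (some default)))) := ((hb none).div (hb (some default)) h1).neg
      have h4 : -(c' none / c' (some default)) = u' default ^ s := by
        field_simp
        linear_combination -hS1
      rw [h4] at h3
      refine h3.congr' ?_
      filter_upwards [hbn] with n hn
      have h5 : ((b n (some default) : ℚ) : ℝ) ≠ 0 := by exact_mod_cast hn.2
      have h6 := congrArg (fun r : ℚ => (r : ℝ)) (hxe n)
      push_cast at h6
      field_simp
      linear_combination -h6
    rcases Nat.even_or_odd s with hse | hso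
    · -- even exponent: choose the sign
      set y : ℕ → ℚ := fun n => if 0 < (x n : ℝ) * u' default then x n else -x n with hy
      have hye : ∀ n, y n ^ s = x n ^ s := by
        intro n
        simp only [hy]
        split_ifs
        · rfl
        · rw [hse.neg_pow]
      have hxn : ∀ᶠ n in atTop, (x n : ℝ) ≠ 0 := by
        filter_upwards [hxl.eventually_ne (pow_ne_zero s hu0)] with n hn h0
        exact hn (by rw [h0, zero_pow hs])
      have hyp : ∀ᶠ n in atTop, 0 < (y n : ℝ) * u' default := by
        filter_upwards [hxn] with n hn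
        simp only [hy]
        split_ifs with h
        · exact h
        · push Not at h
          push_cast
          have : (x n : ℝ) * u' default ≠ 0 := mul_ne_zero hn hu0
          have h3 : (x n : ℝ) * u' default < 0 := lt_of_le_of_ne h this
          linarith
      have hyl : Tendsto (fun n => (y n : ℝ)) atTop (𝓝 (u' default)) := by
        refine pow_lim hs hu0 ?_ hyp
        refine hxl.congr fun n => ?_
        exact_mod_cast (hye n).symm
      filter_upwards [(Metric.tendsto_nhds.1 hyl) ε hε] with n hn
      refine ⟨fun _ => y n, hmem n _ (by rw [hye]; exact hxe n), fun k => ?_⟩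
      rw [Real.dist_eq] at hn
      rw [Unique.eq_default k]
      exact hn
    · have hxp : ∀ᶠ n in atTop, 0 < (x n : ℝ) * u' default := by
        have h3 : 0 < u' default ^ s * u' default ^ s := by
          exact mul_self_pos.2 (pow_ne_zero s hu0)
        have h4 : Tendsto (fun n => (x n : ℝ) ^ s * u' default ^ s) atTop
            (𝓝 (u' default ^ s * u' default ^ s)) := hxl.mul_const _
        filter_upwards [h4.eventually_const_lt h3] with n hn
        rw [← mul_pow] at hn
        exact hso.pow_pos_iff.1 hn
      have hxl' : Tendsto (fun n => (x n : ℝ)) atTop (𝓝 (u' default)) := pow_lim hs hu0 hxl hxp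
      filter_upwards [(Metric.tendsto_nhds.1 hxl') ε hε] with n hn
      refine ⟨fun _ => x n, hmem n _ (hxe n), fun k => ?_⟩
      rw [Real.dist_eq] at hn
      rw [Unique.eq_default k]
      exact hn

/-- no variables -/
theorem fib_empty [IsEmpty μ] {s : ℕ} : Fib s (Aff (μ := μ) s) (ShP s) := by
  classical
  refine ⟨?_, ?_, ?_, ?_⟩
  · refine Set.Finite.subset (s := {∅, {v | (v (Sum.inl none) + ∑ j, v (Sum.inl (some j)) *
        v (Sum.inr j) ^ s = 0)}}) (by simp) ?_
    rintro _ ⟨c, rfl⟩
    by_cases h : (Aff (μ := μ) s c).Nonempty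
    · right
      ext v
      simp [ShP, h]
    · left
      ext v
      simp [ShP, h]
  · intro c
    exact SAP.and (SAP.eq_zero ((PF.coord _).add (PF.sum _ fun j _ => (PF.coord _).mul
      ((PF.coord _).pow s)))) (SAP.const _)
  · intro c u hu
    have hu' : c none + ∑ j, c (some j) * u j ^ s = 0 := hu
    refine ⟨?_, ⟨u, hu⟩⟩
    simp only [Sum.elim_inl, Sum.elim_inr]
    exact_mod_cast hu'
  · intro c b c' u' hcb hb hc0 hS ε hε
    obtain ⟨-, ⟨ρ, hρ⟩⟩ := hS
    have hρ' : c none + ∑ j, c (some j) * ρ j ^ s = 0 := hρ
    rw [Finset.univ_eq_empty, Finset.sum_empty, add_zero] at hρ'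
    refine Eventually.of_forall fun n => ⟨fun k => isEmptyElim k, ?_, fun k => isEmptyElim k⟩
    change b n none + ∑ j, b n (some j) * _ = 0
    rw [Finset.univ_eq_empty, Finset.sum_empty, add_zero]
    exact (hcb n none).eq_zero_iff.1 hρ'

/-- **All the fibres.** -/
theorem fib_all {s m : ℕ} (hs : s ≠ 0) (hm : s = 2 ∨ m ≤ 1) :
    ∃ Sh, Fib s (Aff (μ := Fin m) s) Sh := by
  rcases hm with rfl | hm
  · exact ⟨_, fib_quad⟩
  · rcases (show m = 0 ∨ m = 1 by omega) with rfl | rfl
    · exact ⟨_, fib_empty⟩
    · exact ⟨_, fib_pow hs⟩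

end pow

end Pool.Agent.J4H71.PC
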