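import Pool.Agent.J4H71.PC.Tors

/-!
# The tangent map on the cubic curves `c y³ = x³ + p x + q` (helper71)
-/

set_option autoImplicit false
set_option linter.unusedSectionVars false

namespace Pool.Agent.J4H71.PC

open Polynomial Height

/-- equality up to `n`-th powers -/
def PS (n : ℕ) (a b : ℚ) : Prop := ∃ r : ℚ, r ≠ 0 ∧ b = r ^ n * a

lemma PS.refl (n : ℕ) (a : ℚ) : PS n a a := ⟨1, one_ne_zero, by rw [one_pow, one_mul]⟩

lemma PS.symm {n : ℕ} {a b : ℚ} (h : PS n a b) : PS n b a := by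
  obtain ⟨r, hr, rfl⟩ := h
  refine ⟨r⁻¹, inv_ne_zero hr, ?_⟩
  rw [← mul_assoc, ← mul_pow, inv_mul_cancel₀ hr, one_pow, one_mul]

lemma PS.trans {n : ℕ} {a b c : ℚ} (h : PS n a b) (h' : PS n b c) : PS n a c := by
  obtain ⟨r, hr, rfl⟩ := h
  obtain ⟨s, hs, rfl⟩ := h'
  exact ⟨s * r, mul_ne_zero hs hr, by rw [mul_pow, mul_assoc]⟩

lemma PS.mul {n : ℕ} {a b c d : ℚ} (h : PS n a b) (h' : PS n c d) : PS n (a * c) (b * d) := by
  obtain ⟨r, hr, rfl⟩ := h
  obtain ⟨s, hs, rfl⟩ := h'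
  exact ⟨r * s, mul_ne_zero hr hs, by rw [mul_pow]; ring⟩

lemma PS.eq_zero_iff {n : ℕ} {a b : ℚ} (h : PS n a b) : a = 0 ↔ b = 0 := by
  obtain ⟨r, hr, rfl⟩ := h
  simp [hr]

lemma PS.pow_div {n s e : ℕ} (hs : s ∣ n * e) {a b : ℚ} (h : PS n a b) : PS s (a ^ e) (b ^ e) := by
  obtain ⟨r, hr, rfl⟩ := h
  obtain ⟨m, hm⟩ := hs
  refine ⟨r ^ m, pow_ne_zero m hr, ?_⟩
  rw [mul_pow, ← pow_mul, ← pow_mul, hm, mul_comm s m]

lemma PS.prod {α : Type*} {n : ℕ} (s : Finset α) {a b : α → ℚ} (h : ∀ i ∈ s, PS n (a i) (b i)) :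
    PS n (∏ i ∈ s, a i) (∏ i ∈ s, b i) := by
  classical
  induction s using Finset.induction_on with
  | empty => simpa using PS.refl n 1
  | insert x s hx ih =>
    rw [Finset.prod_insert hx, Finset.prod_insert hx]
    exact (h x (by simp)).mul (ih fun i hi => h i (by simp [hi]))

section cub

variable (p q : ℚ)

/-- the cubic polynomial -/
noncomputable def cf : ℚ[X] := X ^ 3 + C p * X + C q

/-- its derivative -/
noncomputable def cf' : ℚ[X] := C 3 * X ^ 2 + C p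

/-- the Hessian -/
noncomputable def cH : ℚ[X] := C (3 * p) * X ^ 2 + C (9 * q) * X - C (p ^ 2)

/-- the cubic covariant -/
noncomputable def cG : ℚ[X] := C (27 * q) * X ^ 3 - C (18 * p ^ 2) * X ^ 2 - C (27 * p * q) * X -
  C (2 * p ^ 3 + 27 * q ^ 2)

/-- the numerator of the tangent map -/
noncomputable def cP : ℚ[X] := C (27 * q) * X ^ 4 + C (54 * p * q) * X ^ 2 +
  C (54 * q ^ 2 - 8 * p ^ 3) * X - C (9 * p ^ 2 * q)

/-- the denominator of the tangent map -/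
noncomputable def cQ : ℚ[X] := -C (27 * p) * X ^ 4 - C (54 * q) * X ^ 3 - C (18 * p ^ 2) * X ^ 2 -
  C (54 * p * q) * X + C (p ^ 3 - 27 * q ^ 2)

lemma id_P : cP p q = X * cQ p q + 9 * (cH p q * cf p q) := by
  simp only [cP, cQ, cH, cf, map_sub, map_mul, map_pow, map_ofNat]
  ring

lemma id_Q : cQ p q = cf' p ^ 3 - 27 * cf p q ^ 2 := by
  simp only [cQ, cf', cf, map_sub, map_mul, map_pow, map_ofNat]
  ring

lemma id_Q' : cQ p q = cG p q - 3 * (cH p q * cf' p) := by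
  simp only [cQ, cG, cH, cf', map_sub, map_add, map_mul, map_pow, map_ofNat]
  ring

lemma id_syz : cG p q ^ 2 = 27 * (C (4 * p ^ 3 + 27 * q ^ 2) * cf p q ^ 2) - 4 * cH p q ^ 3 := by
  simp only [cG, cH, cf, map_sub, map_add, map_mul, map_pow, map_ofNat]
  ring

lemma id_H : 2 * cH p q = 3 * (cf p q * (6 * X)) - 2 * cf' p ^ 2 := by
  simp only [cH, cf', cf, map_mul, map_pow, map_ofNat]
  ring

lemma id_disc : (-C (18 * p) * X + C (27 * q)) * cf p q +
    (C (6 * p) * X ^ 2 - C (9 * q) * X + C (4 * p ^ 2)) * cf' p = C (4 * p ^ 3 + 27 * q ^ 2) := by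
  simp only [cf', cf, map_add, map_mul, map_pow, map_ofNat]
  ring

lemma id_map {t : ℚ} (h : (cQ p q).eval t ≠ 0) :
    (cf p q).eval ((cP p q).eval t / (cQ p q).eval t) =
      ((cG p q).eval t / (cQ p q).eval t) ^ 3 * (cf p q).eval t := by
  have h1 : (cP p q).eval t ^ 3 + p * (cP p q).eval t * (cQ p q).eval t ^ 2 +
      q * (cQ p q).eval t ^ 3 = (cf p q).eval t * (cG p q).eval t ^ 3 := by
    simp only [cP, cQ, cf, cG, eval_add, eval_sub, eval_mul, eval_pow, eval_X, eval_C, eval_neg]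
    ring
  have h2 : (cf p q).eval ((cP p q).eval t / (cQ p q).eval t) =
      ((cP p q).eval t ^ 3 + p * (cP p q).eval t * (cQ p q).eval t ^ 2 +
      q * (cQ p q).eval t ^ 3) / (cQ p q).eval t ^ 3 := by
    rw [cf]
    simp only [eval_add, eval_mul, eval_pow, eval_X, eval_C]
    field_simp
  rw [h2, h1, div_pow]
  field_simp

variable {p q}

lemma cop_C' {c : ℚ} (hc : c ≠ 0) (P : ℚ[X]) : IsCoprime P (C c) := cop_C hc P

lemma cop_nat {n : ℕ} (hn : n ≠ 0) (P : ℚ[X]) : IsCoprime P (n : ℚ[X]) := by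
  have h := cop_C (c := (n : ℚ)) (by exact_mod_cast hn) P
  simpa using h

lemma cop_f (hD : 4 * p ^ 3 + 27 * q ^ 2 ≠ 0) : IsCoprime (cf p q) (cf' p) := by
  have h : IsCoprime (cf p q) (C (4 * p ^ 3 + 27 * q ^ 2)) := cop_C hD _
  rw [← id_disc p q] at h
  have h1 : IsCoprime (cf p q) ((C (6 * p) * X ^ 2 - C (9 * q) * X + C (4 * p ^ 2)) * cf' p) := by
    have := h.add_mul_left_right (-(-C (18 * p) * X + C (27 * q)))
    have e : (-C (18 * p) * X + C (27 * q)) * cf p q +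
      (C (6 * p) * X ^ 2 - C (9 * q) * X + C (4 * p ^ 2)) * cf' p +
      cf p q * (-(-C (18 * p) * X + C (27 * q))) =
      (C (6 * p) * X ^ 2 - C (9 * q) * X + C (4 * p ^ 2)) * cf' p := by ring
    rwa [e] at this
  exact h1.of_mul_right_right

lemma cop_two (P : ℚ[X]) : IsCoprime P 2 := by
  have := cop_nat (n := 2) two_ne_zero P
  simpa using this

lemma cop_num {c : ℚ} (hc : c ≠ 0) (P : ℚ[X]) : IsCoprime P (C c) := cop_C hc P

lemma cop_fH (hD : 4 * p ^ 3 + 27 * q ^ 2 ≠ 0) : IsCoprime (cf p q) (cH p q) := by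
  have h1 : IsCoprime (cf p q) (-2 * cf' p ^ 2) := by
    refine IsCoprime.mul_right ?_ ((cop_f hD).pow_right)
    exact (cop_two _).neg_right
  have h2 := h1.add_mul_left_right (3 * (6 * X))
  have e : -2 * cf' p ^ 2 + cf p q * (3 * (6 * X)) = 2 * cH p q := by
    rw [id_H]
    ring
  rw [e] at h2
  exact h2.of_mul_right_right

lemma cop_fQ (hD : 4 * p ^ 3 + 27 * q ^ 2 ≠ 0) : IsCoprime (cf p q) (cQ p q) := by
  have h2 := (cop_f hD).pow_right (n := 3) |>.add_mul_left_right (-27 * cf p q)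
  have e : cf' p ^ 3 + cf p q * (-27 * cf p q) = cQ p q := by
    rw [id_Q]
    ring
  rwa [e] at h2

lemma cop_HQ (hD : 4 * p ^ 3 + 27 * q ^ 2 ≠ 0) : IsCoprime (cH p q) (cQ p q) := by
  have h27 : IsCoprime (cH p q) (27 : ℚ[X]) := by
    have := cop_nat (n := 27) (by norm_num) (cH p q)
    simpa using this
  have h1 : IsCoprime (cH p q) (27 * (C (4 * p ^ 3 + 27 * q ^ 2) * cf p q ^ 2)) :=
    IsCoprime.mul_right h27 (IsCoprime.mul_right (cop_C hD _) (cop_fH hD).symm.pow_right)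
  have h2 := h1.add_mul_left_right (-4 * cH p q ^ 2)
  have e : 27 * (C (4 * p ^ 3 + 27 * q ^ 2) * cf p q ^ 2) + cH p q * (-4 * cH p q ^ 2) =
      cG p q ^ 2 := by
    rw [id_syz]
    ring
  rw [e, sq] at h2
  have h3 : IsCoprime (cH p q) (cG p q) := h2.of_mul_right_right
  have h4 := h3.add_mul_left_right (-3 * cf' p)
  have e2 : cG p q + cH p q * (-3 * cf' p) = cQ p q := by
    rw [id_Q']
    ring
  rwa [e2] at h4

lemma cop_PQ (hD : 4 * p ^ 3 + 27 * q ^ 2 ≠ 0) : IsCoprime (cP p q) (cQ p q) := by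
  have h9 : IsCoprime (9 : ℚ[X]) (cQ p q) := by
    have := cop_nat (n := 9) (by norm_num) (cQ p q)
    simpa using this.symm
  have h1 : IsCoprime (9 * (cH p q * cf p q)) (cQ p q) :=
    IsCoprime.mul_left h9 (IsCoprime.mul_left (cop_HQ hD) (cop_fQ hD))
  have h2 := h1.add_mul_right_left X
  have e : 9 * (cH p q * cf p q) + X * cQ p q = cP p q := by
    rw [id_P]
    ring
  rwa [e] at h2

lemma deg_PQ (hD : 4 * p ^ 3 + 27 * q ^ 2 ≠ 0) : 2 ≤ max (cP p q).natDegree (cQ p q).natDegree := by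
  by_cases hp : p = 0
  · have hq : q ≠ 0 := by
      rintro rfl
      apply hD
      rw [hp]
      ring
    refine le_trans ?_ (le_max_left _ _)
    refine le_trans (b := 4) (by norm_num) (le_natDegree_of_ne_zero ?_)
    have : (cP p q).coeff 4 = 27 * q := by
      simp only [cP, coeff_add, coeff_sub, coeff_C_mul, coeff_X_pow, coeff_X, coeff_C]
      norm_num
    rw [this]
    exact mul_ne_zero (by norm_num) hq
  · refine le_trans ?_ (le_max_right _ _)
    refine le_trans (b := 4) (by norm_num) (le_natDegree_of_ne_zero ?_)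
    have : (cQ p q).coeff 4 = -(27 * p) := by
      simp only [cQ, neg_mul, coeff_add, coeff_sub, coeff_neg, coeff_C_mul, coeff_X_pow, coeff_X, coeff_C]
      norm_num
    rw [this]
    exact neg_ne_zero.2 (mul_ne_zero (by norm_num) hp)

/-- **The cube classes are infinite outside of a finite set.** -/
theorem inf3 (hD : 4 * p ^ 3 + 27 * q ^ 2 ≠ 0) : ∃ B : ℝ, ∀ t₀ : ℚ, B < logHeight₁ t₀ →
    (cf p q).eval t₀ ≠ 0 ∧ {t : ℚ | PS 3 ((cf p q).eval t₀) ((cf p q).eval t)}.Infinite := by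
  obtain ⟨B, hB, h⟩ := ht_grow (cop_PQ hD) (deg_PQ hD)
  have hf0 : cf p q ≠ 0 := by
    intro h0
    have : (cf p q).coeff 3 = 1 := by
      simp [cf, coeff_X, coeff_C]
    rw [h0, coeff_zero] at this
    exact zero_ne_one this
  have hroots : {t : ℚ | (cf p q).eval t = 0}.Finite := by
    refine ((cf p q).roots.toFinset.finite_toSet).subset fun t ht => ?_
    rw [Finset.mem_coe, Multiset.mem_toFinset, mem_roots hf0]
    exact ht
  obtain ⟨B', hB'⟩ : ∃ B' : ℝ, ∀ t : ℚ, (cf p q).eval t = 0 → logHeight₁ t ≤ B' := by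
    obtain ⟨b, hb⟩ := (hroots.image fun t : ℚ => logHeight₁ t).bddAbove
    exact ⟨b, fun t ht => hb ⟨t, ht, rfl⟩⟩
  have hnz : ∀ t : ℚ, max B B' < logHeight₁ t → (cf p q).eval t ≠ 0 := fun t ht h0 =>
    absurd (hB' t h0) (not_le.2 ((le_max_right _ _).trans_lt ht))
  refine ⟨max B B', fun t₀ ht₀ => ⟨hnz t₀ ht₀, ?_⟩⟩
  have hS : ({t : ℚ | max B B' < logHeight₁ t ∧ PS 3 ((cf p q).eval t₀) ((cf p q).eval t)}).Infinite := by
    refine infinite_of_ht ⟨t₀, ht₀, PS.refl _ _⟩ ?_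
    rintro t ⟨ht, htc⟩
    obtain ⟨h1, h2⟩ := h t ((le_max_left _ _).trans_lt ht)
    refine ⟨(cP p q).eval t / (cQ p q).eval t, ⟨ht.trans h2, htc.trans ?_⟩, h2⟩
    have h3 := id_map p q h1
    refine ⟨(cG p q).eval t / (cQ p q).eval t, ?_, h3⟩
    intro h0
    rw [h0, zero_pow three_ne_zero, zero_mul] at h3
    exact hnz _ (ht.trans h2) h3
  exact hS.mono fun t ht => ht.2

end cub

end Pool.Agent.J4H71.PC
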