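import Pool.Agent.J4H71.SC.Line2
import Pool.Agent.J4H71.PC.CubA

/-!
# The power class principle (helper71)
-/

set_option autoImplicit false
set_option linter.unusedSectionVars false

namespace Pool.Agent.J4H71.PC

open Set Filter Topology Pool.Agent.H581R2 Pool.Agent.TH729.SQ Pool.Agent.J4H71.SC

section piece

variable {κ R : Type}

/-- the points of `N` with the same classes as `z` -/
def cls (n : R → ℕ) (h : R → MvPolynomial κ ℚ) (N : Set (κ → ℚ)) (z : κ → ℚ) : Set (κ → ℚ) :=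
  {z' | z' ∈ N ∧ ∀ r, PS (n r) (MvPolynomial.eval z (h r)) (MvPolynomial.eval z' (h r))}

/-- a locally dense piece -/
structure Piece (n : R → ℕ) (h : R → MvPolynomial κ ℚ) (N : Set (κ → ℚ)) (W : Set (κ → ℝ)) :
    Prop where
  sa : SA W
  sub : ∀ z ∈ N, (fun i => (z i : ℝ)) ∈ W
  sign : ∀ r, (∀ x ∈ W, (MvPolynomial.aeval x (h r) : ℝ) ≠ 0) ∨
    (∀ x ∈ W, (MvPolynomial.aeval x (h r) : ℝ) = 0)
  opn : ∀ z ∈ N, ∀ x ∈ W, x ∈ closure (rl (cls n h N z)) → closure (rl (cls n h N z)) ∈ 𝓝[W] x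

lemma Piece.lc {n : R → ℕ} {h : R → MvPolynomial κ ℚ} {N : Set (κ → ℚ)} {W : Set (κ → ℝ)}
    (H : Piece n h N W) {z : κ → ℚ} (hz : z ∈ N) : LC W (closure (rl (cls n h N z)) ∩ W) := by
  intro x hx
  by_cases hc : x ∈ closure (rl (cls n h N z))
  · filter_upwards [H.opn z hz x hx hc, self_mem_nhdsWithin] with y hy hyW
    exact ⟨fun _ => ⟨hc, hx⟩, fun _ => ⟨hy, hyW⟩⟩
  · have h1 : (closure (rl (cls n h N z)))ᶜ ∈ 𝓝[W] x :=
      nhdsWithin_le_nhds (isClosed_closure.isOpen_compl.mem_nhds hc)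
    filter_upwards [h1] with y hy
    exact ⟨fun h' => absurd h'.1 hy, fun h' => absurd h'.1 hc⟩

/-- finite unions of pieces -/
def Adm (n : R → ℕ) (h : R → MvPolynomial κ ℚ) (N : Set (κ → ℚ)) : Prop :=
  ∃ (A : Type) (_ : Finite A) (N' : A → Set (κ → ℚ)) (W : A → Set (κ → ℝ)),
    N = ⋃ α, N' α ∧ ∀ α, Piece n h (N' α) (W α)

end piece

/-- fibres: a set of rational points for each tuple of coefficients, with finitely many shapes of
the closures -/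
structure Fib {ν μ : Type} (s : ℕ) (Φ : (ν → ℚ) → Set (μ → ℚ)) (Sh : (ν → ℚ) → Set (ν ⊕ μ → ℝ)) :
    Prop where
  fin : (Set.range Sh).Finite
  sa : ∀ c, SA (Sh c)
  sub : ∀ c, ∀ u ∈ Φ c, Sum.elim (fun j => (c j : ℝ)) (fun k => (u k : ℝ)) ∈ Sh c
  lim : ∀ (c : ν → ℚ) (b : ℕ → ν → ℚ) (c' : ν → ℝ) (u' : μ → ℝ), (∀ n j, PS s (c j) (b n j)) →
    (∀ j, Tendsto (fun n => (b n j : ℝ)) atTop (𝓝 (c' j))) → (∀ j, c' j = 0 → c j = 0) →
    Sum.elim c' u' ∈ Sh c → ∀ ε : ℝ, 0 < ε → ∀ᶠ n in atTop, ∃ u ∈ Φ (b n), ∀ k, |(u k : ℝ) - u' k| < ε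

section main

variable {ι Λ : Type} {κ R : ι → Type} {ν μ : Λ → Type} [Fintype ι] [Fintype Λ]
  [∀ l, Fintype (ν l)] [∀ l, Fintype (μ l)] [∀ i, Fintype (κ i)] [∀ i, Fintype (R i)]

lemma cof_ps (n : ∀ i, R i → ℕ) (s : Λ → ℕ) (a : ∀ l, ν l → ℚ) (e : ∀ l, ν l → ∀ i, R i → ℕ)
    (hs : ∀ l j i r, s l ∣ n i r * e l j i r) (l : Λ) (j : ν l) {g g' : ∀ i, R i → ℚ}
    (hg : ∀ i r, PS (n i r) (g i r) (g' i r)) : PS (s l) (cof a e l j g) (cof a e l j g') :=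
  (PS.refl _ _).mul (PS.prod _ fun i _ => PS.prod _ fun r _ => (hg i r).pow_div (hs l j i r))

/-- the set of the rational points -/
def Tot (h : ∀ i, R i → MvPolynomial (κ i) ℚ) (N : ∀ i, Set (κ i → ℚ)) (T : Set (∀ i, R i → ℚ))
    (a : ∀ l, ν l → ℚ) (e : ∀ l, ν l → ∀ i, R i → ℕ) (Φ : ∀ l, (ν l → ℚ) → Set (μ l → ℚ)) :
    Set ((Σ i, κ i) ⊕ (Σ l, μ l) → ℚ) :=
  {w | (∀ i, xs w i ∈ N i) ∧ vq h (xs w) ∈ T ∧
    ∀ l, us w l ∈ Φ l fun j => cof a e l j (vq h (xs w))}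

/-- unions of classes -/
def Sat (n : ∀ i, R i → ℕ) (T : Set (∀ i, R i → ℚ)) : Prop :=
  ∀ g ∈ T, ∀ g', (∀ i r, PS (n i r) (g i r) (g' i r)) → g' ∈ T

/-- the model of the closure -/
def Mod (h : ∀ i, R i → MvPolynomial (κ i) ℚ) (a : ∀ l, ν l → ℚ) (e : ∀ l, ν l → ∀ i, R i → ℕ)
    (G : ∀ i, Set (κ i → ℝ)) (S : ∀ l, Set (ν l ⊕ μ l → ℝ)) : Set ((Σ i, κ i) ⊕ (Σ l, μ l) → ℝ) :=
  {w | (∀ i, xs w i ∈ G i) ∧ ∀ l, Sum.elim (fun j => cofR a e l j (vr h (xs w))) (us w l) ∈ S l}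

lemma Mod_SA (h : ∀ i, R i → MvPolynomial (κ i) ℚ) (a : ∀ l, ν l → ℚ) (e : ∀ l, ν l → ∀ i, R i → ℕ)
    {G : ∀ i, Set (κ i → ℝ)} (hG : ∀ i, SA (G i)) {S : ∀ l, Set (ν l ⊕ μ l → ℝ)}
    (hS : ∀ l, SA (S l)) : SA (Mod h a e G S) := by
  refine SAP.and (SAP.forall_fin fun i => ?_) (SAP.forall_fin fun l => ?_)
  · exact SAP.preimage (p := fun v => v ∈ G i) (hG i) (fun k => PF.coord _)
  · refine SAP.preimage (p := fun v => v ∈ S l) (hS l) (fun k => ?_)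
    rcases k with j | k
    · refine (PF.const _).mul (PF.prod _ fun i _ => PF.prod _ fun r _ => PF.pow ?_ _)
      exact (PF.aeval (h i r)).comp (φ := fun (w : (Σ i, κ i) ⊕ (Σ l, μ l) → ℝ) k => w (Sum.inl ⟨i, k⟩))
        fun k => PF.coord _
    · exact PF.coord _

variable {h : ∀ i, R i → MvPolynomial (κ i) ℚ} {N : ∀ i, Set (κ i → ℚ)} {W : ∀ i, Set (κ i → ℝ)}
  {T : Set (∀ i, R i → ℚ)} {n : ∀ i, R i → ℕ} {s : Λ → ℕ}

/-- the coefficients vanish identically or nowhere -/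
lemma cofR_sign (hP : ∀ i, Piece (n i) (h i) (N i) (W i)) (a : ∀ l, ν l → ℚ)
    (e : ∀ l, ν l → ∀ i, R i → ℕ)
    (l : Λ) (j : ν l) {x y : ∀ i, κ i → ℝ} (hx : ∀ i, x i ∈ W i) (hy : ∀ i, y i ∈ W i)
    (h0 : cofR a e l j (vr h x) = 0) : cofR a e l j (vr h y) = 0 := by
  rcases mul_eq_zero.1 h0 with h1 | h1
  · rw [cofR, h1, zero_mul]
  · obtain ⟨i, -, h2⟩ := Finset.prod_eq_zero_iff.1 h1
    obtain ⟨r, -, h3⟩ := Finset.prod_eq_zero_iff.1 h2
    rw [cofR]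
    refine mul_eq_zero_of_right _ (Finset.prod_eq_zero (Finset.mem_univ i)
      (Finset.prod_eq_zero (Finset.mem_univ r) ?_))
    have h4 : e l j i r ≠ 0 := by
      intro h5
      rw [h5, pow_zero] at h3
      exact one_ne_zero h3
    have h5 : vr h x i r = 0 := pow_eq_zero_iff h4 |>.1 h3
    rcases (hP i).sign r with h6 | h6
    · exact absurd h5 (h6 _ (hx i))
    · have : vr h y i r = 0 := h6 _ (hy i)
      rw [this, zero_pow h4]

/-- **the inclusion of the models in the closure** -/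
lemma Mod_sub (hP : ∀ i, Piece (n i) (h i) (N i) (W i)) (hT : Sat n T) (a : ∀ l, ν l → ℚ)
    (e : ∀ l, ν l → ∀ i, R i → ℕ) (hs : ∀ l j i r, s l ∣ n i r * e l j i r)
    {Φ : ∀ l, (ν l → ℚ) → Set (μ l → ℚ)} {Sh : ∀ l, (ν l → ℚ) → Set (ν l ⊕ μ l → ℝ)}
    (hF : ∀ l, Fib (s l) (Φ l) (Sh l)) {z : ∀ i, κ i → ℚ} (hzN : ∀ i, z i ∈ N i)
    (hzT : vq h z ∈ T) :
    Mod h a e (fun i => closure (rl (cls (n i) (h i) (N i) (z i))) ∩ W i)
      (fun l => Sh l fun j => cof a e l j (vq h z)) ⊆ closure (rl (Tot h N T a e Φ)) := by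
  classical
  intro w hw
  obtain ⟨hw1, hw2⟩ := hw
  -- approximation of the base point
  have h1 : ∀ i, ∃ t : ℕ → κ i → ℚ, (∀ m, t m ∈ cls (n i) (h i) (N i) (z i)) ∧
      Tendsto (fun m k => (t m k : ℝ)) atTop (𝓝 (xs w i)) := by
    intro i
    obtain ⟨v, hv, hv'⟩ := mem_closure_iff_seq_limit.1 (hw1 i).1
    choose t ht ht' using hv
    exact ⟨t, ht, hv'.congr fun m => ht' m⟩
  choose t ht htl using h1
  set S : ℕ → ∀ i, κ i → ℚ := fun m i => t i m with hS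
  have hSl : Tendsto (fun m i k => (S m i k : ℝ)) atTop (𝓝 (xs w)) :=
    tendsto_pi_nhds.2 fun i => htl i
  have hsim : ∀ m i r, PS (n i r) (vq h z i r) (vq h (S m) i r) := fun m i r => (ht i m).2 r
  have hSN : ∀ m i, S m i ∈ N i := fun m i => (ht i m).1
  have hSW : ∀ m i, (fun k => (S m i k : ℝ)) ∈ W i := fun m i => (hP i).sub _ (hSN m i)
  -- the coefficients
  set b : ℕ → ∀ l, ν l → ℚ := fun m l j => cof a e l j (vq h (S m)) with hb
  have hcR : ∀ (y : ∀ i, κ i → ℚ) l j, (cof a e l j (vq h y) : ℝ) =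
      cofR a e l j (vr h fun i k => (y i k : ℝ)) := by
    intro y l j
    rw [← cofR_cast]
    congr 1
    funext i r
    exact (vr_cast h y i r).symm
  set c : ∀ l, ν l → ℝ := fun l j => cofR a e l j (vr h (xs w)) with hc
  have hbl : ∀ l j, Tendsto (fun m => (b m l j : ℝ)) atTop (𝓝 (c l j)) := by
    intro l j
    simp only [hb, hcR]
    exact ((cont_cofR h a e l j).tendsto _).comp hSl
  have hc0 : ∀ l j, c l j = 0 → cof a e l j (vq h z) = 0 := by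
    intro l j h0
    have := cofR_sign hP a e l j (fun i => (hw1 i).2) (fun i => (hP i).sub _ (hzN i)) h0
    rw [← hcR] at this
    exact_mod_cast this
  have hcl : ∀ k : ℕ, ∃ m : ℕ, k ≤ m ∧ ∃ u : ∀ l, μ l → ℚ, (∀ l, u l ∈ Φ l (b m l)) ∧
      ∀ l j, |(u l j : ℝ) - us w l j| < 1 / ((k : ℝ) + 1) := by
    intro k
    have h2 : ∀ᶠ m in atTop, ∀ l, ∃ u ∈ Φ l (b m l), ∀ j, |(u j : ℝ) - us w l j| < 1 / ((k : ℝ) + 1) := by
      rw [Filter.eventually_all]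
      intro l
      exact (hF l).lim (fun j => cof a e l j (vq h z)) (fun m => b m l) (c l) (us w l)
        (fun m j => cof_ps n s a e hs l j (hsim m)) (hbl l) (hc0 l) (hw2 l) _ (by positivity)
    obtain ⟨m, hm, hkm⟩ := (h2.and (eventually_ge_atTop k)).exists
    choose u hu hu' using hm
    exact ⟨m, hkm, u, hu, hu'⟩
  choose m hkm u hu1 hu2 using hcl
  have hml : Tendsto m atTop atTop := tendsto_atTop_mono hkm tendsto_id
  refine mem_closure_of_tendsto (b := atTop) (f := fun k : ℕ => (fun t =>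
    ((Sum.elim (fun p : Σ i, κ i => S (m k) p.1 p.2) (fun p : Σ l, μ l => u k p.1 p.2) t : ℚ) : ℝ))) ?_
    (Eventually.of_forall fun k => ?_)
  · rw [tendsto_pi_nhds]
    rintro (⟨i, k⟩ | ⟨l, j⟩)
    · have h2 := (tendsto_pi_nhds.1 (tendsto_pi_nhds.1 hSl i) k).comp hml
      exact h2
    · have h3 : Tendsto (fun k : ℕ => (1 : ℝ) / ((k : ℝ) + 1)) atTop (𝓝 0) :=
        tendsto_one_div_add_atTop_nhds_zero_nat (𝕜 := ℝ)
      have h4 : Tendsto (fun k : ℕ => (u k l j : ℝ) - us w l j) atTop (𝓝 0) := by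
        refine squeeze_zero_norm (fun k => ?_) h3
        rw [Real.norm_eq_abs]
        exact (hu2 k l j).le
      have h5 := h4.add_const (us w l j)
      rw [zero_add] at h5
      refine h5.congr fun k => ?_
      simp
  · exact mem_rl ⟨fun i => hSN (m k) i, hT _ hzT _ fun i r => hsim (m k) i r, fun l => hu1 k l⟩

/-- **The power class principle for pieces.** -/
theorem Tot_SA_piece (hP : ∀ i, Piece (n i) (h i) (N i) (W i)) (hT : Sat n T) (a : ∀ l, ν l → ℚ)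
    (e : ∀ l, ν l → ∀ i, R i → ℕ) (hs : ∀ l j i r, s l ∣ n i r * e l j i r)
    {Φ : ∀ l, (ν l → ℚ) → Set (μ l → ℚ)} {Sh : ∀ l, (ν l → ℚ) → Set (ν l ⊕ μ l → ℝ)}
    (hF : ∀ l, Fib (s l) (Φ l) (Sh l)) : SA (closure (rl (Tot h N T a e Φ))) := by
  classical
  set good : Set ((∀ i, Set (κ i → ℝ)) × (∀ l, Set (ν l ⊕ μ l → ℝ))) :=
    {p | ∃ z : ∀ i, κ i → ℚ, (∀ i, z i ∈ N i) ∧
    vq h z ∈ T ∧ p = (fun i => closure (rl (cls (n i) (h i) (N i) (z i))) ∩ W i,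
      fun l => Sh l fun j => cof a e l j (vq h z))} with hgood
  have hfin : good.Finite := by
    have h1 : ((Set.pi univ fun i => {V : Set (κ i → ℝ) | V ⊆ W i ∧ LC (W i) V}) ×ˢ
        (Set.pi univ fun l => Set.range (Sh l))).Finite :=
      (Set.Finite.pi fun i => fc_sa (κ i) (W i) (hP i).sa).prod (Set.Finite.pi fun l => (hF l).fin)
    refine h1.subset ?_
    rintro _ ⟨z, hz, -, rfl⟩
    refine ⟨fun i _ => ⟨inter_subset_right, (hP i).lc (hz i)⟩, fun l _ => ⟨_, rfl⟩⟩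
  have hSA : ∀ p ∈ good, SA (Mod h a e p.1 p.2) := by
    rintro _ ⟨z, hz, -, rfl⟩
    refine Mod_SA h a e (fun i => ?_) fun l => (hF l).sa _
    exact sa_of_lc (κ i) (W i) _ (hP i).sa inter_subset_right ((hP i).lc (hz i))
  have hU : SA (⋃ p ∈ good, Mod h a e p.1 p.2) := by
    refine SAP.congr (q := fun w => w ∈ ⋃ p ∈ good, Mod h a e p.1 p.2)
      (SAP.exists_mem hfin.toFinset (p := fun p w => w ∈ Mod h a e p.1 p.2)
      fun p hp => hSA p (by simpa using hp)) fun w => ?_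
    simp only [mem_iUnion, Set.Finite.mem_toFinset, exists_prop]
  have hcl : closure (rl (Tot h N T a e Φ)) = closure (⋃ p ∈ good, Mod h a e p.1 p.2) := by
    apply Subset.antisymm
    · apply closure_mono
      rintro _ ⟨w, ⟨hw1, hw2, hw3⟩, rfl⟩
      rw [mem_iUnion₂]
      refine ⟨_, ⟨xs w, hw1, hw2, rfl⟩, fun i => ⟨subset_closure ?_, ?_⟩, fun l => ?_⟩
      · exact mem_rl ⟨hw1 i, fun r => PS.refl _ _⟩
      · exact (hP i).sub _ (hw1 i)
      · have e1 : ∀ j, cofR a e l j (vr h (xs fun t => (w t : ℝ))) =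
            ((cof a e l j (vq h (xs w)) : ℚ) : ℝ) := by
          intro j
          rw [← cofR_cast]
          congr 1
          funext i r
          exact vr_cast h (xs w) i r
        have h2 := (hF l).sub _ _ (hw3 l)
        simp only [e1]
        exact h2
    · refine closure_minimal (iUnion₂_subset fun p hp => ?_) isClosed_closure
      obtain ⟨z, hzN, hzT, rfl⟩ := hp
      exact Mod_sub hP hT a e hs hF hzN hzT
  rw [hcl]
  exact SA.closure hU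

/-- **The power class principle.** -/
theorem Tot_SA (hA : ∀ i, Adm (n i) (h i) (N i)) (hT : Sat n T) (a : ∀ l, ν l → ℚ)
    (e : ∀ l, ν l → ∀ i, R i → ℕ) (hs : ∀ l j i r, s l ∣ n i r * e l j i r)
    {Φ : ∀ l, (ν l → ℚ) → Set (μ l → ℚ)} {Sh : ∀ l, (ν l → ℚ) → Set (ν l ⊕ μ l → ℝ)}
    (hF : ∀ l, Fib (s l) (Φ l) (Sh l)) : SA (closure (rl (Tot h N T a e Φ))) := by
  classical
  choose A hAf N' W hN hP using hA
  have hTot : Tot h N T a e Φ = ⋃ α : (∀ i, A i), Tot h (fun i => N' i (α i)) T a e Φ := by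
    ext w
    simp only [Tot, mem_iUnion, Set.mem_ofPred_eq]
    constructor
    · rintro ⟨h1, h2, h3⟩
      have h4 : ∀ i, ∃ α, xs w i ∈ N' i α := by
        intro i
        have := h1 i
        rw [hN i, mem_iUnion] at this
        exact this
      choose α hα using h4
      exact ⟨α, hα, h2, h3⟩
    · rintro ⟨α, h1, h2, h3⟩
      refine ⟨fun i => ?_, h2, h3⟩
      rw [hN i, mem_iUnion]
      exact ⟨_, h1 i⟩
  rw [hTot, rl_iUnion, closure_iUnion_of_finite]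
  have h1 : ∀ α : (∀ i, A i), SAP fun w => w ∈ closure (rl (Tot h (fun i => N' i (α i)) T a e Φ)) :=
    fun α => Tot_SA_piece (fun i => hP i (α i)) hT a e hs hF
  refine SAP.congr (q := fun w => w ∈ ⋃ α : (∀ i, A i),
    closure (rl (Tot h (fun i => N' i (α i)) T a e Φ))) (SAP.exists_fin h1) fun w => ?_
  rw [mem_iUnion]

end main

end Pool.Agent.J4H71.PC
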