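import Pool.Agent.J4H71.PC.CubA
import Pool.Agent.Y718.RealDen

/-!
# Real density of the cube classes of `x³ + p x + q` (helper71)

The argument for plane cubics is the one of `Pool.Agent.Y718.RealDen` for quartics.
-/

set_option autoImplicit false
set_option linter.unusedSectionVars false
set_option linter.unusedSimpArgs false

open Set Filter Topology Pool.Agent.TH729.CC

namespace Pool.Agent.J4H71.PC

open Pool.Agent.Y718

/-- the form `x³ + p x z² + q z³ - c y³` -/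
noncomputable def G3 (p q c : ℚ) : Tri 3 :=
  (((Tri.prod cx cx cx).add ((Tri.prod cx cz cz).smul p)).add ((Tri.prod cz cz cz).smul q)).add
    ((Tri.prod cs cs cs).smul (-c))

lemma G3_apply (p q c : ℚ) (v : E 3) :
    (G3 p q c).f v v v = v 0 ^ 3 + p * v 0 * v 2 ^ 2 + q * v 2 ^ 3 - c * v 1 ^ 3 := by
  simp only [G3, Tri.add, Tri.smul, Tri.prod, LinearMap.smul_apply, LinearMap.add_apply, pr3_apply,
    smul_eq_mul, LinearMap.proj_apply]
  ring

lemma G3_pol (p q c : ℚ) (v e : E 3) :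
    (G3 p q c).f v v e = (1 / 3) * ((3 * v 0 ^ 2 + p * v 2 ^ 2) * e 0 + (-3 * c * v 1 ^ 2) * e 1 +
      (2 * p * v 0 * v 2 + 3 * q * v 2 ^ 2) * e 2) := by
  simp only [G3, Tri.add, Tri.smul, Tri.prod, LinearMap.smul_apply, LinearMap.add_apply, pr3_apply,
    smul_eq_mul, LinearMap.proj_apply]
  ring

lemma G3_rat (p q c : ℚ) : Rat3 (G3 p q c) QR := by
  have hpr : ∀ i : Fin 3, RL QR (LinearMap.proj i : E 3 →ₗ[ℝ] ℝ) := fun i v hv => hv i
  intro a b d ha hb hd
  have hm : ∀ {p q r : E 3 →ₗ[ℝ] ℝ} (t : ℝ), RL QR p → RL QR q → RL QR r → t ∈ QR →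
      ((Tri.prod p q r).smul t).f a b d ∈ QR := by
    intro p q r t hp hq hr ht
    exact Subfield.mul_mem _ ht (Tri.prod_rat hp hq hr a b d ha hb hd)
  simp only [G3, Tri.add, LinearMap.add_apply]
  refine Subfield.add_mem _ (Subfield.add_mem _ (Subfield.add_mem _ ?_ ?_) ?_) ?_
  · exact Tri.prod_rat (hpr 0) (hpr 0) (hpr 0) a b d ha hb hd
  · exact hm _ (hpr 0) (hpr 2) (hpr 2) (mem_QR _)
  · exact hm _ (hpr 2) (hpr 2) (hpr 2) (mem_QR _)
  · exact hm _ (hpr 1) (hpr 1) (hpr 1) ⟨-c, by simp⟩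

variable {p q c : ℚ}

/-- a cubic polynomial without double root is not a multiple of a cube -/
lemma not_cube (hD : 4 * p ^ 3 + 27 * q ^ 2 ≠ 0) (k α β : ℚ) {T : Set ℚ} (hT : T.Infinite) :
    ¬ ∀ t ∈ T, t ^ 3 + p * t + q = k * (α * t + β) ^ 3 := by
  intro h
  obtain ⟨h0, h1, h2, h3, -⟩ := poly4 (c0 := q - k * β ^ 3) (c1 := p - 3 * k * α * β ^ 2)
    (c2 := -3 * k * α ^ 2 * β) (c3 := 1 - k * α ^ 3) (c4 := 0) hT
    (fun t ht => by linear_combination h t ht)
  have hk : k * α ^ 3 = 1 := by linear_combination -h3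
  have hα : α ≠ 0 := by
    rintro rfl
    norm_num at hk
  have hk0 : k ≠ 0 := by
    rintro rfl
    norm_num at hk
  have hβ : β = 0 := by
    have h4 : -3 * k * α ^ 2 ≠ 0 := mul_ne_zero (mul_ne_zero (by norm_num) hk0) (pow_ne_zero 2 hα)
    exact (mul_eq_zero.1 h2).resolve_left h4
  apply hD
  have hp : p = 0 := by rw [hβ] at h1; linear_combination h1
  have hq : q = 0 := by rw [hβ] at h0; linear_combination h0
  rw [hp, hq]
  ring

lemma G3_NH (hD : 4 * p ^ 3 + 27 * q ^ 2 ≠ 0) (hc : c ≠ 0) : NH (G3 p q c) QR := by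
  intro a ha
  by_contra hcon
  push Not at hcon
  obtain ⟨a0, ha0⟩ := of_QR (a 0).2
  obtain ⟨a1, ha1⟩ := of_QR (a 1).2
  obtain ⟨a2, ha2⟩ := of_QR (a 2).2
  have hcon' : ∀ x s z : ℚ, a0 * x + a1 * s + a2 * z = 0 →
      x ^ 3 + p * x * z ^ 2 + q * z ^ 3 - c * s ^ 3 = 0 := by
    intro x s z hv
    have h1 := hcon ![(x : ℝ), (s : ℝ), (z : ℝ)] ?_ ?_
    · rw [G3_apply] at h1
      simp only [Matrix.cons_val_zero, Matrix.cons_val_one, Matrix.cons_val] at h1
      exact_mod_cast h1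
    · intro i
      fin_cases i
      · exact mem_QR _
      · exact mem_QR _
      · exact mem_QR _
    · rw [Fin.sum_univ_three]
      simp only [Matrix.cons_val_zero, Matrix.cons_val_one, Matrix.cons_val]
      rw [← ha0, ← ha1, ← ha2]
      exact_mod_cast hv
  by_cases h1 : a1 = 0
  · have := hcon' 0 1 0 (by rw [h1]; ring)
    apply hc
    linear_combination -this
  · refine not_cube hD c (-a0 / a1) (-a2 / a1) (T := univ) Set.infinite_univ ?_
    intro t _
    have h2 := hcon' t ((-a0 / a1) * t + (-a2 / a1)) 1 (by field_simp; ring)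
    linear_combination h2

lemma G3_NSg (hD : 4 * p ^ 3 + 27 * q ^ 2 ≠ 0) (hc : c ≠ 0) : NSg (G3 p q c) QR := by
  intro P hP hP0
  by_contra hcon
  push Not at hcon
  obtain ⟨x, hx⟩ := of_QR (hP 0)
  obtain ⟨s, hs⟩ := of_QR (hP 1)
  obtain ⟨z, hz⟩ := of_QR (hP 2)
  have e0 := hcon ![1, 0, 0]
  have e1 := hcon ![0, 1, 0]
  have e2 := hcon ![0, 0, 1]
  rw [G3_pol, ← hx, ← hs, ← hz] at e0 e1 e2
  simp only [Matrix.cons_val_zero, Matrix.cons_val_one, Matrix.cons_val, mul_one, mul_zero,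
    add_zero, zero_add] at e0 e1 e2
  have f0 : 3 * x ^ 2 + p * z ^ 2 = 0 := by
    have : ((3 * x ^ 2 + p * z ^ 2 : ℚ) : ℝ) = 0 := by push_cast; linear_combination 3 * e0
    exact_mod_cast this
  have f1 : c * s ^ 2 = 0 := by
    have : ((c * s ^ 2 : ℚ) : ℝ) = 0 := by push_cast; linear_combination -e1
    exact_mod_cast this
  have f2 : 2 * p * x * z + 3 * q * z ^ 2 = 0 := by
    have : ((2 * p * x * z + 3 * q * z ^ 2 : ℚ) : ℝ) = 0 := by push_cast; linear_combination 3 * e2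
    exact_mod_cast this
  have hs0 : s = 0 := by
    rcases mul_eq_zero.1 f1 with h | h
    · exact absurd h hc
    · exact pow_eq_zero_iff two_ne_zero |>.1 h
  by_cases hz0 : z = 0
  · have hx0 : x = 0 := by
      rw [hz0] at f0
      have : x ^ 2 = 0 := by linear_combination f0 / 3
      exact pow_eq_zero_iff two_ne_zero |>.1 this
    apply hP0
    funext i
    fin_cases i
    · simp only [Fin.zero_eta, Pi.zero_apply]; rw [← hx, hx0]; simp
    · simp only [Fin.mk_one, Pi.zero_apply]; rw [← hs, hs0]; simp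
    · simp only [Fin.reduceFinMk, Pi.zero_apply]; rw [← hz, hz0]; simp
  · have g2 : 2 * p * x + 3 * q * z = 0 := by
      apply (mul_eq_zero.1 (?_ : z * _ = 0)).resolve_left hz0
      linear_combination f2
    apply hD
    have hz3 : z ^ 2 ≠ 0 := pow_ne_zero 2 hz0
    apply (mul_eq_zero.1 (?_ : z ^ 2 * _ = 0)).resolve_left hz3
    linear_combination (4 * p ^ 2) * f0 + (-6 * p * x + 9 * q * z) * g2

/-- the abscissas in the class of `c` -/
def S3 (p q c : ℚ) : Set ℚ := {t | ∃ y : ℚ, t ^ 3 + p * t + q = c * y ^ 3}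

theorem G3_not_cov (hD : 4 * p ^ 3 + 27 * q ^ 2 ≠ 0) (hc : c ≠ 0) (hinf : (S3 p q c).Infinite) :
    ¬ Cov (G3 p q c) QR := by
  rintro ⟨L, hL, hL0, hLc⟩
  have hch : ∀ t ∈ S3 p q c, ∃ a ∈ L, ∃ s : ℚ, t ^ 3 + p * t + q = c * s ^ 3 ∧
      (a 0 : ℝ) * t + (a 1 : ℝ) * s + (a 2 : ℝ) = 0 := by
    rintro t ⟨y, hy⟩
    obtain ⟨a, haL, ha⟩ := hLc ![(t : ℝ), (y : ℝ), 1] (by
      refine ⟨?_, ?_⟩
      · intro i
        fin_cases i
        · exact mem_QR _
        · exact mem_QR _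
        · exact ⟨1, by simp⟩
      · rw [G3_apply]
        simp only [Matrix.cons_val_zero, Matrix.cons_val_one, Matrix.cons_val, mul_one, one_pow]
        have : ((t ^ 3 + p * t + q : ℚ) : ℝ) = ((c * y ^ 3 : ℚ) : ℝ) := by rw [hy]
        push_cast at this
        linear_combination this)
    refine ⟨a, haL, y, hy, ?_⟩
    rw [Fin.sum_univ_three] at ha
    simpa using ha
  have hch' : ∀ t : ℚ, ∃ a : Fin 3 → QR, t ∈ S3 p q c → a ∈ L ∧ ∃ s : ℚ,
      t ^ 3 + p * t + q = c * s ^ 3 ∧ (a 0 : ℝ) * t + (a 1 : ℝ) * s + (a 2 : ℝ) = 0 := by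
    intro t
    by_cases ht : t ∈ S3 p q c
    · obtain ⟨a, ha, h⟩ := hch t ht
      exact ⟨a, fun _ => ⟨ha, h⟩⟩
    · exact ⟨0, fun h => absurd h ht⟩
  choose a ha using hch'
  obtain ⟨l, hl, hlinf⟩ : ∃ l ∈ L, ((S3 p q c ∩ a ⁻¹' {l})).Infinite := by
    by_contra hcon
    push Not at hcon
    apply hinf
    refine (Set.Finite.biUnion hL (fun l hl => hcon l hl)).subset ?_
    intro t ht
    simp only [Set.mem_iUnion]
    exact ⟨a t, (ha t ht).1, ht, rfl⟩
  obtain ⟨a0, ha0⟩ := of_QR (l 0).2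
  obtain ⟨a1, ha1⟩ := of_QR (l 1).2
  obtain ⟨a2, ha2⟩ := of_QR (l 2).2
  have hT : ∀ t ∈ (S3 p q c ∩ a ⁻¹' {l}), ∃ s : ℚ,
      t ^ 3 + p * t + q = c * s ^ 3 ∧ a0 * t + a1 * s + a2 = 0 := by
    rintro t ⟨ht, hat⟩
    obtain ⟨-, s, h1, h2⟩ := ha t ht
    have hat' : a t = l := hat
    rw [hat', ← ha0, ← ha1, ← ha2] at h2
    exact ⟨s, h1, by exact_mod_cast h2⟩
  by_cases h1 : a1 = 0
  · obtain ⟨h2, h0, -⟩ := poly4 (c0 := a2) (c1 := a0) (c2 := 0) (c3 := 0) (c4 := 0) hlinf (by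
      intro t ht
      obtain ⟨s, -, h3⟩ := hT t ht
      rw [h1] at h3
      linear_combination h3)
    apply hL0 l hl
    funext i
    apply Subtype.ext
    fin_cases i
    · simp only [Fin.zero_eta]
      rw [← ha0, h0]; simp
    · simp only [Fin.mk_one]
      rw [← ha1, h1]; simp
    · simp only [Fin.reduceFinMk]
      rw [← ha2, h2]; simp
  · refine not_cube hD c (-a0 / a1) (-a2 / a1) hlinf ?_
    intro t ht
    obtain ⟨s, h2, h3⟩ := hT t ht
    have : s = (-a0 / a1) * t + (-a2 / a1) := by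
      field_simp
      linear_combination h3
    rw [← this, h2]

/-- there is an interior point -/
theorem G3_int (hD : 4 * p ^ 3 + 27 * q ^ 2 ≠ 0) (hc : c ≠ 0) (hinf : (S3 p q c).Infinite) :
    ∃ R, Int' (G3 p q c) QR R := by
  by_contra hcon
  push Not at hcon
  exact G3_not_cov hD hc hinf (thmB ⟨G3_rat p q c, hcon⟩ (G3_NH hD hc) (G3_NSg hD hc))

/-- the real cube root of a nonzero number -/
noncomputable def cr (y : ℝ) : ℝ := y * |y| ^ (-(2 / 3) : ℝ)

lemma cr_cube {y : ℝ} (hy : y ≠ 0) : cr y ^ 3 = y := by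
  have h : 0 < |y| := abs_pos.2 hy
  have h1 : (|y| ^ (-(2 / 3) : ℝ)) ^ 3 = |y| ^ (-2 : ℝ) := by
    rw [← Real.rpow_natCast, ← Real.rpow_mul h.le]
    norm_num
  rw [cr, mul_pow, h1, Real.rpow_neg h.le, Real.rpow_two, sq_abs]
  field_simp

lemma cr_cont {y : ℝ} (hy : y ≠ 0) : ContinuousAt cr y := by
  unfold cr
  refine continuousAt_id.mul ?_
  exact (continuous_abs.continuousAt).rpow_const (Or.inl (abs_ne_zero.2 hy))

lemma cr_unique {y z : ℝ} (h : z ^ 3 = y) (hy : y ≠ 0) : cr y = z := by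
  have h1 := cr_cube hy
  rw [← h] at h1
  exact Odd.pow_injective (by decide : Odd 3) (by rw [← h]; exact h1)

/-- **Local density.** -/
theorem S3_open (hD : 4 * p ^ 3 + 27 * q ^ 2 ≠ 0) (hc : c ≠ 0) (hinf : (S3 p q c).Infinite) {x : ℝ}
    (hx : x ∈ closure ((fun t : ℚ => (t : ℝ)) '' S3 p q c)) (hxp : x ^ 3 + p * x + q ≠ 0) :
    closure ((fun t : ℚ => (t : ℝ)) '' S3 p q c) ∈ 𝓝 x := by
  have hcR : (c : ℝ) ≠ 0 := by exact_mod_cast hc
  set S : Set ℝ := (fun t : ℚ => (t : ℝ)) '' S3 p q c with hS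
  set Q : ℝ → ℝ := fun x => (x ^ 3 + p * x + q) / c with hQ
  have hQc : Continuous Q := by fun_prop
  have hQx : Q x ≠ 0 := div_ne_zero hxp hcR
  have hcQ : ∀ y, c * Q y = y ^ 3 + p * y + q := fun y => by
    simp only [hQ]
    field_simp
  set P : ℝ → E 3 := fun x => ![x, cr (Q x), 1] with hP
  have hPc : ContinuousAt P x := by
    rw [continuousAt_pi]
    intro i
    fin_cases i
    · exact continuousAt_id
    · simp only [hP, Fin.mk_one, Matrix.cons_val_one, Matrix.cons_val_zero]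
      exact ContinuousAt.comp (f := Q) (cr_cont hQx) hQc.continuousAt
    · simp only [hP, Fin.reduceFinMk, Matrix.cons_val]
      exact continuousAt_const
  -- the point above `x` is in the closure
  have hPW : P x ∈ W (G3 p q c) QR := by
    obtain ⟨u, hu, hu'⟩ := mem_closure_iff_seq_limit.1 hx
    refine W.of_seq (u := fun n => P (u n)) ?_ (hPc.tendsto.comp hu')
    filter_upwards [((hQc.tendsto x).comp hu').eventually_ne hQx] with n hn0
    obtain ⟨t, ⟨y, hy⟩, ht⟩ := hu n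
    simp only at ht
    have hyR : (y : ℝ) ^ 3 = Q t := by
      have h1 : ((t ^ 3 + p * t + q : ℚ) : ℝ) = ((c * y ^ 3 : ℚ) : ℝ) := by rw [hy]
      push_cast at h1
      simp only [hQ]
      rw [h1]
      field_simp
    have hcr : cr (Q (u n)) = y := by
      refine cr_unique ?_ hn0
      rw [← ht]
      exact hyR
    refine ⟨?_, ?_⟩
    · intro i
      fin_cases i
      · simp only [hP, Fin.zero_eta, Matrix.cons_val_zero]
        rw [← ht]; exact mem_QR _
      · simp only [hP, Fin.mk_one, Matrix.cons_val_one, Matrix.cons_val_zero]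
        rw [hcr]; exact mem_QR _
      · exact ⟨1, by simp [hP]⟩
    · rw [G3_apply]
      simp only [hP, Matrix.cons_val_zero, Matrix.cons_val_one, Matrix.cons_val, mul_one, one_pow]
      rw [hcr, hyR, ← ht, hcQ]
      ring
  have hsm : (G3 p q c).f (P x) (P x) ![0, 1, 0] ≠ 0 := by
    rw [G3_pol]
    simp only [hP, Matrix.cons_val_zero, Matrix.cons_val_one, Matrix.cons_val, mul_one, one_pow,
      mul_zero, add_zero, zero_add]
    have h1 : cr (Q x) ≠ 0 := by
      intro h0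
      have := cr_cube hQx
      rw [h0, zero_pow three_ne_zero] at this
      exact hQx this.symm
    exact mul_ne_zero (by norm_num) (mul_ne_zero (mul_ne_zero (by norm_num) hcR) (pow_ne_zero 2 h1))
  obtain ⟨R, hR⟩ := G3_int hD hc hinf
  have hInt := int_all (G3_rat p q c) (G3_NH hD hc) hR hPW hsm
  have h1 : ∀ᶠ y in 𝓝 x, (G3 p q c).f (P y) (P y) (P y) = 0 →
      P y ∈ W (G3 p q c) QR := hPc.tendsto.eventually hInt.2.2
  have h2 : ∀ᶠ y in 𝓝 x, Q y ≠ 0 := hQc.continuousAt.eventually_ne hQx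
  filter_upwards [h1, h2] with y hy1 hy2
  have hz : (G3 p q c).f (P y) (P y) (P y) = 0 := by
    rw [G3_apply]
    simp only [hP, Matrix.cons_val_zero, Matrix.cons_val_one, Matrix.cons_val, mul_one, one_pow]
    rw [cr_cube hy2, hcQ]
    ring
  obtain ⟨u, hu, hu'⟩ := W.seq (hy1 hz)
  have g0 : Tendsto (fun n => u n 0) atTop (𝓝 y) := by
    have := (tendsto_pi_nhds.1 hu') 0
    simpa [hP] using this
  have g2 : Tendsto (fun n => u n 2) atTop (𝓝 1) := by
    have := (tendsto_pi_nhds.1 hu') 2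
    simpa [hP] using this
  have g : Tendsto (fun n => u n 0 / u n 2) atTop (𝓝 y) := by
    have := g0.div g2 one_ne_zero
    rw [div_one] at this
    exact this
  refine mem_closure_of_tendsto g ?_
  filter_upwards [g2.eventually_ne one_ne_zero] with n hn2
  obtain ⟨a, ha⟩ := of_QR ((hu n).1 0)
  obtain ⟨b, hb⟩ := of_QR ((hu n).1 1)
  obtain ⟨d, hd⟩ := of_QR ((hu n).1 2)
  have hz := (hu n).2
  rw [G3_apply, ← ha, ← hb, ← hd] at hz
  rw [← hd] at hn2
  have hd0 : d ≠ 0 := by exact_mod_cast hn2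
  have hzq : a ^ 3 + p * a * d ^ 2 + q * d ^ 3 - c * b ^ 3 = 0 := by exact_mod_cast hz
  refine ⟨a / d, ⟨b / d, ?_⟩, ?_⟩
  · field_simp
    linear_combination hzq
  · simp only
    rw [← ha, ← hd]
    push_cast
    rfl

/-- **Density in the component.** -/
theorem S3_comp (hD : 4 * p ^ 3 + 27 * q ^ 2 ≠ 0) (hc : c ≠ 0) (hinf : (S3 p q c).Infinite) {t₀ : ℚ}
    (ht₀ : t₀ ∈ S3 p q c) {s : ℝ} (hseg : ∀ u : ℝ, 0 ≤ u → u ≤ 1 →
      (t₀ + u * (s - t₀)) ^ 3 + p * (t₀ + u * (s - t₀)) + q ≠ 0) :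
    s ∈ closure ((fun t : ℚ => (t : ℝ)) '' S3 p q c) := by
  set A := closure ((fun t : ℚ => (t : ℝ)) '' S3 p q c) with hA
  set U : Set ℝ := {x | x ^ 3 + p * x + q ≠ 0} with hU
  have hUo : IsOpen U := isOpen_ne_fun (by fun_prop) continuous_const
  have h1 : IsOpen (A ∩ U) := by
    rw [isOpen_iff_mem_nhds]
    rintro x ⟨hx, hxU⟩
    exact inter_mem (S3_open hD hc hinf hx hxU) (hUo.mem_nhds hxU)
  have h2 : IsOpen (U \ A) := hUo.sdiff isClosed_closure
  have hpre : IsPreconnected (segment ℝ (t₀ : ℝ) s) := (convex_segment _ _).isPreconnected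
  have hsub : segment ℝ (t₀ : ℝ) s ⊆ U := by
    rw [segment_eq_image']
    rintro _ ⟨u, hu, rfl⟩
    exact hseg u hu.1 hu.2
  have h3 := hpre.subset_left_of_subset_union h1 h2
    (Set.disjoint_left.2 fun x hx hx' => hx'.2 hx.1)
    (fun x hx => by
      by_cases hxA : x ∈ A
      · exact Or.inl ⟨hxA, hsub hx⟩
      · exact Or.inr ⟨hsub hx, hxA⟩)
    ⟨t₀, left_mem_segment ℝ _ _, subset_closure ⟨t₀, ht₀, rfl⟩, hsub (left_mem_segment ℝ _ _)⟩
  exact (h3 (right_mem_segment ℝ _ _)).1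

end Pool.Agent.J4H71.PC
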