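import Pool.Agent.J4H71.PC.Fin

/-!
# Isotrivial elliptic fibrations with complex multiplication by roots of unity (helper71)
-/

set_option autoImplicit false
set_option linter.unusedSectionVars false

namespace Pool.Agent.J4H71.PC

open Set Filter Topology Pool.Agent.H581R2 Pool.Agent.TH729.SQ Pool.Agent.J4H71.SC Polynomial

variable {ι : Type} [Fintype ι]

/-- the rational map from the power cover -/
lemma map_SA {D : Set ((Option ι ⊕ Unit) → ℚ)} (hD : SA (closure (rl D))) :
    SA (closure (rl {v : (ι ⊕ Fin 2) → ℚ | ∃ (τ w : ℚ), τ ≠ 0 ∧ 1 + τ ≠ 0 ∧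
      Sum.elim (fun i : Option ι => i.elim τ fun i => v (Sum.inl i)) (fun _ => w) ∈ D ∧
      v (Sum.inr 0) = w ^ 2 / (τ * (1 + τ)) ∧ v (Sum.inr 1) = w ^ 3 / (τ ^ 2 * (1 + τ))})) := by
  classical
  let t : MvPolynomial ((Option ι ⊕ Unit) ⊕ Empty) ℚ := MvPolynomial.X (Sum.inl (Sum.inl none))
  let w : MvPolynomial ((Option ι ⊕ Unit) ⊕ Empty) ℚ := MvPolynomial.X (Sum.inl (Sum.inr ()))
  have h := SA_image (κ := Empty) hD (β := ι ⊕ Fin 2)
    (Sum.elim (fun i => MvPolynomial.X (Sum.inl (Sum.inl (some i))) * (t ^ 2 * (1 + t)))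
      ![w ^ 2 * t, w ^ 3]) (t ^ 2 * (1 + t))
  convert h using 3
  ext v
  constructor
  · rintro ⟨τ, w', h1, h2, h3, h4, h5⟩
    refine ⟨_, fun e => e.elim, h3, ?_, ?_⟩
    · simp only [t, map_mul, map_pow, map_add, map_one, MvPolynomial.eval_X, Sum.elim_inl, Option.elim]
      exact mul_ne_zero (pow_ne_zero 2 h1) h2
    · rintro (i | j)
      · simp only [t, map_mul, map_pow, map_add, map_one, MvPolynomial.eval_X, Sum.elim_inl,
          Option.elim]
        rw [mul_div_cancel_right₀ _ (mul_ne_zero (pow_ne_zero 2 h1) h2)]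
      · fin_cases j
        · simp only [t, w, map_mul, map_pow, map_add, map_one, MvPolynomial.eval_X, Sum.elim_inl,
            Option.elim, Sum.elim_inr, Fin.zero_eta, Matrix.cons_val_zero]
          rw [h4]
          field_simp
        · simp only [t, w, map_mul, map_pow, map_add, map_one, MvPolynomial.eval_X, Sum.elim_inl,
            Option.elim, Sum.elim_inr, Fin.mk_one, Matrix.cons_val_one, Matrix.cons_val_zero]
          rw [h5]
  · rintro ⟨x, u, hx, hq, hv⟩
    simp only [t, map_mul, map_pow, map_add, map_one, MvPolynomial.eval_X, Sum.elim_inl] at hq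
    have h1 : x (Sum.inl none) ≠ 0 := fun h => hq (by rw [h]; ring)
    have h2 : 1 + x (Sum.inl none) ≠ 0 := fun h => hq (by rw [h]; ring)
    refine ⟨x (Sum.inl none), x (Sum.inr ()), h1, h2, ?_, ?_, ?_⟩
    · convert hx using 1
      funext s
      rcases s with (_ | i) | s
      · rfl
      · have := hv (Sum.inl i)
        simp only [t, map_mul, map_pow, map_add, map_one, MvPolynomial.eval_X, Sum.elim_inl] at this
        rw [mul_div_cancel_right₀ _ hq] at this
        exact this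
      · rfl
    · have := hv (Sum.inr 0)
      simp only [t, w, map_mul, map_pow, map_add, map_one, MvPolynomial.eval_X, Sum.elim_inl,
        Sum.elim_inr, Matrix.cons_val_zero] at this
      rw [this]
      field_simp
    · have := hv (Sum.inr 1)
      simp only [t, w, map_mul, map_pow, map_add, map_one, MvPolynomial.eval_X, Sum.elim_inl,
        Sum.elim_inr, Matrix.cons_val_one, Matrix.cons_val_zero] at this
      rw [this]

/-- the cuspidal fibres -/
lemma cusp_SA {A : ι → ℚ[X]} {S : ι → Set (ℕ × ℚ[X])} (hS : ∀ i, LGS (S i)) {s : ℕ}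
    (hA : ∀ i, Over (S i) s (A i)) :
    SA (closure (rl {v : (ι ⊕ Fin 2) → ℚ | (Bq A fun i => v (Sum.inl i)) = 0 ∧
      v (Sum.inr 1) ^ 2 = v (Sum.inr 0) ^ 3})) := by
  classical
  have h := SA_image (κ := Unit) (zero_SA hS hA) (β := ι ⊕ Fin 2)
    (Sum.elim (fun i => MvPolynomial.X (Sum.inl i))
      ![MvPolynomial.X (Sum.inr ()) ^ 2, MvPolynomial.X (Sum.inr ()) ^ 3]) 1
  convert h using 3
  ext v
  constructor
  · rintro ⟨h1, h2⟩
    refine ⟨fun i => v (Sum.inl i), fun _ => v (Sum.inr 1) / v (Sum.inr 0), h1, by simp, ?_⟩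
    rintro (i | j)
    · simp
    · by_cases h0 : v (Sum.inr 0) = 0
      · have h3 : v (Sum.inr 1) = 0 := by
          rw [h0, zero_pow three_ne_zero] at h2
          exact pow_eq_zero_iff two_ne_zero |>.1 h2
        fin_cases j
        · simp [h0]
        · simp [h0, h3]
      · fin_cases j
        · simp only [Sum.elim_inr, Fin.zero_eta, Matrix.cons_val_zero, map_pow, MvPolynomial.eval_X,
            map_one, div_one]
          rw [div_pow, h2]
          field_simp
        · simp only [Sum.elim_inr, Fin.mk_one, Matrix.cons_val_one, Matrix.cons_val_zero, map_pow,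
            MvPolynomial.eval_X, map_one, div_one]
          have e : (v (Sum.inr 1) / v (Sum.inr 0)) ^ 3 = v (Sum.inr 1) ^ 2 * v (Sum.inr 1) /
            v (Sum.inr 0) ^ 3 := by rw [div_pow]; ring
          rw [e, h2]
          field_simp
  · rintro ⟨x, u, hx, -, hv⟩
    have e0 := hv (Sum.inr 0)
    have e1 := hv (Sum.inr 1)
    have e2 : (fun i => v (Sum.inl i)) = x := by
      funext i
      rw [hv]
      simp
    simp only [Sum.elim_inr, Matrix.cons_val_zero, map_pow, MvPolynomial.eval_X, map_one,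
      div_one, Matrix.cons_val_one] at e0 e1
    refine ⟨?_, ?_⟩
    · rw [e2]
      exact hx
    · rw [e0, e1]
      ring

/-- **`y² = z³ + B(x)`.** -/
theorem ell6_SA {A : ι → ℚ[X]} {S : ι → Set (ℕ × ℚ[X])} (hS : ∀ i, LGS (S i))
    (hA : ∀ i, Over (S i) 6 (A i)) :
    SA (closure (rl {v : (ι ⊕ Fin 2) → ℚ | v (Sum.inr 1) ^ 2 = v (Sum.inr 0) ^ 3 +
      Bq A fun i => v (Sum.inl i)})) := by
  classical
  -- the power cover
  have hS' : LGS {((6, lin 0 1 * lin 1 0 ^ 2 * lin 1 1 ^ 3) : ℕ × ℚ[X])} :=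
    lgs_six (by norm_num) (by norm_num) (by norm_num)
  have hh : Over {((6, lin 0 1 * lin 1 0 ^ 2 * lin 1 1 ^ 3) : ℕ × ℚ[X])} 6
      (-(X ^ 4 * (1 + X) ^ 3)) := by
    refine ⟨1, fun _ => (6, lin 0 1 * lin 1 0 ^ 2 * lin 1 1 ^ 3), fun _ => 5, -1, 1,
      X * (1 + X) ^ 2, ?_, fun _ => ⟨rfl, by norm_num⟩, ?_⟩
    · refine mul_ne_zero X_ne_zero (pow_ne_zero 2 ?_)
      intro h0
      have := congrArg (Polynomial.eval 0) h0
      simp at this
    · simp only [lin, Finset.univ_unique, Finset.prod_singleton, map_neg, C_0, C_1]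
      ring
  have h1 := map_SA (pure_SA hS (by norm_num : (6 : ℕ) ≠ 0) hA hS' hh)
  -- the points with `z = 0`
  have h2 := SA_image (κ := Empty) (pure_SA' hS two_ne_zero (fun i => (hA i).of_dvd (by norm_num)) (-1))
    (β := ι ⊕ Fin 2) (Sum.elim (fun i => MvPolynomial.X (Sum.inl (Sum.inl i)))
      ![0, MvPolynomial.X (Sum.inl (Sum.inr ()))]) 1
  -- the points with `y = 0`
  have h3 := SA_image (κ := Empty) (pure_SA' hS three_ne_zero (fun i => (hA i).of_dvd (by norm_num)) 1)
    (β := ι ⊕ Fin 2) (Sum.elim (fun i => MvPolynomial.X (Sum.inl (Sum.inl i)))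
      ![MvPolynomial.X (Sum.inl (Sum.inr ())), 0]) 1
  have h4 := SA_union h1 (SA_union h2 (SA_union h3 (cusp_SA hS hA)))
  convert h4 using 3
  ext v
  constructor
  · intro hv
    have hv' : v (Sum.inr 1) ^ 2 = v (Sum.inr 0) ^ 3 + Bq A fun i => v (Sum.inl i) := hv
    set B := Bq A fun i => v (Sum.inl i) with hB
    set z := v (Sum.inr 0) with hz
    set y := v (Sum.inr 1) with hy
    by_cases hB0 : B = 0
    · right; right; right
      exact ⟨hB0, by rw [← hy, ← hz, hv', hB0, add_zero]⟩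
    by_cases hz0 : z = 0
    · right; left
      refine ⟨Sum.elim (fun i => v (Sum.inl i)) fun _ => y, fun e => e.elim, ?_, by simp, ?_⟩
      · change -1 * B + y ^ 2 = 0
        rw [hv', hz0]
        ring
      · rintro (i | j)
        · simp
        · fin_cases j
          · simp [← hz, hz0]
          · simp [hy]
    by_cases hy0 : y = 0
    · right; right; left
      refine ⟨Sum.elim (fun i => v (Sum.inl i)) fun _ => z, fun e => e.elim, ?_, by simp, ?_⟩
      · change 1 * B + z ^ 3 = 0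
        rw [hy0] at hv'
        linear_combination -hv'
      · rintro (i | j)
        · simp
        · fin_cases j
          · simp [hz]
          · simp [← hy, hy0]
    left
    have e1 : 1 + z ^ 3 / B = y ^ 2 / B := by
      rw [hv']
      field_simp
      ring
    refine ⟨z ^ 3 / B, z ^ 2 * y / B, div_ne_zero (pow_ne_zero 3 hz0) hB0, ?_, ?_, ?_, ?_⟩
    · rw [e1]
      exact div_ne_zero (pow_ne_zero 2 hy0) hB0
    · change (-(X ^ 4 * (1 + X) ^ 3) : ℚ[X]).eval (z ^ 3 / B) * B + (z ^ 2 * y / B) ^ 6 = 0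
      simp only [eval_neg, eval_mul, eval_pow, eval_add, eval_X, eval_one]
      rw [e1]
      field_simp
      ring
    · rw [e1, ← hz]
      field_simp
    · rw [e1, ← hy]
      field_simp
  · rintro (h | h | h | h)
    · obtain ⟨τ, w, h1, h2, h3, h4, h5⟩ := h
      have h3' : (-(X ^ 4 * (1 + X) ^ 3) : ℚ[X]).eval τ * (Bq A fun i => v (Sum.inl i)) +
        w ^ 6 = 0 := h3
      simp only [eval_neg, eval_mul, eval_pow, eval_add, eval_X, eval_one] at h3'
      change v (Sum.inr 1) ^ 2 = v (Sum.inr 0) ^ 3 + Bq A fun i => v (Sum.inl i)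
      rw [h4, h5]
      obtain ⟨ρ, hρ⟩ : ∃ ρ, ρ = 1 + τ := ⟨_, rfl⟩
      obtain ⟨B, hB⟩ : ∃ B, B = Bq A fun i => v (Sum.inl i) := ⟨_, rfl⟩
      rw [← hρ] at h2 h3' ⊢
      rw [← hB] at h3' ⊢
      have e6 : w ^ 6 = B * τ ^ 4 * ρ ^ 3 := by linear_combination h3'
      have e7 : (w ^ 3 / (τ ^ 2 * ρ)) ^ 2 = w ^ 6 / (τ ^ 4 * ρ ^ 2) := by
        rw [div_pow, mul_pow]; ring
      have e8 : (w ^ 2 / (τ * ρ)) ^ 3 = w ^ 6 / (τ ^ 3 * ρ ^ 3) := by
        rw [div_pow, mul_pow]; ring
      rw [e7, e8, e6]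
      field_simp
      rw [hρ]
      ring
    · obtain ⟨x, u, hx, -, hv⟩ := h
      have hx' : -1 * (Bq A fun i => x (Sum.inl i)) + x (Sum.inr ()) ^ 2 = 0 := hx
      have e0 := hv (Sum.inr 0)
      have e1 := hv (Sum.inr 1)
      have e2 : (fun i => v (Sum.inl i)) = fun i => x (Sum.inl i) := by
        funext i
        rw [hv]
        simp
      simp only [Sum.elim_inr, Matrix.cons_val_zero, map_zero, MvPolynomial.eval_X, map_one,
        div_one, Matrix.cons_val_one, Sum.elim_inl] at e0 e1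
      change v (Sum.inr 1) ^ 2 = v (Sum.inr 0) ^ 3 + Bq A fun i => v (Sum.inl i)
      rw [e2, e0, e1]
      linear_combination hx'
    · obtain ⟨x, u, hx, -, hv⟩ := h
      have hx' : 1 * (Bq A fun i => x (Sum.inl i)) + x (Sum.inr ()) ^ 3 = 0 := hx
      have e0 := hv (Sum.inr 0)
      have e1 := hv (Sum.inr 1)
      have e2 : (fun i => v (Sum.inl i)) = fun i => x (Sum.inl i) := by
        funext i
        rw [hv]
        simp
      simp only [Sum.elim_inr, Matrix.cons_val_zero, map_zero, MvPolynomial.eval_X, map_one,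
        div_one, Matrix.cons_val_one, Sum.elim_inl] at e0 e1
      change v (Sum.inr 1) ^ 2 = v (Sum.inr 0) ^ 3 + Bq A fun i => v (Sum.inl i)
      rw [e2, e0, e1]
      linear_combination -hx'
    · obtain ⟨h1, h2⟩ := h
      change v (Sum.inr 1) ^ 2 = v (Sum.inr 0) ^ 3 + Bq A fun i => v (Sum.inl i)
      rw [h1, h2, add_zero]

/-- **`y² = z³ + B(x) z`.** -/
theorem ell4_SA {A : ι → ℚ[X]} {S : ι → Set (ℕ × ℚ[X])} (hS : ∀ i, LGS (S i))
    (hA : ∀ i, Over (S i) 4 (A i)) :
    SA (closure (rl {v : (ι ⊕ Fin 2) → ℚ | v (Sum.inr 1) ^ 2 = v (Sum.inr 0) ^ 3 +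
      (Bq A fun i => v (Sum.inl i)) * v (Sum.inr 0)})) := by
  classical
  have hS' : LGS {((4, (C 0 * X ^ 2 + C 1 * X + C 0) * lin 1 1 ^ 2) : ℕ × ℚ[X])} :=
    lgs_four (by norm_num) (by norm_num)
  have hh : Over {((4, (C 0 * X ^ 2 + C 1 * X + C 0) * lin 1 1 ^ 2) : ℕ × ℚ[X])} 4
      (-(X ^ 3 * (1 + X) ^ 2)) := by
    refine ⟨1, fun _ => (4, (C 0 * X ^ 2 + C 1 * X + C 0) * lin 1 1 ^ 2), fun _ => 3, -1, 1,
      1 + X, ?_, fun _ => ⟨rfl, by norm_num⟩, ?_⟩
    · intro h0
      have := congrArg (Polynomial.eval 0) h0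
      simp at this
    · simp only [lin, Finset.univ_unique, Finset.prod_singleton, map_neg, C_0, C_1]
      ring
  have h1 := map_SA (pure_SA hS (by norm_num : (4 : ℕ) ≠ 0) hA hS' hh)
  -- the points with `y = z = 0`
  have hfree : SA (closure (rl (univ : Set (ι → ℚ)))) := by
    have h5 := SA_image (κ := Empty) (pure_SA' hS two_ne_zero (fun i => (hA i).of_dvd (by norm_num)) 0)
      (β := ι) (fun i => MvPolynomial.X (Sum.inl (Sum.inl i))) 1
    convert h5 using 3
    ext v
    simp only [mem_univ, true_iff]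
    exact ⟨Sum.elim v fun _ => 0, fun e => e.elim, by
      change 0 * _ + (0 : ℚ) ^ 2 = 0
      ring, by simp, by simp⟩
  have h2 := SA_image (κ := Empty) hfree
    (β := ι ⊕ Fin 2) (Sum.elim (fun i => MvPolynomial.X (Sum.inl i)) ![0, 0]) 1
  -- the points with `y = 0`, `z² = - B`
  have h3 := SA_image (κ := Empty) (pure_SA' hS two_ne_zero (fun i => (hA i).of_dvd (by norm_num)) 1)
    (β := ι ⊕ Fin 2) (Sum.elim (fun i => MvPolynomial.X (Sum.inl (Sum.inl i)))
      ![MvPolynomial.X (Sum.inl (Sum.inr ())), 0]) 1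
  have h4 := SA_union h1 (SA_union h2 (SA_union h3 (cusp_SA hS hA)))
  convert h4 using 3
  ext v
  constructor
  · intro hv
    have hv' : v (Sum.inr 1) ^ 2 = v (Sum.inr 0) ^ 3 + (Bq A fun i => v (Sum.inl i)) *
      v (Sum.inr 0) := hv
    set B := Bq A fun i => v (Sum.inl i) with hB
    set z := v (Sum.inr 0) with hz
    set y := v (Sum.inr 1) with hy
    by_cases hB0 : B = 0
    · right; right; right
      exact ⟨hB0, by rw [← hy, ← hz, hv', hB0, zero_mul, add_zero]⟩
    by_cases hz0 : z = 0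
    · right; left
      have hy0 : y = 0 := by
        rw [hz0] at hv'
        have : y ^ 2 = 0 := by linear_combination hv'
        exact pow_eq_zero_iff two_ne_zero |>.1 this
      refine ⟨fun i => v (Sum.inl i), fun e => e.elim, mem_univ _, by simp, ?_⟩
      rintro (i | j)
      · simp
      · fin_cases j
        · simp [← hz, hz0]
        · simp [← hy, hy0]
    by_cases hy0 : y = 0
    · right; right; left
      refine ⟨Sum.elim (fun i => v (Sum.inl i)) fun _ => z, fun e => e.elim, ?_, by simp, ?_⟩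
      · change 1 * B + z ^ 2 = 0
        rw [hy0] at hv'
        apply mul_left_cancel₀ hz0
        linear_combination -hv'
      · rintro (i | j)
        · simp
        · fin_cases j
          · simp [hz]
          · simp [← hy, hy0]
    left
    have e1 : 1 + z ^ 2 / B = y ^ 2 / (z * B) := by
      rw [hv']
      field_simp
      ring
    refine ⟨z ^ 2 / B, z * y / B, div_ne_zero (pow_ne_zero 2 hz0) hB0, ?_, ?_, ?_, ?_⟩
    · rw [e1]
      exact div_ne_zero (pow_ne_zero 2 hy0) (mul_ne_zero hz0 hB0)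
    · change (-(X ^ 3 * (1 + X) ^ 2) : ℚ[X]).eval (z ^ 2 / B) * B + (z * y / B) ^ 4 = 0
      simp only [eval_neg, eval_mul, eval_pow, eval_add, eval_X, eval_one]
      rw [e1]
      field_simp
      ring
    · rw [e1, ← hz]
      field_simp
    · rw [e1, ← hy]
      field_simp
  · rintro (h | h | h | h)
    · obtain ⟨τ, w, h1, h2, h3, h4, h5⟩ := h
      have h3' : (-(X ^ 3 * (1 + X) ^ 2) : ℚ[X]).eval τ * (Bq A fun i => v (Sum.inl i)) +
        w ^ 4 = 0 := h3
      simp only [eval_neg, eval_mul, eval_pow, eval_add, eval_X, eval_one] at h3'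
      change v (Sum.inr 1) ^ 2 = v (Sum.inr 0) ^ 3 + (Bq A fun i => v (Sum.inl i)) * v (Sum.inr 0)
      rw [h4, h5]
      obtain ⟨ρ, hρ⟩ : ∃ ρ, ρ = 1 + τ := ⟨_, rfl⟩
      obtain ⟨B, hB⟩ : ∃ B, B = Bq A fun i => v (Sum.inl i) := ⟨_, rfl⟩
      rw [← hρ] at h2 h3' ⊢
      rw [← hB] at h3' ⊢
      have e6 : w ^ 4 = B * τ ^ 3 * ρ ^ 2 := by linear_combination h3'
      have e7 : (w ^ 3 / (τ ^ 2 * ρ)) ^ 2 = w ^ 4 * w ^ 2 / (τ ^ 4 * ρ ^ 2) := by
        rw [div_pow, mul_pow]; ring
      have e8 : (w ^ 2 / (τ * ρ)) ^ 3 = w ^ 4 * w ^ 2 / (τ ^ 3 * ρ ^ 3) := by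
        rw [div_pow, mul_pow]; ring
      rw [e7, e8, e6]
      field_simp
      rw [hρ]
      ring
    · obtain ⟨x, u, hx, -, hv⟩ := h
      have e0 := hv (Sum.inr 0)
      have e1 := hv (Sum.inr 1)
      simp only [Sum.elim_inr, Matrix.cons_val_zero, map_zero, map_one,
        div_one, Matrix.cons_val_one] at e0 e1
      change v (Sum.inr 1) ^ 2 = v (Sum.inr 0) ^ 3 + (Bq A fun i => v (Sum.inl i)) * v (Sum.inr 0)
      rw [e0, e1]
      ring
    · obtain ⟨x, u, hx, -, hv⟩ := h
      have hx' : 1 * (Bq A fun i => x (Sum.inl i)) + x (Sum.inr ()) ^ 2 = 0 := hx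
      have e0 := hv (Sum.inr 0)
      have e1 := hv (Sum.inr 1)
      have e2 : (fun i => v (Sum.inl i)) = fun i => x (Sum.inl i) := by
        funext i
        rw [hv]
        simp
      simp only [Sum.elim_inr, Matrix.cons_val_zero, map_zero, MvPolynomial.eval_X, map_one,
        div_one, Matrix.cons_val_one, Sum.elim_inl] at e0 e1
      change v (Sum.inr 1) ^ 2 = v (Sum.inr 0) ^ 3 + (Bq A fun i => v (Sum.inl i)) * v (Sum.inr 0)
      rw [e2, e0, e1]
      linear_combination (-x (Sum.inr ())) * hx'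
    · obtain ⟨h1, h2⟩ := h
      change v (Sum.inr 1) ^ 2 = v (Sum.inr 0) ^ 3 + (Bq A fun i => v (Sum.inl i)) * v (Sum.inr 0)
      rw [h1, h2, zero_mul, add_zero]

end Pool.Agent.J4H71.PC
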