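import Pool.Agent.J4H71.PC.TypC
import Pool.Agent.J4H71.PC.Fib
import Pool.Agent.J4H71.SC.Fin

/-!
# Affine varieties over products of lines, elliptic fibrations (helper71)
-/

set_option autoImplicit false
set_option linter.unusedSectionVars false

namespace Pool.Agent.J4H71.PC

open Set Filter Topology Pool.Agent.H581R2 Pool.Agent.TH729.SQ Pool.Agent.J4H71.SC

/-- images under rational maps -/
lemma SA_image {α κ β : Type} [Finite α] [Finite κ] [Finite β] {D : Set (α → ℚ)}
    (hD : SA (closure (rl D))) (p : β → MvPolynomial (α ⊕ κ) ℚ) (q : MvPolynomial (α ⊕ κ) ℚ) :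
    SA (closure (rl {y : β → ℚ | ∃ (x : α → ℚ) (u : κ → ℚ), x ∈ D ∧
      MvPolynomial.eval (Sum.elim x u) q ≠ 0 ∧
      ∀ k, y k = MvPolynomial.eval (Sum.elim x u) (p k) / MvPolynomial.eval (Sum.elim x u) q})) := by
  have h := values_one hD p q
  convert h using 2
  ext y
  constructor
  · rintro ⟨y', ⟨x, u, h1, h2, h3⟩, rfl⟩
    exact ⟨x, u, h1, h2, fun k => congrArg (fun r : ℚ => (r : ℝ)) (h3 k)⟩
  · rintro ⟨x, u, h1, h2, h3⟩
    exact ⟨fun k => MvPolynomial.eval (Sum.elim x u) (p k) / MvPolynomial.eval (Sum.elim x u) q,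
      ⟨x, u, h1, h2, fun _ => rfl⟩, funext h3⟩

lemma SA_union {α : Type} {D D' : Set (α → ℚ)} (h : SA (closure (rl D))) (h' : SA (closure (rl D'))) :
    SA (closure (rl (D ∪ D'))) := by
  have e : rl (D ∪ D') = rl D ∪ rl D' := by
    ext x
    constructor
    · rintro ⟨r, hr | hr, rfl⟩
      · exact Or.inl ⟨r, hr, rfl⟩
      · exact Or.inr ⟨r, hr, rfl⟩
    · rintro (⟨r, hr, rfl⟩ | ⟨r, hr, rfl⟩)
      · exact ⟨r, Or.inl hr, rfl⟩
      · exact ⟨r, Or.inr hr, rfl⟩
  rw [e, closure_union]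
  exact h.union h'

section affine

variable {ι Λ : Type} [Fintype ι] [Fintype Λ] {m : Λ → ℕ} {s : Λ → ℕ}

/-- the rational points of the affine variety; the polynomials `A l none i` are
the factors of the constant term, and `A l (some j) i` the factors of the coefficient of
`u_{l j} ^ {s_l}` -/
def Var (s : Λ → ℕ) (A : ∀ l : Λ, Option (Fin (m l)) → ι → Polynomial ℚ) :
    Set ((ι ⊕ Σ l, Fin (m l)) → ℚ) :=
  {w | ∀ l, (∏ i, (A l none i).eval (w (Sum.inl i))) +
    ∑ j, (∏ i, (A l (some j) i).eval (w (Sum.inl i))) * w (Sum.inr ⟨l, j⟩) ^ s l = 0}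

/-- the version with the other index type -/
def Var' (s : Λ → ℕ) (A : ∀ l : Λ, Option (Fin (m l)) → ι → Polynomial ℚ) :
    Set (((Σ _ : ι, Fin 1) ⊕ Σ l, Fin (m l)) → ℚ) :=
  {w | ∀ l, (∏ i, (A l none i).eval (w (Sum.inl ⟨i, 0⟩))) +
    ∑ j, (∏ i, (A l (some j) i).eval (w (Sum.inl ⟨i, 0⟩))) * w (Sum.inr ⟨l, j⟩) ^ s l = 0}

lemma Var'_SA (hs : ∀ l, s l ≠ 0) (hm : ∀ l, s l = 2 ∨ m l ≤ 1)
    (A : ∀ l : Λ, Option (Fin (m l)) → ι → Polynomial ℚ)
    (hA : ∀ i, LGf (fun r : Σ l : Λ, Option (Fin (m l)) => s r.1) (fun r => A r.1 r.2 i)) :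
    SA (closure (rl (Var' s A))) := by
  classical
  choose Sh hSh using fun l => fib_all (hs l) (hm l)
  have h := Tot_SA (ι := ι) (Λ := Λ) (κ := fun _ => Fin 1)
    (R := fun _ => Σ l : Λ, Option (Fin (m l))) (ν := fun l => Option (Fin (m l)))
    (μ := fun l => Fin (m l)) (n := fun _ r => s r.1) (s := s)
    (h := fun i r => one (A r.1 r.2 i)) (N := fun _ => univ) (T := univ)
    (fun i => (hA i).adm) (fun _ _ _ _ => mem_univ _)
    (fun _ _ => 1) (fun l j _ r => if r = ⟨l, j⟩ then 1 else 0) (by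
      intro l j i r
      split_ifs with h
      · rw [h, mul_one]
      · rw [mul_zero]
        exact dvd_zero _) (Φ := fun l => Aff (s l)) (Sh := Sh) hSh
  convert h using 3
  ext w
  simp only [Var', Tot, mem_univ, implies_true, true_and, Set.mem_ofPred_eq]
  refine forall_congr' fun l => ?_
  have e : ∀ j, cof (fun _ _ => 1) (fun l j _ r => if r = ⟨l, j⟩ then 1 else 0) l j
      (vq (fun i (r : Σ l : Λ, Option (Fin (m l))) => one (A r.1 r.2 i)) (xs w)) =
      ∏ i, (A l j i).eval (w (Sum.inl ⟨i, 0⟩)) := by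
    intro j
    rw [cof, one_mul]
    refine Finset.prod_congr rfl fun i _ => ?_
    rw [Finset.prod_eq_single ⟨l, j⟩]
    · simp only [if_true, pow_one]
      exact one_eval _ _
    · intro r _ hr
      rw [if_neg hr, pow_zero]
    · intro h
      exact absurd (Finset.mem_univ _) h
  simp only [e]
  exact Iff.rfl

/-- **Affine varieties over products of lines.** -/
theorem Var_SA (hs : ∀ l, s l ≠ 0) (hm : ∀ l, s l = 2 ∨ m l ≤ 1)
    (A : ∀ l : Λ, Option (Fin (m l)) → ι → Polynomial ℚ)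
    (hA : ∀ i, LGf (fun r : Σ l : Λ, Option (Fin (m l)) => s r.1) (fun r => A r.1 r.2 i)) :
    SA (closure (rl (Var s A))) := by
  classical
  have h := SA_image (κ := Empty) (Var'_SA hs hm A hA)
    (fun t : ι ⊕ Σ l, Fin (m l) => MvPolynomial.X (Sum.inl (Sum.map (fun i => ⟨i, 0⟩) id t))) 1
  convert h using 3
  ext w
  constructor
  · intro hw
    refine ⟨Sum.elim (fun x => w (Sum.inl x.1)) (fun x => w (Sum.inr x)), fun e => e.elim, hw, ?_, ?_⟩
    · simp
    · rintro (i | s)
      · simp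
      · simp
  · rintro ⟨x, u, hx, -, hy⟩
    have : w = fun t => x (Sum.map (fun i => ⟨i, 0⟩) id t) := by
      funext t
      rw [hy]
      simp
    rw [this]
    exact hx

/-- values of rational functions -/
theorem values_var {α : Type} [Finite α] {D : Set (α → ℚ)} (hD : SA (closure (rl D))) {r : ℕ}
    (p : Fin r → MvPolynomial α ℚ) (q : MvPolynomial α ℚ) :
    SA (closure {y : Fin r → ℝ | ∃ w ∈ D, MvPolynomial.eval w q ≠ 0 ∧
      ∀ c, y c = ((MvPolynomial.eval w (p c) / MvPolynomial.eval w q : ℚ) : ℝ)}) := by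
  have h1 := values_one (κ := Empty) hD (fun c => MvPolynomial.rename Sum.inl (p c))
    (MvPolynomial.rename Sum.inl q)
  have e : ∀ (x : α → ℚ) (u : Empty → ℚ)
      (f : MvPolynomial α ℚ),
      MvPolynomial.eval (Sum.elim x u) (MvPolynomial.rename Sum.inl f) = MvPolynomial.eval x f := by
    intro x u f
    rw [MvPolynomial.eval_rename]
    rfl
  simp only [e] at h1
  convert h1 using 2
  ext y
  constructor
  · rintro ⟨w, h1, h2, h3⟩
    exact ⟨w, fun e => e.elim, h1, h2, h3⟩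
  · rintro ⟨w, -, h1, h2, h3⟩
    exact ⟨w, h1, h2, h3⟩

end affine

section ell

open Polynomial

lemma Over.of_dvd {S : Set (ℕ × ℚ[X])} {s s' : ℕ} (hd : s' ∣ s) {p : ℚ[X]} (h : Over S s p) :
    Over S s' p := by
  obtain ⟨m, f, e, c, g, g₁, h1, h2, h3⟩ := h
  obtain ⟨d, rfl⟩ := hd
  refine ⟨m, f, e, c, g ^ d, g₁ ^ d, pow_ne_zero d h1, fun j => ⟨(h2 j).1, ?_⟩, ?_⟩
  · exact (dvd_mul_right s' d).trans (h2 j).2
  · rw [← pow_mul, ← pow_mul, mul_comm d s']
    exact h3

lemma Over.const (S : Set (ℕ × ℚ[X])) (s : ℕ) (c : ℚ) : Over S s (C c) :=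
  ⟨0, fun j => j.elim0, fun j => j.elim0, c, 1, 1, one_ne_zero, fun j => j.elim0, by simp⟩

lemma Over.one (S : Set (ℕ × ℚ[X])) (s : ℕ) : Over S s 1 := by
  have := Over.const S s 1
  rwa [C_1] at this

variable {ι : Type} [Fintype ι]

/-- the product -/
def Bq (A : ι → ℚ[X]) (x : ι → ℚ) : ℚ := ∏ i, (A i).eval (x i)

/-- one pure equation `c B(x) h(τ) + u ^ s = 0`, with a further variable `τ` -/
lemma pure_SA {A : ι → ℚ[X]} {S : ι → Set (ℕ × ℚ[X])} (hS : ∀ i, LGS (S i)) {s : ℕ} (hs : s ≠ 0)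
    (hA : ∀ i, Over (S i) s (A i)) {S' : Set (ℕ × ℚ[X])} (hS' : LGS S') {h : ℚ[X]}
    (hh : Over S' s h) :
    SA (closure (rl {w : (Option ι ⊕ Unit) → ℚ | (h.eval (w (Sum.inl none)) *
      Bq A fun i => w (Sum.inl (some i))) + w (Sum.inr ()) ^ s = 0})) := by
  classical
  have h1 := Var_SA (ι := Option ι) (Λ := Unit) (m := fun _ => 1) (s := fun _ => s) (fun _ => hs)
    (fun _ => Or.inr le_rfl) (A := fun _ j i => j.elim (i.elim h A) fun _ => 1) (by
      rintro (_ | i)
      · refine hS'.over ?_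
        rintro ⟨_, _ | j⟩
        · exact hh
        · exact Over.one _ _
      · refine (hS i).over ?_
        rintro ⟨_, _ | j⟩
        · exact hA i
        · exact Over.one _ _)
  have h2 := SA_image (κ := Empty) h1 (fun t : Option ι ⊕ Unit =>
    MvPolynomial.X (Sum.inl (Sum.map id (fun i => ⟨i, 0⟩) t))) 1
  convert h2 using 3
  ext w
  constructor
  · intro hw
    refine ⟨Sum.elim (fun x => w (Sum.inl x)) (fun x => w (Sum.inr ())), fun e => e.elim, ?_, ?_, ?_⟩
    · intro l
      rw [Fintype.prod_option]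
      simp only [Option.elim, Sum.elim_inl, Sum.elim_inr, eval_one, Finset.prod_const_one, one_mul,
        Finset.univ_unique, Finset.sum_singleton]
      exact hw
    · simp
    · rintro (i | s)
      · simp
      · simp
  · rintro ⟨x, u, hx, -, hy⟩
    have hw : w = fun t => x (Sum.map id (fun i => ⟨i, 0⟩) t) := by
      funext t
      rw [hy]
      simp
    have h3 := hx ()
    rw [Fintype.prod_option] at h3
    simp only [Option.elim, eval_one, Finset.prod_const_one, one_mul,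
        Finset.univ_unique, Finset.sum_singleton] at h3
    rw [hw]
    exact h3

/-- one pure equation -/
lemma pure_SA' {A : ι → ℚ[X]} {S : ι → Set (ℕ × ℚ[X])} (hS : ∀ i, LGS (S i)) {s : ℕ} (hs : s ≠ 0)
    (hA : ∀ i, Over (S i) s (A i)) (c : ℚ) :
    SA (closure (rl {w : (ι ⊕ Unit) → ℚ | (c * Bq A fun i => w (Sum.inl i)) +
      w (Sum.inr ()) ^ s = 0})) := by
  classical
  have hS' : LGS (∅ : Set (ℕ × ℚ[X])) := by
    intro K _ f hf
    have : IsEmpty K := ⟨fun k => hf k⟩
    exact ⟨1, one_ne_zero, fun t₀ _ x _ ε hε => by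
      obtain ⟨r, hr⟩ := exists_rat_near x hε
      exact ⟨r, hr, fun k => isEmptyElim k⟩⟩
  have h1 := pure_SA hS hs hA hS' (h := C c) (Over.const _ _ _)
  have h2 := SA_image (κ := Empty) h1 (fun t : ι ⊕ Unit =>
    MvPolynomial.X (Sum.inl (Sum.map some id t))) 1
  convert h2 using 3
  ext w
  constructor
  · intro hw
    refine ⟨Sum.elim (fun x => x.elim 0 fun i => w (Sum.inl i)) (fun x => w (Sum.inr ())),
      fun e => e.elim, ?_, ?_, ?_⟩
    · have : (c * Bq A fun i => w (Sum.inl i)) + w (Sum.inr ()) ^ s = 0 := hw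
      simpa using this
    · simp
    · rintro (i | s)
      · simp
      · simp
  · rintro ⟨x, u, hx, -, hy⟩
    have hw : w = fun t => x (Sum.map some id t) := by
      funext t
      rw [hy]
      simp
    have h3 : (eval (x (Sum.inl none)) (C c) * Bq A fun i => x (Sum.inl (some i))) +
      x (Sum.inr ()) ^ s = 0 := hx
    rw [eval_C] at h3
    rw [hw]
    exact h3

/-- the zeros of the product -/
lemma zero_SA {A : ι → ℚ[X]} {S : ι → Set (ℕ × ℚ[X])} (hS : ∀ i, LGS (S i)) {s : ℕ}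
    (hA : ∀ i, Over (S i) s (A i)) :
    SA (closure (rl {x : ι → ℚ | Bq A x = 0})) := by
  classical
  have h1 := Var_SA (ι := ι) (Λ := Unit) (m := fun _ => 0) (s := fun _ => 1) (fun _ => one_ne_zero)
    (fun _ => Or.inr (by norm_num)) (A := fun _ j i => j.elim (A i) fun _ => 1) (by
      intro i
      refine (hS i).over ?_
      rintro ⟨_, _ | j⟩
      · exact (hA i).of_dvd (one_dvd s)
      · exact Over.one _ _)
  have h2 := SA_image (κ := Empty) h1 (fun t : ι =>
    MvPolynomial.X (Sum.inl (Sum.inl t))) 1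
  convert h2 using 3
  ext w
  constructor
  · intro hw
    refine ⟨Sum.elim w (fun x => x.2.elim0), fun e => e.elim, ?_, ?_, ?_⟩
    · intro l
      simp only [Option.elim, Sum.elim_inl, Finset.univ_eq_empty, Finset.sum_empty, add_zero]
      exact hw
    · simp
    · intro i
      simp
  · rintro ⟨x, u, hx, -, hy⟩
    have hw : w = fun t => x (Sum.inl t) := by
      funext t
      rw [hy]
      simp
    have h3 := hx ()
    simp only [Option.elim, Finset.univ_eq_empty, Finset.sum_empty, add_zero] at h3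
    rw [hw]
    exact h3

end ell

end Pool.Agent.J4H71.PC
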