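import Pool.Agent.J4H71.PC.Prin

/-!
# Locally dense power classes on the line (helper71)
-/

set_option autoImplicit false
set_option linter.unusedSectionVars false

namespace Pool.Agent.J4H71.PC

open Set Filter Topology Polynomial Pool.Agent.H581R2 Pool.Agent.TH729.SQ Pool.Agent.J4H71.SC

/-- the joint classes are dense in the components outside of finitely many points -/
def LGf {K : Type} (n : K → ℕ) (F : K → ℚ[X]) : Prop :=
  ∃ D : ℚ[X], D ≠ 0 ∧ ∀ t₀ : ℚ, D.eval t₀ ≠ 0 → ∀ s : ℝ, (∀ v ∈ uIcc (t₀ : ℝ) s, aeval v D ≠ 0) →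
    ∀ ε : ℝ, 0 < ε → ∃ t : ℚ, |(t : ℝ) - s| < ε ∧ ∀ k, PS (n k) ((F k).eval t₀) ((F k).eval t)

variable {K : Type} {n : K → ℕ} {F G : K → ℚ[X]}

/-- a polynomial vanishing on a finite set -/
lemma exists_vanish {Ξ : Set ℚ} (hΞ : Ξ.Finite) : ∃ E : ℚ[X], E ≠ 0 ∧ ∀ t ∈ Ξ, E.eval t = 0 := by
  classical
  refine ⟨∏ ξ ∈ hΞ.toFinset, (X - C ξ), Finset.prod_ne_zero_iff.2 fun ξ _ => X_sub_C_ne_zero ξ, ?_⟩
  intro t ht
  rw [eval_prod]
  exact Finset.prod_eq_zero (hΞ.mem_toFinset.2 ht) (by simp)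

lemma LGf.mk' {D : ℚ[X]} (hD : D ≠ 0) {Ξ : Set ℚ} (hΞ : Ξ.Finite)
    (h : ∀ t₀ : ℚ, t₀ ∉ Ξ → D.eval t₀ ≠ 0 → ∀ s : ℝ, (∀ v ∈ uIcc (t₀ : ℝ) s, aeval v D ≠ 0) →
      ∀ ε : ℝ, 0 < ε → ∃ t : ℚ, |(t : ℝ) - s| < ε ∧ ∀ k, PS (n k) ((F k).eval t₀) ((F k).eval t)) :
    LGf n F := by
  obtain ⟨E, hE, hEΞ⟩ := exists_vanish hΞ
  refine ⟨D * E, mul_ne_zero hD hE, fun t₀ ht₀ s hs ε hε => ?_⟩
  rw [eval_mul] at ht₀
  refine h t₀ (fun hm => ht₀ (by rw [hEΞ t₀ hm, mul_zero])) (left_ne_zero_of_mul ht₀) s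
    (fun v hv h0 => hs v hv (by rw [map_mul, h0, zero_mul])) ε hε

/-- a version with heights -/
lemma LGf.mk_ht {D : ℚ[X]} (hD : D ≠ 0) (B : ℝ)
    (h : ∀ t₀ : ℚ, B < Height.logHeight₁ t₀ → D.eval t₀ ≠ 0 → ∀ s : ℝ,
      (∀ v ∈ uIcc (t₀ : ℝ) s, aeval v D ≠ 0) →
      ∀ ε : ℝ, 0 < ε → ∃ t : ℚ, |(t : ℝ) - s| < ε ∧ ∀ k, PS (n k) ((F k).eval t₀) ((F k).eval t)) :
    LGf n F :=
  LGf.mk' hD (ht_finite B) fun t₀ ht => h t₀ (by simpa using ht)

lemma PS.smul {m : ℕ} {a b : ℚ} (h : PS m a b) (c : ℚ) : PS m (c * a) (c * b) :=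
  (PS.refl m c).mul h

lemma LGf.smul (h : LGf n F) (c : K → ℚ) : LGf n (fun k => C (c k) * F k) := by
  obtain ⟨D, hD, h⟩ := h
  refine ⟨D, hD, fun t₀ ht₀ s hs ε hε => ?_⟩
  obtain ⟨t, ht, ht'⟩ := h t₀ ht₀ s hs ε hε
  refine ⟨t, ht, fun k => ?_⟩
  simp only [eval_mul, eval_C]
  exact (ht' k).smul _

/-- the transformed polynomial -/
noncomputable def mob (α β γ δ : ℚ) (D : ℚ[X]) : ℚ[X] :=
  ∑ i ∈ Finset.range (D.natDegree + 1), C (D.coeff i) * (C α * X + C β) ^ i *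
    (C γ * X + C δ) ^ (D.natDegree - i)

lemma mob_aeval (α β γ δ : ℚ) (D : ℚ[X]) {v : ℝ} (hv : γ * v + δ ≠ 0) :
    aeval v (mob α β γ δ D) = (γ * v + δ) ^ D.natDegree * aeval ((α * v + β) / (γ * v + δ)) D := by
  rw [mob, map_sum, aeval_eq_sum_range, Finset.mul_sum]
  refine Finset.sum_congr rfl fun i hi => ?_
  have hi' : i ≤ D.natDegree := Nat.lt_succ_iff.1 (Finset.mem_range.1 hi)
  simp only [map_mul, map_pow, map_add, aeval_C, aeval_X, eq_ratCast, Algebra.smul_def]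
  obtain ⟨B, hB⟩ : ∃ B : ℝ, B = γ * v + δ := ⟨_, rfl⟩
  rw [← hB] at hv ⊢
  rw [div_pow]
  have h1 : B ^ D.natDegree = B ^ (D.natDegree - i) * B ^ i := by
    rw [← pow_add, Nat.sub_add_cancel hi']
  rw [h1]
  field_simp

lemma mob_eval (α β γ δ : ℚ) (D : ℚ[X]) {v : ℚ} (hv : γ * v + δ ≠ 0) :
    (mob α β γ δ D).eval v = (γ * v + δ) ^ D.natDegree * D.eval ((α * v + β) / (γ * v + δ)) := by
  have h1 : (γ : ℝ) * v + δ ≠ 0 := by exact_mod_cast hv
  have h2 := mob_aeval α β γ δ D h1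
  rw [aeval_cast'] at h2
  have h3 : ((α * v + β) / (γ * v + δ) : ℝ) = (((α * v + β) / (γ * v + δ) : ℚ) : ℝ) := by
    push_cast
    ring
  rw [h3, aeval_cast'] at h2
  exact_mod_cast h2

lemma mob_ne {α β γ δ : ℚ} (hdet : α * δ - β * γ ≠ 0) {D : ℚ[X]} (hD : D ≠ 0) :
    mob α β γ δ D ≠ 0 := by
  intro h0
  apply hD
  apply eq_zero_of_infinite_isRoot
  have hfin : {w : ℚ | α - γ * w = 0}.Finite := by
    refine Set.Subsingleton.finite fun w hw w' hw' => ?_
    have h1 : α - γ * w = 0 := hw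
    have h2 : α - γ * w' = 0 := hw'
    have hγ : γ ≠ 0 := by
      rintro rfl
      apply hdet
      have : α = 0 := by linear_combination h1
      rw [this]
      ring
    apply mul_left_cancel₀ hγ
    linear_combination h2 - h1
  refine Set.Infinite.mono ?_ hfin.infinite_compl
  intro w hw
  have hw' : α - γ * w ≠ 0 := hw
  set v : ℚ := (δ * w - β) / (α - γ * w) with hv
  have e : v * (α - γ * w) = δ * w - β := by
    rw [hv, div_mul_cancel₀ _ hw']
  have h1 : γ * v + δ = (α * δ - β * γ) / (α - γ * w) := by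
    rw [eq_div_iff hw']
    linear_combination γ * e
  have h2 : γ * v + δ ≠ 0 := by
    rw [h1]
    exact div_ne_zero hdet hw'
  have h3 := mob_eval α β γ δ D h2
  rw [h0, eval_zero] at h3
  have h4 : (α * v + β) / (γ * v + δ) = w := by
    rw [div_eq_iff h2]
    linear_combination e
  rw [h4] at h3
  exact (mul_eq_zero.1 h3.symm).resolve_left (pow_ne_zero _ h2)

/-- **Möbius transformations.** -/
theorem LGf.mobius (hG : LGf n G) {α β γ δ : ℚ} (hdet : α * δ - β * γ ≠ 0) (m : K → ℕ)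
    (hm : ∀ k, n k ∣ m k) (hFG : ∀ k, ∀ t : ℚ, γ * t + δ ≠ 0 → (F k).eval t =
      (γ * t + δ) ^ m k * (G k).eval ((α * t + β) / (γ * t + δ))) : LGf n F := by
  obtain ⟨D, hD, h⟩ := hG
  have hlin : (C γ * X + C δ : ℚ[X]) ≠ 0 := by
    intro h0
    apply hdet
    have h1 : γ = 0 := by
      have := congrArg (fun p : ℚ[X] => p.coeff 1) h0
      simpa using this
    have h2 : δ = 0 := by
      have := congrArg (fun p : ℚ[X] => p.coeff 0) h0
      simpa using this
    rw [h1, h2]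
    ring
  refine ⟨(C γ * X + C δ) * mob α β γ δ D, mul_ne_zero hlin (mob_ne hdet hD), ?_⟩
  intro t₀ ht₀ s hs ε hε
  rw [eval_mul] at ht₀
  have hl0 : γ * t₀ + δ ≠ 0 := by
    have := left_ne_zero_of_mul ht₀
    simpa using this
  have hD0 : D.eval ((α * t₀ + β) / (γ * t₀ + δ)) ≠ 0 := by
    have := right_ne_zero_of_mul ht₀
    rw [mob_eval _ _ _ _ _ hl0] at this
    exact right_ne_zero_of_mul this
  have hlv : ∀ v ∈ uIcc (t₀ : ℝ) s, (γ : ℝ) * v + δ ≠ 0 := by
    intro v hv h0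
    apply hs v hv
    rw [map_mul]
    simp [h0]
  have hDv : ∀ v ∈ uIcc (t₀ : ℝ) s, aeval (((α : ℝ) * v + β) / (γ * v + δ)) D ≠ 0 := by
    intro v hv h0
    apply hs v hv
    rw [map_mul, mob_aeval _ _ _ _ _ (hlv v hv), h0, mul_zero, mul_zero]
  set M : ℝ → ℝ := fun v => ((α : ℝ) * v + β) / (γ * v + δ) with hM
  have hMc : ContinuousOn M (uIcc (t₀ : ℝ) s) := by
    refine ContinuousOn.div (by fun_prop) (by fun_prop) hlv
  have hM0 : M t₀ = (((α * t₀ + β) / (γ * t₀ + δ) : ℚ) : ℝ) := by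
    rw [hM]
    push_cast
    ring
  have hseg : ∀ w ∈ uIcc ((((α * t₀ + β) / (γ * t₀ + δ) : ℚ)) : ℝ) (M s), aeval w D ≠ 0 := by
    intro w hw
    rw [← hM0] at hw
    obtain ⟨v, hv, rfl⟩ := intermediate_value_uIcc hMc hw
    exact hDv v hv
  -- the inverse transformation
  have hls := hlv s right_mem_uIcc
  have hdetR : (α : ℝ) * δ - β * γ ≠ 0 := by exact_mod_cast hdet
  have hMs : M s * (γ * s + δ) = α * s + β := by
    rw [hM]
    exact div_mul_cancel₀ _ hls
  have hinv : (α : ℝ) - γ * M s ≠ 0 := by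
    have : (α : ℝ) - γ * M s = (α * δ - β * γ) / (γ * s + δ) := by
      rw [eq_div_iff hls]
      linear_combination (-(γ : ℝ)) * hMs
    rw [this]
    exact div_ne_zero hdetR hls
  set I : ℝ → ℝ := fun w => (δ * w - β) / (α - γ * w) with hI
  have hIs : I (M s) = s := by
    rw [hI]
    simp only
    rw [div_eq_iff hinv]
    linear_combination hMs
  have hIc : ContinuousAt I (M s) := by
    refine ContinuousAt.div (by fun_prop) (by fun_prop) hinv
  have hev : ∀ᶠ w in 𝓝 (M s), (α : ℝ) - γ * w ≠ 0 ∧ |I w - s| < ε := by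
    refine Filter.Eventually.and ?_ ?_
    · have hc : ContinuousAt (fun w : ℝ => (α : ℝ) - γ * w) (M s) := by fun_prop
      exact hc.eventually_ne hinv
    · have := (Metric.tendsto_nhds.1 hIc.tendsto) ε hε
      rw [hIs] at this
      filter_upwards [this] with w hw
      rw [Real.dist_eq] at hw
      exact hw
  obtain ⟨η, hη, hη'⟩ := Metric.eventually_nhds_iff.1 hev
  obtain ⟨w, hw, hwk⟩ := h _ hD0 (M s) hseg η hη
  obtain ⟨h1, h2⟩ := hη' (y := (w : ℝ)) (by rw [Real.dist_eq]; exact hw)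
  have h1q : α - γ * w ≠ 0 := by exact_mod_cast h1
  set t : ℚ := (δ * w - β) / (α - γ * w) with ht
  have e : t * (α - γ * w) = δ * w - β := by
    rw [ht, div_mul_cancel₀ _ h1q]
  have hlt : γ * t + δ = (α * δ - β * γ) / (α - γ * w) := by
    rw [eq_div_iff h1q]
    linear_combination γ * e
  have hlt0 : γ * t + δ ≠ 0 := by
    rw [hlt]
    exact div_ne_zero hdet h1q
  have hMt : (α * t + β) / (γ * t + δ) = w := by
    rw [div_eq_iff hlt0]
    linear_combination e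
  refine ⟨t, ?_, fun k => ?_⟩
  · have : (t : ℝ) = I w := by
      rw [ht, hI]
      push_cast
      ring
    rw [this]
    exact h2
  · rw [hFG k t hlt0, hFG k t₀ hl0, hMt]
    have hp : ∀ x : ℚ, x ≠ 0 → PS (n k) 1 (x ^ m k) := by
      intro x hx
      obtain ⟨j, hj⟩ := hm k
      refine ⟨x ^ j, pow_ne_zero _ hx, ?_⟩
      rw [mul_one, ← pow_mul, hj, mul_comm]
    exact (((hp _ hl0).symm.trans (hp _ hlt0))).mul (hwk k)

/-- one function -/
lemma LGf.comp (h : LGf n F) {K' : Type} (f : K' → K) : LGf (fun k => n (f k)) (fun k => F (f k)) := by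
  obtain ⟨D, hD, h⟩ := h
  refine ⟨D, hD, fun t₀ ht₀ s hs ε hε => ?_⟩
  obtain ⟨t, ht, ht'⟩ := h t₀ ht₀ s hs ε hε
  exact ⟨t, ht, fun k => ht' (f k)⟩

/-- functions of exponent `s` generated by a family -/
def Gen {K : Type} (n : K → ℕ) (F : K → ℚ[X]) (s : ℕ) (p : ℚ[X]) : Prop :=
  ∃ (J : Type) (_ : Fintype J) (f : J → K) (e : J → ℕ) (c : ℚ) (g g₁ : ℚ[X]), g₁ ≠ 0 ∧
    (∀ j, s ∣ n (f j) * e j) ∧ p * g₁ ^ s = C c * g ^ s * ∏ j, F (f j) ^ e j

/-- **The functions generated by a family.** -/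
theorem LGf.gen (h : LGf n F) {R : Type} [Finite R] {s : R → ℕ} {p : R → ℚ[X]}
    (hp : ∀ r, Gen n F (s r) (p r)) : LGf s p := by
  classical
  have := Fintype.ofFinite R
  obtain ⟨D, hD, h⟩ := h
  choose J hJ f e c g g₁ hg₁ hdiv hpe using hp
  set E : ℚ[X] := ∏ r, (g₁ r * if g r = 0 then 1 else g r) with hE
  have hE0 : E ≠ 0 := by
    refine Finset.prod_ne_zero_iff.2 fun r _ => mul_ne_zero (hg₁ r) ?_
    split_ifs with h
    · exact one_ne_zero
    · exact h
  have hEe : ∀ t : ℚ, E.eval t ≠ 0 → ∀ r, (g₁ r).eval t ≠ 0 ∧ (g r ≠ 0 → (g r).eval t ≠ 0) := by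
    intro t ht r
    rw [hE, eval_prod, Finset.prod_ne_zero_iff] at ht
    have h1 := ht r (Finset.mem_univ r)
    rw [eval_mul] at h1
    refine ⟨left_ne_zero_of_mul h1, fun hr => ?_⟩
    have h2 := right_ne_zero_of_mul h1
    rwa [if_neg hr] at h2
  refine ⟨D * E, mul_ne_zero hD hE0, fun t₀ ht₀ x hx ε hε => ?_⟩
  rw [eval_mul] at ht₀
  -- avoid the zeros near the point
  have hEx : aeval x E ≠ 0 := by
    intro h0
    apply hx x right_mem_uIcc
    rw [map_mul, h0, mul_zero]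
  have hcont : Continuous fun y : ℝ => aeval y E := by fun_prop
  obtain ⟨η, hη, hη'⟩ := Metric.eventually_nhds_iff.1 (hcont.continuousAt.eventually_ne hEx)
  obtain ⟨t, ht, htk⟩ := h t₀ (left_ne_zero_of_mul ht₀) x
    (fun v hv h0 => hx v hv (by rw [map_mul, h0, zero_mul])) (min ε η) (lt_min hε hη)
  have hEt : E.eval t ≠ 0 := by
    have := hη' (y := (t : ℝ)) (by rw [Real.dist_eq]; exact ht.trans_le (min_le_right _ _))
    rw [aeval_cast'] at this
    exact_mod_cast this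
  refine ⟨t, ht.trans_le (min_le_left _ _), fun r => ?_⟩
  have k0 := hEe t₀ (right_ne_zero_of_mul ht₀) r
  have k1 := hEe t hEt r
  have e0 := congrArg (Polynomial.eval t₀) (hpe r)
  have e1 := congrArg (Polynomial.eval t) (hpe r)
  rw [eval_mul, eval_mul, eval_mul, eval_pow, eval_pow, eval_C, eval_prod] at e0 e1
  simp only [eval_pow] at e0 e1
  have hprod : PS (s r) (∏ j, (F (f r j)).eval t₀ ^ e r j) (∏ j, (F (f r j)).eval t ^ e r j) :=
    PS.prod _ fun j _ => (htk (f r j)).pow_div (hdiv r j)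
  have hpow : ∀ a b : ℚ, a ≠ 0 → b ≠ 0 → PS (s r) (a ^ s r) (b ^ s r) := fun a b ha hb =>
    ⟨b / a, div_ne_zero hb ha, by rw [div_pow]; field_simp⟩
  by_cases hg : g r = 0
  · -- the zero function, or exponent zero
    rw [hg, eval_zero] at e0 e1
    have h1 : PS (s r) (c r * 0 ^ s r * ∏ j, (F (f r j)).eval t₀ ^ e r j)
        (c r * 0 ^ s r * ∏ j, (F (f r j)).eval t ^ e r j) := hprod.smul _
    rw [← e0, ← e1] at h1
    have h2 := h1.mul (hpow _ _ (inv_ne_zero k0.1) (inv_ne_zero k1.1))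
    have q0 : (p r).eval t₀ * (g₁ r).eval t₀ ^ s r * ((g₁ r).eval t₀)⁻¹ ^ s r = (p r).eval t₀ := by
      rw [mul_assoc, ← mul_pow, mul_inv_cancel₀ k0.1, one_pow, mul_one]
    have q1 : (p r).eval t * (g₁ r).eval t ^ s r * ((g₁ r).eval t)⁻¹ ^ s r = (p r).eval t := by
      rw [mul_assoc, ← mul_pow, mul_inv_cancel₀ k1.1, one_pow, mul_one]
    rwa [q0, q1] at h2
  · have h1 : PS (s r) (c r * (g r).eval t₀ ^ s r * ∏ j, (F (f r j)).eval t₀ ^ e r j)
        (c r * (g r).eval t ^ s r * ∏ j, (F (f r j)).eval t ^ e r j) :=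
      ((hpow _ _ (k0.2 hg) (k1.2 hg)).smul _).mul hprod
    rw [← e0, ← e1] at h1
    have h2 := h1.mul (hpow _ _ (inv_ne_zero k0.1) (inv_ne_zero k1.1))
    have q0 : (p r).eval t₀ * (g₁ r).eval t₀ ^ s r * ((g₁ r).eval t₀)⁻¹ ^ s r = (p r).eval t₀ := by
      rw [mul_assoc, ← mul_pow, mul_inv_cancel₀ k0.1, one_pow, mul_one]
    have q1 : (p r).eval t * (g₁ r).eval t ^ s r * ((g₁ r).eval t)⁻¹ ^ s r = (p r).eval t := by
      rw [mul_assoc, ← mul_pow, mul_inv_cancel₀ k1.1, one_pow, mul_one]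
    rwa [q0, q1] at h2

lemma piece_singleton' {κ R : Type} [Finite κ] (n : R → ℕ) (h : R → MvPolynomial κ ℚ) (z : κ → ℚ) :
    Piece n h {z} {fun i => (z i : ℝ)} := by
  have h0 := SC.piece_singleton h z
  refine ⟨h0.sa, h0.sub, h0.sign, ?_⟩
  rintro z' rfl x rfl hx
  rw [nhdsWithin_singleton]
  exact hx

lemma adm_finite' {κ R : Type} [Finite κ] (n : R → ℕ) (h : R → MvPolynomial κ ℚ) {E : Set (κ → ℚ)}
    (hE : E.Finite) : Adm n h E := by
  refine ⟨E, hE.to_subtype, fun e => {e.1}, fun e => {fun i => (e.1 i : ℝ)}, ?_, fun e =>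
    piece_singleton' n h e.1⟩
  ext z
  simp

lemma Adm.union {κ R : Type} {n : R → ℕ} {h : R → MvPolynomial κ ℚ} {N N' : Set (κ → ℚ)}
    (H : Adm n h N) (H' : Adm n h N') : Adm n h (N ∪ N') := by
  obtain ⟨A, hA, P, W, hN, hP⟩ := H
  obtain ⟨A', hA', P', W', hN', hP'⟩ := H'
  refine ⟨A ⊕ A', inferInstance, Sum.elim P P', Sum.elim W W', ?_, ?_⟩
  · rw [hN, hN', iUnion_sumElim]
  · rintro (α | α)
    · exact hP α
    · exact hP' α

lemma Piece.adm {κ R : Type} {n : R → ℕ} {h : R → MvPolynomial κ ℚ} {N : Set (κ → ℚ)}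
    {W : Set (κ → ℝ)} (H : Piece n h N W) : Adm n h N :=
  ⟨Unit, inferInstance, fun _ => N, fun _ => W, (Set.iUnion_const N).symm, fun _ => H⟩

/-- **Lines are admissible.** -/
theorem LGf.adm {R : Type} [Finite R] {s : R → ℕ} {p : R → ℚ[X]} (h : LGf s p) :
    Adm s (fun r => one (p r)) univ := by
  classical
  have := Fintype.ofFinite R
  obtain ⟨D, hD, h⟩ := h
  set Φ : ℚ[X] := D * ∏ r, if p r = 0 then 1 else p r with hΦ
  have hΦ0 : Φ ≠ 0 := by
    refine mul_ne_zero hD (Finset.prod_ne_zero_iff.2 fun r _ => ?_)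
    split_ifs with h
    · exact one_ne_zero
    · exact h
  have hΦD : ∀ x : ℝ, aeval x Φ ≠ 0 → aeval x D ≠ 0 := by
    intro x hx h0
    apply hx
    rw [hΦ, map_mul, h0, zero_mul]
  have hΦr : ∀ x : ℝ, aeval x Φ ≠ 0 → ∀ r, p r ≠ 0 → aeval x (p r) ≠ 0 := by
    intro x hx r hr h0
    apply hx
    rw [hΦ, map_mul, map_prod, Finset.prod_eq_zero (Finset.mem_univ r), mul_zero]
    rw [if_neg hr, h0]
  set E : Set ℚ := {t | Φ.eval t = 0} with hE
  have hEf : E.Finite := by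
    exact (Φ.roots.toFinset.finite_toSet).subset fun t ht => by
      rw [Finset.mem_coe, Multiset.mem_toFinset, mem_roots hΦ0]
      exact ht
  set N : Set (Fin 1 → ℚ) := {z | z 0 ∉ E} with hN
  set W : Set (Fin 1 → ℝ) := {x | aeval (x 0) Φ ≠ 0} with hW
  have hcastne : ∀ t : ℚ, t ∉ E → aeval (t : ℝ) Φ ≠ 0 := by
    intro t ht h0
    apply ht
    rw [aeval_cast'] at h0
    exact_mod_cast h0
  have hpiece : Piece s (fun r => one (p r)) N W := by
    refine ⟨?_, ?_, ?_, ?_⟩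
    · refine SAP.not (SAP.eq_zero ⟨one Φ, fun x => ?_⟩)
      rw [one_aeval]
    · intro z hz
      exact hcastne _ hz
    · intro r
      by_cases hr : p r = 0
      · right
        intro x _
        rw [one_aeval, hr, map_zero]
      · left
        intro x hx
        rw [one_aeval]
        exact hΦr _ hx r hr
    · intro z hz x hx hxc
      refine mem_nhdsWithin_of_mem_nhds ?_
      -- an interval without zeros
      have hcont : Continuous fun y : ℝ => aeval y Φ := by fun_prop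
      obtain ⟨δ, hδ, hδ'⟩ : ∃ δ : ℝ, 0 < δ ∧ ∀ y : ℝ, |y - x 0| < δ → aeval y Φ ≠ 0 := by
        have := hcont.continuousAt.eventually_ne (show aeval (x 0) Φ ≠ 0 from hx)
        rw [Metric.eventually_nhds_iff] at this
        obtain ⟨δ, hδ, h⟩ := this
        exact ⟨δ, hδ, fun y hy => h (by rw [Real.dist_eq]; exact hy)⟩
      -- a point of the class in the interval
      obtain ⟨_, ⟨z₁, hz₁, rfl⟩, hd1⟩ := Metric.mem_closure_iff.1 hxc δ hδ
      have hz1 : |(z₁ 0 : ℝ) - x 0| < δ := by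
        have := (dist_pi_lt_iff hδ).1 hd1 0
        rw [Real.dist_eq, abs_sub_comm] at this
        exact this
      -- the whole interval is in the closure
      have hopen : IsOpen {y : Fin 1 → ℝ | |y 0 - x 0| < δ} :=
        isOpen_lt (by fun_prop) continuous_const
      filter_upwards [hopen.mem_nhds (show x ∈ {y : Fin 1 → ℝ | |y 0 - x 0| < δ} by simpa using hδ)]
        with y hy
      rw [Metric.mem_closure_iff]
      intro ε hε
      have hy' : |y 0 - x 0| < δ := hy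
      obtain ⟨t, ht1, ht2⟩ := h (z₁ 0) (by
          have := hΦD _ (hcastne _ hz₁.1)
          rw [aeval_cast'] at this
          exact_mod_cast this) (y 0) (by
          intro v hv
          apply hΦD
          apply hδ'
          have h1 : v ∈ Metric.ball (x 0) δ := by
            refine (convex_ball (x 0) δ).ordConnected.uIcc_subset ?_ ?_ hv
            · rw [Metric.mem_ball, Real.dist_eq]; exact hz1
            · rw [Metric.mem_ball, Real.dist_eq]; exact hy'
          rw [Metric.mem_ball, Real.dist_eq] at h1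
          exact h1) (min ε (δ - |y 0 - x 0|)) (lt_min hε (by linarith))
      have htδ : |(t : ℝ) - x 0| < δ := by
        have h1 := abs_sub_le (t : ℝ) (y 0) (x 0)
        have h2 := ht1.trans_le (min_le_right _ _)
        linarith
      have htΦ := hδ' _ htδ
      have htE : t ∉ E := by
        intro h
        apply htΦ
        rw [aeval_cast']
        have : Φ.eval t = 0 := h
        rw [this]
        norm_num
      refine ⟨fun i => (((fun _ => t : Fin 1 → ℚ) i : ℚ) : ℝ), mem_rl ⟨htE, fun r => ?_⟩, ?_⟩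
      · refine (hz₁.2 r).trans ?_
        rw [one_eval, one_eval]
        exact ht2 r
      · rw [dist_pi_lt_iff hε]
        intro i
        rw [Subsingleton.elim i 0, Real.dist_eq, abs_sub_comm]
        exact ht1.trans_le (min_le_left _ _)
  have huniv : (univ : Set (Fin 1 → ℚ)) = N ∪ {z | z 0 ∈ E} := by
    ext z
    simp only [mem_univ, mem_union, true_iff]
    exact (em (z 0 ∈ E)).symm
  rw [huniv]
  refine hpiece.adm.union (adm_finite' _ _ ?_)
  refine Set.Finite.of_finite_image (f := fun z : Fin 1 → ℚ => z 0) (hEf.subset ?_) ?_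
  · rintro _ ⟨z, hz, rfl⟩
    exact hz
  · intro z _ z' _ h
    funext i
    rw [Subsingleton.elim i 0]
    exact h

end Pool.Agent.J4H71.PC
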