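import Pool.Agent.Y720.MZ.Quar
import Pool.Agent.J4H71.PC.Ht

/-!
# Points of infinite order on the quartic and sextic twists (helper71)
-/

set_option autoImplicit false
set_option linter.unusedSectionVars false

namespace Pool.Agent.J4H71.PC

open Polynomial Height Pool.Agent.Y720.MZ

/-- a criterion for infinite order -/
theorem nontors {a b c : ℚ} {B : ℝ} (τ : ℚ → ℚ → ℚ)
    (step : ∀ (x y : ℚ) (h : (cv a b c).toAffine.Nonsingular x y), B < logHeight₁ (τ x y) →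
      ∃ x' y' h', (.some x y h : Pt a b c) + .some x y h = .some x' y' h' ∧
        logHeight₁ (τ x y) < logHeight₁ (τ x' y'))
    {x y : ℚ} (h : (cv a b c).toAffine.Nonsingular x y) (hB : B < logHeight₁ (τ x y))
    {n : ℕ} (hn : n ≠ 0) : n • (.some x y h : Pt a b c) ≠ 0 := by
  intro h0
  set P : Pt a b c := .some x y h with hP
  have hfin : (Set.range fun m : ℕ => m • P).Finite := by
    refine ((Finset.range n).finite_toSet.image fun m : ℕ => m • P).subset ?_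
    rintro _ ⟨m, rfl⟩
    refine ⟨m % n, ?_, ?_⟩
    · rw [Finset.coe_range]
      exact Nat.mod_lt _ (Nat.pos_of_ne_zero hn)
    · change (m % n) • P = m • P
      conv_rhs => rw [← Nat.mod_add_div m n, add_smul, mul_comm n, mul_smul, h0, smul_zero,
        add_zero]
  let f : Pt a b c → ℝ := fun Q => match Q with
    | .zero => 0
    | .some x y _ => logHeight₁ (τ x y)
  set S : Set (Pt a b c) := {Q | (∃ m : ℕ, m • P = Q) ∧ ∃ x y h, Q = .some x y h ∧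
    B < logHeight₁ (τ x y)} with hS
  have hSf : S.Finite := hfin.subset fun Q hQ => hQ.1
  obtain ⟨Q, hQ, hmax⟩ := Set.exists_max_image S f hSf ⟨P, ⟨1, one_smul _ _⟩, x, y, h, rfl, hB⟩
  obtain ⟨⟨m, hm⟩, x₁, y₁, h₁, rfl, hB₁⟩ := hQ
  obtain ⟨x₂, y₂, h₂, e, hlt⟩ := step x₁ y₁ h₁ hB₁
  have := hmax (.some x₂ y₂ h₂) ⟨⟨m + m, by rw [add_smul, hm, e]⟩, x₂, y₂, h₂, rfl, hB₁.trans hlt⟩
  exact absurd this (not_le.2 hlt)

lemma cop_C {c : ℚ} (hc : c ≠ 0) (P : ℚ[X]) : IsCoprime P (C c) :=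
  ⟨0, C c⁻¹, by rw [zero_mul, zero_add, ← C_mul, inv_mul_cancel₀ hc, C_1]⟩

lemma cop4 : IsCoprime ((X - 1 : ℚ[X]) ^ 4) (C 16 * X * (X + 1) ^ 2) := by
  refine IsCoprime.pow_left ?_
  refine IsCoprime.mul_right (IsCoprime.mul_right ?_ ?_) (IsCoprime.pow_right ?_)
  · exact cop_C (by norm_num) _
  · exact ⟨-1, 1, by ring⟩
  · have h2 : (C (1 / 2) : ℚ[X]) * C 2 = 1 := by
      rw [← C_mul]
      norm_num
    have h3 : (C 2 : ℚ[X]) = 2 := rfl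
    refine ⟨-C (1 / 2), C (1 / 2), ?_⟩
    rw [h3] at h2
    linear_combination h2

/-- **Quartic twists.** -/
theorem tors4 : ∃ B : ℝ, 0 ≤ B ∧ ∀ (k σ a b c : ℚ), k ≠ 0 → a = 3 * σ → b = 3 * σ ^ 2 + k →
    c = σ ^ 3 + k * σ → ∀ (x y : ℚ) (h : (cv a b c).toAffine.Nonsingular x y),
      B < logHeight₁ ((x + σ) ^ 2 / k) → ∀ n : ℕ, n ≠ 0 → n • (.some x y h : Pt a b c) ≠ 0 := by
  have hdeg : ((X - 1 : ℚ[X]) ^ 4).natDegree = 4 := by
    compute_degree!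
  obtain ⟨B, hB, h⟩ := ht_grow cop4 (by rw [hdeg]; omega)
  refine ⟨B, hB, ?_⟩
  intro k σ a b c hk ha hb hc x y hns hx n hn
  refine nontors (B := B) (fun x _ => (x + σ) ^ 2 / k) ?_ hns hx hn
  clear hx hns
  intro x y hns hx
  subst ha hb hc
  have heq := (cv_ns.1 hns).1
  obtain ⟨X, hX⟩ : ∃ X, X = x + σ := ⟨_, rfl⟩
  obtain ⟨τ, hτ⟩ : ∃ τ, τ = X ^ 2 / k := ⟨_, rfl⟩
  rw [← hX, ← hτ] at hx ⊢
  obtain ⟨h1, h2⟩ := h τ hx
  simp only [eval_mul, eval_pow, eval_sub, eval_add, eval_X, eval_one, eval_C] at h1 h2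
  have hτ0 : τ ≠ 0 := fun h0 => h1 (by rw [h0]; ring)
  have hτ1 : τ + 1 ≠ 0 := fun h0 => h1 (by rw [h0]; ring)
  have hτk : X ^ 2 = τ * k := by rw [hτ]; field_simp
  have hy2 : y ^ 2 = X * (k * (τ + 1)) := by
    rw [heq]
    have hx' : x = X - σ := by rw [hX]; ring
    rw [hx']
    linear_combination X * hτk
  have hX0 : X ≠ 0 := by
    intro h0
    rw [h0] at hτ
    exact hτ0 (by rw [hτ]; ring)
  have hy : y ≠ 0 := by
    rintro rfl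
    have : X * (k * (τ + 1)) = 0 := by rw [← hy2]; ring
    exact mul_ne_zero hX0 (mul_ne_zero hk hτ1) this
  obtain ⟨h', e⟩ := dbl_mk hns (mul_ne_zero two_ne_zero hy)
    (ℓ := (3 * x ^ 2 + 2 * (3 * σ) * x + (3 * σ ^ 2 + k)) / (2 * y))
    (div_mul_cancel₀ _ (mul_ne_zero two_ne_zero hy))
  refine ⟨_, _, h', e, ?_⟩
  refine h2.trans_eq ?_
  congr 1
  have hx' : ((3 * x ^ 2 + 2 * (3 * σ) * x + (3 * σ ^ 2 + k)) / (2 * y)) ^ 2 - 3 * σ - x - x + σ =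
      (k * (τ - 1)) ^ 2 / (4 * y ^ 2) := by
    have e1 : 3 * x ^ 2 + 2 * (3 * σ) * x + (3 * σ ^ 2 + k) = 3 * (τ * k) + k := by
      rw [← hτk, hX]; ring
    have e2 : ((3 * (τ * k) + k) / (2 * y)) ^ 2 - 3 * σ - x - x + σ =
      ((3 * (τ * k) + k) / (2 * y)) ^ 2 - 2 * X := by rw [hX]; ring
    rw [e1, e2]
    have hy4 : (4 : ℚ) * y ^ 2 ≠ 0 := by positivity
    rw [eq_div_iff hy4]
    have e3 : (((3 * (τ * k) + k) / (2 * y)) ^ 2 - 2 * X) * (4 * y ^ 2) =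
      (3 * (τ * k) + k) ^ 2 - 8 * X * y ^ 2 := by field_simp; ring
    rw [e3, hy2]
    linear_combination (-8 * (k * (τ + 1))) * hτk
  rw [hx', div_pow, div_div]
  have e4 : (4 * y ^ 2) ^ 2 * k = k ^ 4 * (16 * τ * (τ + 1) ^ 2) := by
    rw [hy2]
    linear_combination (16 * k * (k * (τ + 1)) ^ 2) * hτk
  rw [e4, show ((k * (τ - 1)) ^ 2) ^ 2 = k ^ 4 * (τ - 1) ^ 4 by ring,
    mul_div_mul_left _ _ (pow_ne_zero 4 hk)]

lemma cop6 : IsCoprime (X * (C 9 * X - C 8) ^ 3 : ℚ[X]) ((C 27 * X ^ 2 - C 36 * X + C 8) ^ 2) := by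
  refine IsCoprime.pow_right (IsCoprime.mul_left ?_ (IsCoprime.pow_left ?_))
  · have h2 : (C (1 / 8) : ℚ[X]) * C 8 = 1 := by
      rw [← C_mul]
      norm_num
    exact ⟨-C (1 / 8) * (C 27 * X - C 36), C (1 / 8), by linear_combination h2⟩
  · -- the value of the quadratic polynomial at `8 / 9` is `- 8 / 3`
    have h2 : (C (-3 / 8) : ℚ[X]) * C (-8 / 3) = 1 := by
      rw [← C_mul]
      norm_num
    have h3 : (C 27 * X ^ 2 - C 36 * X + C 8 : ℚ[X]) = (C 9 * X - C 8) * (C 3 * X - C (4 / 3)) +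
      C (-8 / 3) := by
      have e1 : (C 27 : ℚ[X]) = C 9 * C 3 := by rw [← C_mul]; norm_num
      have e2 : (C 36 : ℚ[X]) = C 9 * C (4 / 3) + C 8 * C 3 := by rw [← C_mul, ← C_mul, ← C_add]; norm_num
      have e3 : (C 8 : ℚ[X]) = C 8 * C (4 / 3) + C (-8 / 3) := by rw [← C_mul, ← C_add]; norm_num
      rw [e1, e2]
      nth_rewrite 2 [e3]
      ring
    rw [h3]
    exact ⟨-C (-3 / 8) * (C 3 * X - C (4 / 3)), C (-3 / 8), by linear_combination h2⟩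

/-- **Sextic twists.** -/
theorem tors6 : ∃ B : ℝ, 0 ≤ B ∧ ∀ (k : ℚ), k ≠ 0 →
    ∀ (x y : ℚ) (h : (cv 0 0 k).toAffine.Nonsingular x y),
      B < logHeight₁ (x ^ 3 / y ^ 2) → ∀ n : ℕ, n ≠ 0 → n • (.some x y h : Pt 0 0 k) ≠ 0 := by
  have hdeg : (X * (C 9 * X - C 8) ^ 3 : ℚ[X]).natDegree = 4 := by
    compute_degree!
  obtain ⟨B, hB, h⟩ := ht_grow cop6 (by rw [hdeg]; omega)
  refine ⟨B, hB, ?_⟩
  intro k hk x y hns hx n hn
  refine nontors (B := B) (fun x y => x ^ 3 / y ^ 2) ?_ hns hx hn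
  clear hx hns
  intro x y hns hx
  have heq := (cv_ns.1 hns).1
  obtain ⟨τ, hτ⟩ : ∃ τ, τ = x ^ 3 / y ^ 2 := ⟨_, rfl⟩
  rw [← hτ] at hx ⊢
  obtain ⟨h1, h2⟩ := h τ hx
  simp only [eval_mul, eval_pow, eval_sub, eval_add, eval_X, eval_C] at h1 h2
  have hy : y ≠ 0 := by
    rintro rfl
    rw [hτ, zero_pow two_ne_zero, div_zero, logHeight₁_zero] at hx
    linarith
  have hx3 : x ^ 3 = τ * y ^ 2 := by rw [hτ]; field_simp
  obtain ⟨h', e⟩ := dbl_mk hns (mul_ne_zero two_ne_zero hy)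
    (ℓ := (3 * x ^ 2 + 2 * 0 * x + 0) / (2 * y))
    (div_mul_cancel₀ _ (mul_ne_zero two_ne_zero hy))
  refine ⟨_, _, h', e, ?_⟩
  refine h2.trans_eq ?_
  congr 1
  have hx' : ((3 * x ^ 2 + 2 * 0 * x + 0) / (2 * y)) ^ 2 - 0 - x - x = x * (9 * τ - 8) / 4 := by
    have e3 : ((3 * x ^ 2 + 2 * 0 * x + 0) / (2 * y)) ^ 2 - 0 - x - x =
      (9 * (x * x ^ 3) - 8 * x * y ^ 2) / (4 * y ^ 2) := by field_simp; ring
    rw [e3, hx3]
    field_simp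
  have hy' : -((3 * x ^ 2 + 2 * 0 * x + 0) / (2 * y) * (((3 * x ^ 2 + 2 * 0 * x + 0) / (2 * y)) ^ 2 -
      0 - x - x - x) + y) = -(y * (27 * τ ^ 2 - 36 * τ + 8) / 8) := by
    rw [hx']
    have e3 : -((3 * x ^ 2 + 2 * 0 * x + 0) / (2 * y) * (x * (9 * τ - 8) / 4 - x) + y) =
      -((3 * x ^ 3 * (9 * τ - 12) + 8 * y ^ 2) / (8 * y)) := by field_simp; ring
    rw [e3, hx3]
    field_simp
    ring
  rw [hy', hx']
  have h3 : (27 * τ ^ 2 - 36 * τ + 8) ^ 2 ≠ 0 := h1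
  have h4 : (27 * τ ^ 2 - 36 * τ + 8) ≠ 0 := fun h0 => h3 (by rw [h0]; ring)
  have e5 : (x * (9 * τ - 8) / 4) ^ 3 = τ * y ^ 2 * (9 * τ - 8) ^ 3 / 64 := by
    rw [← hx3]; ring
  rw [e5]
  have h5 : (-(y * (27 * τ ^ 2 - 36 * τ + 8) / 8)) ^ 2 ≠ 0 := by
    exact pow_ne_zero 2 (neg_ne_zero.2 (div_ne_zero (mul_ne_zero hy h4) (by norm_num)))
  rw [div_eq_div_iff h3 h5]
  ring

end Pool.Agent.J4H71.PC
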