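import Pool.Agent.J4H71.PC.LG
import Pool.Agent.J4H71.PC.CubB

/-!
# The types of lines: exponents `n` with two branch points, `2` and `3` (helper71)
-/

set_option autoImplicit false
set_option linter.unusedSectionVars false

namespace Pool.Agent.J4H71.PC

open Set Filter Topology Polynomial Pool.Agent.H581R2 Pool.Agent.TH729.SQ Pool.Agent.J4H71.SC

/-- no zeros on a segment -/
lemma seg_pos {f : ℝ → ℝ} {a b : ℝ} (hf : ContinuousOn f (uIcc a b)) (h : ∀ v ∈ uIcc a b, f v ≠ 0) :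
    0 < f a * f b := by
  by_contra hcon
  push Not at hcon
  have h0 : (0 : ℝ) ∈ uIcc (f a) (f b) := by
    rw [mem_uIcc]
    rcases le_total (f a) 0 with h1 | h1
    · rcases le_total 0 (f b) with h2 | h2
      · exact Or.inl ⟨h1, h2⟩
      · have h3 : f a < 0 := lt_of_le_of_ne h1 (h a left_mem_uIcc)
        have h4 : f b < 0 := lt_of_le_of_ne h2 (h b right_mem_uIcc)
        nlinarith
    · rcases le_total 0 (f b) with h2 | h2
      · have h3 : 0 < f a := lt_of_le_of_ne h1 (h a left_mem_uIcc).symm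
        have h4 : 0 < f b := lt_of_le_of_ne h2 (h b right_mem_uIcc).symm
        nlinarith
      · exact Or.inr ⟨h2, h1⟩
  obtain ⟨v, hv, hv0⟩ := intermediate_value_uIcc hf h0
  exact h v hv hv0

lemma exists_root {x : ℝ} (hx : 0 < x) {n : ℕ} (hn : n ≠ 0) : ∃ y : ℝ, 0 < y ∧ y ^ n = x := by
  refine ⟨x ^ ((n : ℝ)⁻¹), Real.rpow_pos_of_pos hx _, ?_⟩
  exact Real.rpow_inv_natCast_pow hx.le hn

/-- rational numbers near a positive real number -/
lemma exists_rat_near (y : ℝ) {ε : ℝ} (hε : 0 < ε) : ∃ r : ℚ, |(r : ℝ) - y| < ε := by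
  obtain ⟨r, h1, h2⟩ := exists_rat_btwn (show y - ε < y by linarith)
  exact ⟨r, by rw [abs_lt]; constructor <;> linarith⟩

/-- **Two branch points, arbitrary exponent.** -/
theorem lg_zero {m : ℕ} (hm : m ≠ 0) : LGf (fun _ : Unit => m) (fun _ => (X : ℚ[X])) := by
  refine ⟨X, X_ne_zero, fun t₀ ht₀ s hs ε hε => ?_⟩
  rw [eval_X] at ht₀
  have hpos : 0 < (t₀ : ℝ) * s := by
    have := seg_pos (f := fun v : ℝ => v) (a := t₀) (b := s) continuousOn_id fun v hv => by
      have := hs v hv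
      simpa using this
    exact this
  have ht₀R : (t₀ : ℝ) ≠ 0 := by exact_mod_cast ht₀
  have hq : 0 < s / t₀ := by
    have : s / t₀ = (t₀ * s) / (t₀ ^ 2 : ℝ) := by field_simp
    rw [this]
    positivity
  obtain ⟨ρ, hρ, hρm⟩ := exists_root hq hm
  have hc : ContinuousAt (fun r : ℝ => r ^ m * t₀) ρ := by fun_prop
  have he : ρ ^ m * t₀ = s := by rw [hρm]; field_simp
  obtain ⟨η, hη, hη'⟩ := Metric.continuousAt_iff.1 hc ε hε
  obtain ⟨r, hr⟩ := exists_rat_near ρ (lt_min hη hρ)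
  have h1 := hη' (x := (r : ℝ)) (by rw [Real.dist_eq]; exact hr.trans_le (min_le_left _ _))
  rw [he, Real.dist_eq] at h1
  have hr0 : r ≠ 0 := by
    rintro rfl
    have := hr.trans_le (min_le_right _ _)
    rw [Rat.cast_zero, zero_sub, abs_neg, abs_of_pos hρ] at this
    exact lt_irrefl _ this
  refine ⟨r ^ m * t₀, by push_cast; exact h1, fun _ => ⟨r, hr0, ?_⟩⟩
  simp

/-- **Exponent two.** -/
theorem lg_two {F : ℚ[X]} (hF : F.Separable) (hd : F.natDegree ≤ 4) {K : Type} [Finite K]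
    {p : K → ℚ[X]} (hp : ∀ k, Adapted F (p k)) : LGf (fun _ => 2) p := by
  classical
  have := Fintype.ofFinite K
  obtain ⟨G, hG, hG3, hG4, hGp⟩ := exists_sep hF hd
  obtain ⟨T, hT, hfine⟩ := line_fine hG hG3 hG4
  set Φ : ℚ[X] := G * ∏ k, if p k = 0 then 1 else p k with hΦ
  have hΦ0 : Φ ≠ 0 := by
    refine mul_ne_zero hG.ne_zero (Finset.prod_ne_zero_iff.2 fun r _ => ?_)
    split_ifs with h
    · exact one_ne_zero
    · exact h
  have hΦr : ∀ t : ℚ, Φ.eval t ≠ 0 → ∀ r, p r ≠ 0 → (p r).eval t ≠ 0 := by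
    intro x hx r hr h0
    apply hx
    rw [hΦ, eval_mul, eval_prod, Finset.prod_eq_zero (Finset.mem_univ r), mul_zero]
    rw [if_neg hr, h0]
  refine LGf.mk' hΦ0 hT fun t₀ ht₀ hΦt₀ s hs ε hε => ?_
  obtain ⟨-, h⟩ := hfine t₀ ht₀
  have hcont : Continuous fun y : ℝ => aeval y Φ := by fun_prop
  obtain ⟨η, hη, hη'⟩ := Metric.eventually_nhds_iff.1
    (hcont.continuousAt.eventually_ne (hs s right_mem_uIcc))
  obtain ⟨t, ht, -, htp⟩ := h s (by
    intro u hu0 hu1
    have hmem : (t₀ : ℝ) + u * (s - t₀) ∈ uIcc (t₀ : ℝ) s := by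
      have := (segment_eq_uIcc (t₀ : ℝ) s).symm ▸ (show (t₀ : ℝ) + u * (s - t₀) ∈ segment ℝ (t₀ : ℝ) s by
        rw [segment_eq_image']
        exact ⟨u, ⟨hu0, hu1⟩, rfl⟩)
      exact this
    intro h0
    apply hs _ hmem
    rw [hΦ, map_mul, h0, zero_mul]) (min ε η) (lt_min hε hη)
  have hΦt : Φ.eval t ≠ 0 := by
    have := hη' (y := (t : ℝ)) (by rw [Real.dist_eq]; exact ht.trans_le (min_le_right _ _))
    rw [aeval_cast'] at this
    exact_mod_cast this
  refine ⟨t, ht.trans_le (min_le_left _ _), fun k => ?_⟩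
  by_cases hk : p k = 0
  · rw [hk, eval_zero, eval_zero]
    exact PS.refl _ _
  · exact htp _ (hGp _ (hp k)) (hΦr _ hΦt₀ k hk) (hΦr _ hΦt k hk)

lemma cf_eval (p q t : ℚ) : (cf p q).eval t = t ^ 3 + p * t + q := by
  simp [cf]

lemma cf_ne_zero (p q : ℚ) : cf p q ≠ 0 := by
  intro h0
  have : (cf p q).coeff 3 = 1 := by
    simp [cf]
  rw [h0, coeff_zero] at this
  exact zero_ne_one this

/-- **Exponent three, the normal form.** -/
theorem lg_three {p q : ℚ} (hD : 4 * p ^ 3 + 27 * q ^ 2 ≠ 0) :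
    LGf (fun _ : Unit => 3) (fun _ => cf p q) := by
  obtain ⟨B, hB⟩ := inf3 hD
  refine LGf.mk_ht (cf_ne_zero p q) B fun t₀ ht₀ _ s hs ε hε => ?_
  obtain ⟨h0, hinf⟩ := hB t₀ ht₀
  set c := (cf p q).eval t₀ with hc
  have hS : (S3 p q c).Infinite := by
    refine hinf.mono ?_
    rintro t ⟨r, hr, h1⟩
    refine ⟨r, ?_⟩
    rw [← cf_eval, h1]
    ring
  have hcl := S3_comp hD h0 hS (t₀ := t₀) ⟨1, by rw [← cf_eval, ← hc]; ring⟩ (s := s) (by
    intro u hu0 hu1
    have hmem : (t₀ : ℝ) + u * (s - t₀) ∈ uIcc (t₀ : ℝ) s := by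
      have := (segment_eq_uIcc (t₀ : ℝ) s).symm ▸ (show (t₀ : ℝ) + u * (s - t₀) ∈ segment ℝ (t₀ : ℝ) s by
        rw [segment_eq_image']
        exact ⟨u, ⟨hu0, hu1⟩, rfl⟩)
      exact this
    have := hs _ hmem
    simpa [cf] using this)
  have hcont : Continuous fun y : ℝ => aeval y (cf p q) := by fun_prop
  obtain ⟨η, hη, hη'⟩ := Metric.eventually_nhds_iff.1
    (hcont.continuousAt.eventually_ne (hs s right_mem_uIcc))
  obtain ⟨_, ⟨t, ⟨y, hy⟩, rfl⟩, hd⟩ := Metric.mem_closure_iff.1 hcl (min ε η) (lt_min hε hη)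
  rw [Real.dist_eq, abs_sub_comm] at hd
  refine ⟨t, hd.trans_le (min_le_left _ _), fun _ => ⟨y, ?_, ?_⟩⟩
  · rintro rfl
    have h1 := hη' (y := (t : ℝ)) (by rw [Real.dist_eq]; exact hd.trans_le (min_le_right _ _))
    rw [aeval_cast'] at h1
    apply h1
    rw [cf_eval, hy]
    norm_num
  · rw [cf_eval, hy]
    ring

/-- separable polynomials have no common root with the derivative -/
lemma sep_root {F : ℚ[X]} (hF : F.Separable) {r : ℚ} (h : F.eval r = 0) : F.derivative.eval r ≠ 0 := by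
  intro h0
  obtain ⟨u, v, huv⟩ := hF
  have := congrArg (Polynomial.eval r) huv
  rw [eval_add, eval_mul, eval_mul, h, h0, mul_zero, mul_zero, add_zero, eval_one] at this
  exact zero_ne_one this

/-- cubic polynomials with nonzero discriminant -/
lemma lg_cubic {c₀ c₁ c₂ c₃ : ℚ} (h3 : c₃ ≠ 0)
    (hsep : ∀ r : ℚ, c₀ + c₁ * r + c₂ * r ^ 2 + c₃ * r ^ 3 = 0 → c₁ + 2 * c₂ * r + 3 * c₃ * r ^ 2 ≠ 0)
    {F : ℚ[X]} (hF : ∀ t, F.eval t = c₀ + c₁ * t + c₂ * t ^ 2 + c₃ * t ^ 3) :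
    LGf (fun _ : Unit => 3) (fun _ => F) := by
  obtain ⟨h, hh⟩ : ∃ h : ℚ, c₂ = 3 * h * c₃ := ⟨c₂ / (3 * c₃), by field_simp⟩
  obtain ⟨p, hp⟩ : ∃ p : ℚ, c₁ = c₃ * (3 * h ^ 2 + p) := ⟨c₁ / c₃ - 3 * h ^ 2, by field_simp; ring⟩
  obtain ⟨q, hq⟩ : ∃ q : ℚ, c₀ = c₃ * (h ^ 3 + p * h + q) :=
    ⟨c₀ / c₃ - h ^ 3 - p * h, by field_simp; ring⟩
  subst hh hp hq
  have hD : 4 * p ^ 3 + 27 * q ^ 2 ≠ 0 := by
    intro h0
    have hex : ∃ r : ℚ, r ^ 3 + p * r + q = 0 ∧ 3 * r ^ 2 + p = 0 := by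
      by_cases hp0 : p = 0
      · have hq0 : q = 0 := by
          rw [hp0] at h0
          have : q ^ 2 = 0 := by linear_combination h0 / 27
          exact pow_eq_zero_iff two_ne_zero |>.1 this
        exact ⟨0, by rw [hp0, hq0]; ring, by rw [hp0]; ring⟩
      · refine ⟨-3 * q / (2 * p), ?_, ?_⟩
        · have e : (-3 * q / (2 * p)) ^ 3 + p * (-3 * q / (2 * p)) + q =
              -(q / (8 * p ^ 3)) * (4 * p ^ 3 + 27 * q ^ 2) := by
            field_simp
            ring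
          rw [e, h0, mul_zero]
        · have e : 3 * (-3 * q / (2 * p)) ^ 2 + p = (1 / (4 * p ^ 2)) * (4 * p ^ 3 + 27 * q ^ 2) := by
            field_simp
            ring
          rw [e, h0, mul_zero]
    obtain ⟨r, hr1, hr2⟩ := hex
    refine hsep (r - h) ?_ ?_
    · linear_combination c₃ * hr1
    · linear_combination c₃ * hr2
  have h1 := (lg_three hD).smul fun _ => c₃
  refine h1.mobius (α := 1) (β := h) (γ := 0) (δ := 1) (by norm_num) (fun _ => 0)
    (fun _ => dvd_zero _) ?_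
  intro _ t _
  rw [hF, eval_mul, eval_C, cf_eval]
  ring

/-- **Exponent three.** -/
theorem lg_three' {F : ℚ[X]} (hF : F.Separable) (hd : F.natDegree = 2 ∨ F.natDegree = 3) :
    LGf (fun _ : Unit => 3) (fun _ => F) := by
  have hd4 : F.natDegree < 4 := by omega
  have hFe : ∀ t, F.eval t = F.coeff 0 + F.coeff 1 * t + F.coeff 2 * t ^ 2 + F.coeff 3 * t ^ 3 := by
    intro t
    rw [eval_eq_sum_range' hd4]
    simp only [Finset.sum_range_succ, Finset.sum_range_zero]
    ring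
  have hFd : ∀ t, F.derivative.eval t = F.coeff 1 + 2 * F.coeff 2 * t + 3 * F.coeff 3 * t ^ 2 := by
    intro t
    have h1 : F = C (F.coeff 0) + C (F.coeff 1) * X + C (F.coeff 2) * X ^ 2 + C (F.coeff 3) * X ^ 3 := by
      apply Polynomial.funext
      intro r
      rw [hFe]
      simp
    conv_lhs => rw [h1]
    simp only [derivative_add, derivative_C_mul, derivative_C, derivative_X,
      derivative_X_pow, eval_add, eval_mul, eval_C, eval_pow, eval_X, eval_one, eval_zero]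
    push_cast
    ring
  rcases hd with hd | hd
  · -- a quadratic polynomial
    have h3 : F.coeff 3 = 0 := coeff_eq_zero_of_natDegree_lt (by omega)
    have hq2 : F.coeff 2 ≠ 0 := by
      have : F.leadingCoeff ≠ 0 := leadingCoeff_ne_zero.2 hF.ne_zero
      rw [leadingCoeff, hd] at this
      exact this
    rw [h3] at hFe hFd
    set q₀ := F.coeff 0
    set q₁ := F.coeff 1
    set q₂ := F.coeff 2
    obtain ⟨τ, hτ⟩ : ∃ d : ℚ, F.eval d ≠ 0 := by
      by_contra hcon
      push Not at hcon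
      exact hF.ne_zero (Polynomial.funext fun r => by rw [hcon, eval_zero])
    have hdisc : q₁ ^ 2 - 4 * q₀ * q₂ ≠ 0 := by
      intro h0
      refine sep_root hF (r := -q₁ / (2 * q₂)) ?_ ?_
      · rw [hFe]
        have : q₀ + q₁ * (-q₁ / (2 * q₂)) + q₂ * (-q₁ / (2 * q₂)) ^ 2 + 0 * (-q₁ / (2 * q₂)) ^ 3 =
          -(q₁ ^ 2 - 4 * q₀ * q₂) / (4 * q₂) := by
          field_simp
          ring
        rw [this, h0]
        simp
      · rw [hFd]
        field_simp
        ring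
    set b : ℚ := q₁ + 2 * q₂ * τ with hb
    set a : ℚ := F.eval τ with ha
    have hae : a = q₀ + q₁ * τ + q₂ * τ ^ 2 := by rw [ha, hFe]; ring
    have hG := lg_cubic (c₀ := 0) (c₁ := q₂) (c₂ := b) (c₃ := a) hτ (by
      intro r h1 h2
      have e1 : r * (q₂ + b * r + a * r ^ 2) = 0 := by linear_combination h1
      have hdisc' : b ^ 2 - 4 * a * q₂ = q₁ ^ 2 - 4 * q₀ * q₂ := by
        rw [hb, hae]
        ring
      apply hdisc
      rw [← hdisc']
      rcases mul_eq_zero.1 e1 with hr | hr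
      · exfalso
        rw [hr] at h2
        apply hq2
        linear_combination h2
      · have h3 : r * (b + 2 * a * r) = 0 := by linear_combination h2 - hr
        rcases mul_eq_zero.1 h3 with hr0 | hr1
        · exfalso
          rw [hr0] at hr
          apply hq2
          linear_combination hr
        · linear_combination (b + 2 * a * r) * hr1 - 4 * a * hr) (F := C q₂ * X + C b * X ^ 2 + C a * X ^ 3)
      (by intro t; simp)
    refine hG.mobius (α := 0) (β := 1) (γ := 1) (δ := -τ) (by norm_num) (fun _ => 3)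
      (fun _ => dvd_rfl) ?_
    intro _ t ht
    have ht' : t - τ ≠ 0 := by
      intro h0
      apply ht
      linear_combination h0
    simp only [eval_add, eval_mul, eval_C, eval_X, eval_pow, zero_mul, zero_add, one_mul]
    have e : t + -τ = t - τ := by ring
    rw [e, hFe, hb, hae]
    field_simp
    ring
  · have h3 : F.coeff 3 ≠ 0 := by
      have : F.leadingCoeff ≠ 0 := leadingCoeff_ne_zero.2 hF.ne_zero
      rw [leadingCoeff, hd] at this
      exact this
    refine lg_cubic h3 (fun r h1 => ?_) hFe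
    have := sep_root hF (r := r) (by rw [hFe]; exact h1)
    rwa [hFd] at this

end Pool.Agent.J4H71.PC
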