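import Pool.Agent.J4H71.PC.TypA

/-!
# The types of lines: exponents `3` (split), `4` and `6` (helper71)
-/

set_option autoImplicit false
set_option linter.unusedSectionVars false

namespace Pool.Agent.J4H71.PC

open Set Filter Topology Polynomial Pool.Agent.H581R2 Pool.Agent.TH729.SQ Pool.Agent.J4H71.SC
  Pool.Agent.Y720.MZ Pool.Agent.Y718.X Height

section split3

lemma cop3 : IsCoprime (X * (2 - X) ^ 3 : ℚ[X]) ((2 * X - 1) ^ 3) := by
  refine IsCoprime.pow_right (IsCoprime.mul_left ?_ (IsCoprime.pow_left ?_))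
  · exact ⟨2, -1, by ring⟩
  · have h2 : (C (1 / 3) : ℚ[X]) * C 3 = 1 := by
      rw [← C_mul]
      norm_num
    have h3 : (C 3 : ℚ[X]) = 3 := rfl
    rw [h3] at h2
    exact ⟨2 * C (1 / 3), C (1 / 3), by linear_combination h2⟩

/-- the joint cube classes of `t` and `1 - t` are infinite -/
theorem inf3s : ∃ B : ℝ, ∀ t₀ : ℚ, B < logHeight₁ t₀ →
    {t : ℚ | PS 3 t₀ t ∧ PS 3 (1 - t₀) (1 - t)}.Infinite := by
  have hdeg : 2 ≤ max (X * (2 - X) ^ 3 : ℚ[X]).natDegree ((2 * X - 1) ^ 3 : ℚ[X]).natDegree := by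
    refine le_trans ?_ (le_max_right _ _)
    have : ((2 * X - 1) ^ 3 : ℚ[X]).natDegree = 3 := by
      have h1 : (2 * X - 1 : ℚ[X]) = C 2 * X - C 1 := rfl
      rw [h1]
      compute_degree!
    rw [this]
    norm_num
  obtain ⟨B, hB, h⟩ := ht_grow cop3 hdeg
  refine ⟨B, fun t₀ ht₀ => ?_⟩
  have hS : {t : ℚ | B < logHeight₁ t ∧ PS 3 t₀ t ∧ PS 3 (1 - t₀) (1 - t)}.Infinite := by
    refine infinite_of_ht ⟨t₀, ht₀, PS.refl _ _, PS.refl _ _⟩ ?_
    rintro t ⟨ht, h1, h2⟩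
    obtain ⟨k1, k2⟩ := h t ht
    simp only [eval_mul, eval_pow, eval_sub, eval_X, eval_one, eval_ofNat] at k1 k2
    have hq : 2 * t - 1 ≠ 0 := fun h0 => k1 (by rw [h0]; ring)
    have ht0 : 0 ≤ logHeight₁ t := hB.trans ht.le
    have hp : 2 - t ≠ 0 := by
      intro h0
      rw [h0, zero_pow three_ne_zero, mul_zero, zero_div, logHeight₁_zero] at k2
      linarith
    have e1 : 1 - t * (2 - t) ^ 3 / (2 * t - 1) ^ 3 = (-(1 + t) / (2 * t - 1)) ^ 3 * (1 - t) := by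
      rw [div_pow, div_mul_eq_mul_div, eq_div_iff (pow_ne_zero 3 hq), sub_mul, one_mul,
        div_mul_cancel₀ _ (pow_ne_zero 3 hq)]
      ring
    have hp' : 1 + t ≠ 0 := by
      intro h0
      rw [h0, neg_zero, zero_div, zero_pow three_ne_zero, zero_mul, sub_eq_zero] at e1
      rw [← e1, logHeight₁_one] at k2
      linarith
    refine ⟨_, ⟨ht.trans k2, h1.trans ⟨(2 - t) / (2 * t - 1), div_ne_zero hp hq, ?_⟩,
      h2.trans ⟨-(1 + t) / (2 * t - 1), div_ne_zero (neg_ne_zero.2 hp') hq, e1⟩⟩, k2⟩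
    rw [div_pow]
    ring
  exact hS.mono fun t ht => ht.2

/-- **Exponent three, three rational branch points, the normal form.** -/
theorem lg_three_split : LGf (fun _ : Bool => 3)
    (fun k => if k = true then (X : ℚ[X]) else C 1 - X) := by
  obtain ⟨B, hB⟩ := inf3s
  refine LGf.mk_ht (D := X * (1 - X)) ?_ B fun t₀ ht₀ hD0 s hs ε hε => ?_
  · refine mul_ne_zero X_ne_zero ?_
    intro h0
    have := congrArg (Polynomial.eval 0) h0
    simp at this
  have hinf := hB t₀ ht₀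
  set a := t₀ with ha
  set b := 1 - t₀ with hb
  rw [eval_mul, eval_X, eval_sub, eval_one, eval_X] at hD0
  have ha0 : a ≠ 0 := left_ne_zero_of_mul hD0
  have hb0 : b ≠ 0 := right_ne_zero_of_mul hD0
  have haR : (a : ℝ) ≠ 0 := by exact_mod_cast ha0
  have hsv : ∀ v ∈ uIcc (a : ℝ) s, v ≠ 0 ∧ 1 - v ≠ 0 := by
    intro v hv
    have := hs v hv
    simp only [map_mul, aeval_X, map_sub, map_one] at this
    exact ⟨left_ne_zero_of_mul this, right_ne_zero_of_mul this⟩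
  have hs0 : s ≠ 0 := (hsv s right_mem_uIcc).1
  have hp1 : 0 < (a : ℝ) * s := seg_pos (f := fun v : ℝ => v) continuousOn_id fun v hv => (hsv v hv).1
  have hp2 : 0 < (1 - (a : ℝ)) * (1 - s) :=
    seg_pos (f := fun v : ℝ => 1 - v) (by fun_prop) fun v hv => (hsv v hv).2
  -- the curve
  have hS : (S3 0 (-a) b).Infinite := by
    refine Set.Infinite.of_image (fun ξ : ℚ => a / ξ ^ 3) (hinf.mono ?_)
    rintro t ⟨⟨r, hr, h1⟩, ⟨w, hw, h2⟩⟩
    refine ⟨1 / r, ⟨w / r, ?_⟩, ?_⟩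
    · have e : (1 / r) ^ 3 + 0 * (1 / r) + -a = (1 / r) ^ 3 * (1 - t) := by
        rw [h1]
        field_simp
        ring
      rw [e, h2]
      field_simp
    · simp only
      rw [h1]
      field_simp
  have hq : 0 < a / s := by
    have : a / s = (a * s) / (s ^ 2 : ℝ) := by field_simp
    rw [this]
    positivity
  obtain ⟨ρ, hρ, hρ3⟩ := exists_root hq three_ne_zero
  have hρs : a / ρ ^ 3 = s := by rw [hρ3]; field_simp
  -- no zeros
  have hf1 : ∀ v ∈ uIcc (1 : ℝ) ρ, v ^ 3 - a ≠ 0 := by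
    intro v hv
    have hmono : ∀ x y : ℝ, 0 ≤ x → x ≤ y → x ^ 3 ≤ y ^ 3 := fun x y hx hxy => pow_le_pow_left₀ hx hxy 3
    have e1 : ρ ^ 3 - a = (a / s) * (1 - s) := by
      rw [hρ3]
      field_simp
    have e2 : 0 < (1 - (a : ℝ)) * (ρ ^ 3 - a) := by
      rw [e1]
      have : (1 - (a : ℝ)) * (a / s * (1 - s)) = (a / s) * ((1 - a) * (1 - s)) := by ring
      rw [this]
      exact mul_pos hq hp2
    rcases le_total 1 ρ with h1 | h1
    · rw [uIcc_of_le h1] at hv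
      have k1 := hmono 1 v zero_le_one hv.1
      have k2 := hmono v ρ (by linarith [hv.1]) hv.2
      intro h0
      rcases lt_or_ge 0 (1 - (a : ℝ)) with h2 | h2
      · linarith
      · have : ρ ^ 3 - a < 0 := by
          by_contra h3
          push Not at h3
          nlinarith
        linarith
    · rw [uIcc_of_ge h1] at hv
      have k1 := hmono ρ v hρ.le hv.1
      have k2 := hmono v 1 (by linarith [hv.1]) hv.2
      intro h0
      rcases lt_or_ge 0 (1 - (a : ℝ)) with h2 | h2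
      · have : 0 < ρ ^ 3 - a := by
          by_contra h3
          push Not at h3
          nlinarith
        linarith
      · have : 1 - (a : ℝ) < 0 := by
          refine lt_of_le_of_ne h2 ?_
          intro h3
          rw [h3, zero_mul] at e2
          exact lt_irrefl _ e2
        linarith
  have hcl := S3_comp (p := 0) (q := -a) (c := b) (by
      have : 4 * (0 : ℚ) ^ 3 + 27 * (-a) ^ 2 = 27 * a ^ 2 := by ring
      rw [this]
      positivity) hb0 hS (t₀ := 1) ⟨1, by rw [hb]; ring⟩ (s := ρ) (by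
    intro u hu0 hu1
    have hmem : (1 : ℝ) + u * (ρ - 1) ∈ uIcc (1 : ℝ) ρ := by
      have := (segment_eq_uIcc (1 : ℝ) ρ).symm ▸ (show (1 : ℝ) + u * (ρ - 1) ∈ segment ℝ (1 : ℝ) ρ by
        rw [segment_eq_image']
        exact ⟨u, ⟨hu0, hu1⟩, rfl⟩)
      exact this
    have := hf1 _ hmem
    push_cast
    intro h0
    apply this
    linear_combination h0)
  -- continuity
  have hρ0 : ρ ≠ 0 := hρ.ne'
  have hI : ContinuousAt (fun ξ : ℝ => a / ξ ^ 3) ρ :=
    ContinuousAt.div (by fun_prop) (by fun_prop) (pow_ne_zero 3 hρ0)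
  have hev : ∀ᶠ ξ : ℝ in 𝓝 ρ, ξ ≠ 0 ∧ ξ ^ 3 - a ≠ 0 ∧ |a / ξ ^ 3 - s| < ε := by
    refine (continuousAt_id.eventually_ne hρ0).and (Filter.Eventually.and ?_ ?_)
    · have hc : ContinuousAt (fun ξ : ℝ => ξ ^ 3 - a) ρ := by fun_prop
      exact hc.eventually_ne (hf1 ρ right_mem_uIcc)
    · have := (Metric.tendsto_nhds.1 hI.tendsto) ε hε
      rw [hρs] at this
      filter_upwards [this] with w hw
      rw [Real.dist_eq] at hw
      exact hw
  obtain ⟨η, hη, hη'⟩ := Metric.eventually_nhds_iff.1 hev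
  obtain ⟨_, ⟨ξ, ⟨y, hy⟩, rfl⟩, hd⟩ := Metric.mem_closure_iff.1 hcl η hη
  obtain ⟨g1, g2, g3⟩ := hη' (y := (ξ : ℝ)) (by rw [dist_comm]; exact hd)
  have g1' : ξ ≠ 0 := by
    rintro rfl
    exact g1 (by norm_num)
  have g2' : ξ ^ 3 - a ≠ 0 := by
    intro h0
    apply g2
    exact_mod_cast congrArg (fun r : ℚ => (r : ℝ)) h0
  have hy0 : y ≠ 0 := by
    rintro rfl
    apply g2'
    linear_combination hy
  refine ⟨a / ξ ^ 3, by push_cast; exact g3, fun k => ?_⟩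
  cases k
  · simp only [Bool.false_eq_true, if_false, eval_sub, eval_C, eval_X]
    refine ⟨y / ξ, div_ne_zero hy0 g1', ?_⟩
    have : 1 - a / ξ ^ 3 = (ξ ^ 3 + 0 * ξ + -a) / ξ ^ 3 := by
      field_simp
      ring
    rw [this, hy, div_pow]
    ring
  · simp only [if_true, eval_X]
    exact ⟨1 / ξ, one_div_ne_zero g1', by rw [one_div, inv_pow]; ring⟩

end split3

section four

/-- the curves `Y² = A y⁴ + C` -/
theorem quart_dense : ∃ B : ℝ, 0 ≤ B ∧ ∀ (A C' x₀ : ℚ), A ≠ 0 → C' ≠ 0 → x₀ ≠ 0 → x₀ ^ 2 = A + C' →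
    B < logHeight₁ (-4 * A * C' / x₀ ^ 4) → ∀ y : ℝ,
    (∀ v ∈ uIcc (1 : ℝ) y, 0 < (A : ℝ) * v ^ 4 + C') → ∀ ε : ℝ, 0 < ε →
    ∃ z : ℚ, |(z : ℝ) - y| < ε ∧ ∃ Y : ℚ, Y ^ 2 = A * z ^ 4 + C' := by
  obtain ⟨B, hB, htors⟩ := tors4
  refine ⟨B, hB, ?_⟩
  intro A C' x₀ hA hC hx0 hx hht y hy ε hε
  by_cases hy1 : y = 1
  · refine ⟨1, by rw [hy1]; simpa using hε, x₀, by rw [hx]; ring⟩
  set k : ℚ := -4 * A * C' with hk
  have hk0 : k ≠ 0 := mul_ne_zero (mul_ne_zero (by norm_num) hA) hC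
  have hCe : C' = x₀ ^ 2 - A := by linear_combination -hx
  have eb : rb x₀ (4 * A) (4 * A) A = 3 * (2 * A) ^ 2 + k := by
    rw [rb, hk, hCe]
    ring
  have ec : rc x₀ (4 * A) (6 * A) (4 * A) A = (2 * A) ^ 3 + k * (2 * A) := by
    rw [rc, hk, hCe]
    ring
  have ea : 6 * A = 3 * (2 * A) := by ring
  obtain ⟨t, ht, ⟨Y, hY⟩, -⟩ := fine_dense (w := x₀) (q₁ := 4 * A) (q₂ := 6 * A) (q₃ := 4 * A) (q₄ := A)
    hx0 (by
      rw [eb, ec, dsc]
      have : (6 * A) ^ 2 * (3 * (2 * A) ^ 2 + k) ^ 2 - 4 * (3 * (2 * A) ^ 2 + k) ^ 3 -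
          4 * (6 * A) ^ 3 * ((2 * A) ^ 3 + k * (2 * A)) - 27 * ((2 * A) ^ 3 + k * (2 * A)) ^ 2 +
          18 * (6 * A) * (3 * (2 * A) ^ 2 + k) * ((2 * A) ^ 3 + k * (2 * A)) = -4 * k ^ 3 := by ring
      rw [this]
      exact mul_ne_zero (by norm_num) (pow_ne_zero 3 hk0)) (by
      intro h n hn
      refine htors k (2 * A) _ _ _ hk0 ea eb ec _ _ h ?_ n hn
      have e : (Pool.Agent.Y720.MZ.xs x₀ (4 * A) (6 * A) + 2 * A) ^ 2 / k = -4 * A * C' / x₀ ^ 4 := by
        have e1 : Pool.Agent.Y720.MZ.xs x₀ (4 * A) (6 * A) + 2 * A = k / x₀ ^ 2 := by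
          rw [Pool.Agent.Y720.MZ.xs, hk, hCe]
          field_simp
          ring
        rw [e1, ← hk, div_pow, div_div, eq_div_iff (pow_ne_zero 4 hx0)]
        field_simp
      rw [e]
      exact hht) (s := y - 1) (sub_ne_zero.2 hy1) (by
      intro u hu0 hu1
      have hmem : (1 : ℝ) + u * (y - 1) ∈ uIcc (1 : ℝ) y := by
        have := (segment_eq_uIcc (1 : ℝ) y).symm ▸ (show (1 : ℝ) + u * (y - 1) ∈ segment ℝ (1 : ℝ) y by
          rw [segment_eq_image']
          exact ⟨u, ⟨hu0, hu1⟩, rfl⟩)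
        exact this
      have h1 := hy _ hmem
      have e : qr x₀ (4 * A) (6 * A) (4 * A) A (u * (y - 1)) =
          (A : ℝ) * (1 + u * (y - 1)) ^ 4 + C' := by
        rw [qr]
        have h2 : (C' : ℝ) = x₀ ^ 2 - A := by exact_mod_cast congrArg (fun r : ℚ => (r : ℝ)) hCe
        rw [h2]
        push_cast
        ring
      rw [e]
      exact h1) hε
  refine ⟨1 + t, ?_, Y, ?_⟩
  · push_cast
    have : (1 : ℝ) + t - y = t - (y - 1) := by ring
    rw [this]
    exact ht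
  · rw [hY, hCe]
    ring

lemma between4 {A C' y : ℝ} (h1 : 0 < A + C') (hy : 0 < y) (h2 : 0 < A * y ^ 4 + C') :
    ∀ v ∈ uIcc (1 : ℝ) y, 0 < A * v ^ 4 + C' := by
  intro v hv
  have hmono : ∀ x y : ℝ, 0 ≤ x → x ≤ y → x ^ 4 ≤ y ^ 4 := fun x y hx hxy => pow_le_pow_left₀ hx hxy 4
  rcases le_total 1 y with h | h
  · rw [uIcc_of_le h] at hv
    have k1 := hmono 1 v zero_le_one hv.1
    have k2 := hmono v y (by linarith [hv.1]) hv.2
    rcases le_total 0 A with hA | hA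
    · nlinarith
    · nlinarith
  · rw [uIcc_of_ge h] at hv
    have k1 := hmono y v hy.le hv.1
    have k2 := hmono v 1 (by linarith [hv.1]) hv.2
    rcases le_total 0 A with hA | hA
    · nlinarith
    · nlinarith

/-- **Exponent four, the normal form.** -/
theorem lg_four {β : ℚ} (hβ : β ≠ 0) :
    LGf (fun _ : Unit => 4) (fun _ => (X ^ 2 + C β : ℚ[X])) := by
  obtain ⟨B₀, -, hdense⟩ := quart_dense
  have hcop : IsCoprime (C (4 * β) * (X ^ 2 + C β) : ℚ[X]) (X ^ 4) := by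
    refine IsCoprime.pow_right (IsCoprime.mul_left ?_ ?_)
    · exact (cop_C (mul_ne_zero (by norm_num) hβ) X).symm
    · have h2 : (C β⁻¹ : ℚ[X]) * C β = 1 := by
        rw [← C_mul, inv_mul_cancel₀ hβ, C_1]
      exact ⟨C β⁻¹, -C β⁻¹ * X, by linear_combination h2⟩
  have hdeg : 1 ≤ max (C (4 * β) * (X ^ 2 + C β) : ℚ[X]).natDegree (X ^ 4 : ℚ[X]).natDegree := by
    refine le_trans ?_ (le_max_right _ _)
    rw [natDegree_X_pow]
    norm_num
  obtain ⟨B, hB, hbig⟩ := ht_big hcop hdeg B₀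
  refine LGf.mk_ht (D := X * (X ^ 2 + C β)) ?_ B fun t₀ ht₀ hD0 s hs ε hε => ?_
  · refine mul_ne_zero X_ne_zero ?_
    intro h0
    have := congrArg (Polynomial.eval 0) h0
    simp only [eval_add, eval_pow, eval_X, eval_C, eval_zero] at this
    apply hβ
    linear_combination this
  rw [eval_mul, eval_X, eval_add, eval_pow, eval_X, eval_C] at hD0
  have h1 : t₀ ≠ 0 := left_ne_zero_of_mul hD0
  have h2 : t₀ ^ 2 + β ≠ 0 := right_ne_zero_of_mul hD0
  set A := t₀ ^ 2 + β with hA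
  have hsv : ∀ v ∈ uIcc (t₀ : ℝ) s, v ≠ 0 ∧ v ^ 2 + β ≠ 0 := by
    intro v hv
    have := hs v hv
    simp only [map_mul, aeval_X, map_add, map_pow, aeval_C, eq_ratCast] at this
    exact ⟨left_ne_zero_of_mul this, right_ne_zero_of_mul this⟩
  have hAR : (A : ℝ) ≠ 0 := by exact_mod_cast h2
  have hAe : (A : ℝ) = t₀ ^ 2 + β := by rw [hA]; push_cast; ring
  have hs0 : s ≠ 0 := (hsv s right_mem_uIcc).1
  have hp1 : 0 < (t₀ : ℝ) * s := seg_pos (f := fun v : ℝ => v) continuousOn_id fun v hv => (hsv v hv).1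
  have hp2 : 0 < (A : ℝ) * (s ^ 2 + β) := by
    rw [hAe]
    exact seg_pos (f := fun v : ℝ => v ^ 2 + β) (by fun_prop) fun v hv => (hsv v hv).2
  have hq : 0 < (s ^ 2 + β) / A := by
    have : (s ^ 2 + β) / A = (A * (s ^ 2 + β)) / (A ^ 2 : ℝ) := by field_simp
    rw [this]
    positivity
  obtain ⟨ρ, hρ, hρ4⟩ := exists_root hq four_ne_zero
  have hρe : (A : ℝ) * ρ ^ 4 = s ^ 2 + β := by rw [hρ4]; field_simp
  have ht₀R : (t₀ : ℝ) ≠ 0 := by exact_mod_cast h1
  -- continuity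
  have hc : ContinuousAt (fun z : ℝ => Real.sqrt (A * z ^ 4 - β)) ρ := by
    refine (Real.continuous_sqrt.comp ?_).continuousAt
    fun_prop
  have he : Real.sqrt (A * ρ ^ 4 - β) = |s| := by
    rw [hρe]
    have : s ^ 2 + (β : ℝ) - β = s ^ 2 := by ring
    rw [this, Real.sqrt_sq_eq_abs]
  have hev : ∀ᶠ z : ℝ in 𝓝 ρ, z ≠ 0 ∧ |Real.sqrt (A * z ^ 4 - β) - abs s| < ε := by
    refine (continuousAt_id.eventually_ne hρ.ne').and ?_
    have := (Metric.tendsto_nhds.1 hc.tendsto) ε hε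
    simp only [he] at this
    filter_upwards [this] with w hw
    rw [Real.dist_eq] at hw
    exact hw
  obtain ⟨η, hη, hη'⟩ := Metric.eventually_nhds_iff.1 hev
  obtain ⟨z, hz, Y, hY⟩ := hdense A (-β) t₀ h2 (neg_ne_zero.2 hβ) h1 (by rw [hA]; ring) (by
    have := hbig t₀ ht₀
    simp only [eval_mul, eval_C, eval_add, eval_pow, eval_X] at this
    refine this.trans_eq ?_
    congr 1
    rw [hA]
    ring) ρ (by
    have := between4 (A := A) (C' := ((-β : ℚ) : ℝ)) (y := ρ) (by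
      rw [hAe]
      push_cast
      have : (t₀ : ℝ) ^ 2 + β + -β = t₀ ^ 2 := by ring
      rw [this]
      positivity) hρ (by
      rw [hρe]
      push_cast
      have : s ^ 2 + (β : ℝ) + -β = s ^ 2 := by ring
      rw [this]
      positivity)
    exact this) η hη
  obtain ⟨g1, g2⟩ := hη' (y := (z : ℝ)) (by rw [Real.dist_eq]; exact hz)
  have g1' : z ≠ 0 := by
    rintro rfl
    exact g1 (by norm_num)
  have hYR : |(Y : ℝ)| = Real.sqrt (A * z ^ 4 - β) := by
    have : (A : ℝ) * z ^ 4 - β = Y ^ 2 := by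
      have := congrArg (fun r : ℚ => (r : ℝ)) hY
      push_cast at this
      linear_combination -this
    rw [this, Real.sqrt_sq_eq_abs]
  rw [← hYR] at g2
  -- the sign
  have hfin : ∀ t : ℚ, t ^ 2 = Y ^ 2 → |(t : ℝ) - s| < ε →
      ∃ t : ℚ, |(t : ℝ) - s| < ε ∧ ∀ k : Unit, PS 4 ((X ^ 2 + C β : ℚ[X]).eval t₀)
        ((X ^ 2 + C β : ℚ[X]).eval t) := by
    intro t ht hts
    refine ⟨t, hts, fun _ => ⟨z, g1', ?_⟩⟩
    simp only [eval_add, eval_pow, eval_X, eval_C]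
    rw [ht, hY, ← hA]
    ring
  rcases lt_or_gt_of_ne hs0 with h | h
  · rw [abs_of_neg h] at g2
    refine hfin (-|Y|) (by rw [neg_sq, sq_abs]) ?_
    push_cast
    rw [← abs_neg]
    have : -(-|(Y : ℝ)| - s) = |(Y : ℝ)| - -s := by ring
    rw [this]
    exact g2
  · rw [abs_of_pos h] at g2
    refine hfin |Y| (sq_abs _) ?_
    push_cast
    exact g2

/-- **Exponent four, two conjugate-free branch points, the normal form.** -/
theorem lg_four_split : LGf (fun k : Bool => if k = true then 4 else 2)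
    (fun k => if k = true then (X * (C 1 - X) : ℚ[X]) else X) := by
  obtain ⟨B₀, -, hdense⟩ := quart_dense
  have hdeg' : (C (-4) * (X * (C 1 - X)) : ℚ[X]).natDegree = 2 := by
    have e : (C (-4) * (X * (C 1 - X)) : ℚ[X]) = C 4 * X ^ 2 + C (-4) * X := by
      simp only [map_neg, C_1]
      ring
    rw [e]
    compute_degree!
  have hcop : IsCoprime (C (-4) * (X * (C 1 - X)) : ℚ[X]) (C 1) := cop_C one_ne_zero _
  obtain ⟨B, hB, hbig⟩ := ht_big hcop (by rw [hdeg']; omega) B₀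
  refine LGf.mk_ht (D := X * (1 - X)) ?_ B fun t₀ ht₀ hD0 s hs ε hε => ?_
  · refine mul_ne_zero X_ne_zero ?_
    intro h0
    have := congrArg (Polynomial.eval 0) h0
    simp at this
  set a := t₀ with ha
  set b := 1 - t₀ with hb
  rw [eval_mul, eval_X, eval_sub, eval_one, eval_X] at hD0
  have ha0 : a ≠ 0 := left_ne_zero_of_mul hD0
  have hb0 : b ≠ 0 := right_ne_zero_of_mul hD0
  have haR : (a : ℝ) ≠ 0 := by exact_mod_cast ha0
  have hbR : (b : ℝ) ≠ 0 := by exact_mod_cast hb0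
  have hbe : (b : ℝ) = 1 - a := by rw [hb]; push_cast; ring
  have hsv : ∀ v ∈ uIcc (a : ℝ) s, v ≠ 0 ∧ 1 - v ≠ 0 := by
    intro v hv
    have := hs v hv
    simp only [map_mul, aeval_X, map_sub, map_one] at this
    exact ⟨left_ne_zero_of_mul this, right_ne_zero_of_mul this⟩
  have hs0 : s ≠ 0 := (hsv s right_mem_uIcc).1
  have hp1 : 0 < (a : ℝ) * s := seg_pos (f := fun v : ℝ => v) continuousOn_id fun v hv => (hsv v hv).1
  have hp2 : 0 < (b : ℝ) * (1 - s) := by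
    rw [hbe]
    exact seg_pos (f := fun v : ℝ => 1 - v) (by fun_prop) fun v hv => (hsv v hv).2
  have hq : 0 < a / s := by
    have : a / s = (a * s) / (s ^ 2 : ℝ) := by field_simp
    rw [this]
    positivity
  have hq2 : 0 < (1 - s) / b := by
    have : (1 - s) / b = (b * (1 - s)) / (b ^ 2 : ℝ) := by field_simp
    rw [this]
    positivity
  obtain ⟨ρ, hρ, hρ4⟩ := exists_root (mul_pos hq2 hq) four_ne_zero
  have hρe : (b : ℝ) * ρ ^ 4 + a = a / s := by
    rw [hρ4]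
    field_simp
    ring
  have hI : ContinuousAt (fun z : ℝ => a / ((b : ℝ) * z ^ 4 + a)) ρ := by
    refine ContinuousAt.div (by fun_prop) (by fun_prop) ?_
    rw [hρe]
    exact hq.ne'
  have he : a / ((b : ℝ) * ρ ^ 4 + a) = s := by
    rw [hρe]
    field_simp
  have hev : ∀ᶠ z : ℝ in 𝓝 ρ, z ≠ 0 ∧ (b : ℝ) * z ^ 4 + a ≠ 0 ∧ |a / ((b : ℝ) * z ^ 4 + a) - s| < ε := by
    refine (continuousAt_id.eventually_ne hρ.ne').and (Filter.Eventually.and ?_ ?_)
    · have hc : ContinuousAt (fun z : ℝ => (b : ℝ) * z ^ 4 + a) ρ := by fun_prop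
      refine hc.eventually_ne ?_
      rw [hρe]
      exact hq.ne'
    · have := (Metric.tendsto_nhds.1 hI.tendsto) ε hε
      simp only [he] at this
      filter_upwards [this] with w hw
      rw [Real.dist_eq] at hw
      exact hw
  obtain ⟨η, hη, hη'⟩ := Metric.eventually_nhds_iff.1 hev
  obtain ⟨z, hz, Y, hY⟩ := hdense b a 1 hb0 ha0 one_ne_zero (by rw [hb]; ring) (by
    have := hbig t₀ ht₀
    simp only [eval_mul, eval_C, eval_sub, eval_X] at this
    refine this.trans_eq ?_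
    congr 1
    rw [hb]
    ring) ρ (by
    refine between4 (A := b) (C' := (a : ℝ)) (y := ρ) ?_ hρ ?_
    · rw [hbe]
      have : 1 - (a : ℝ) + a = 1 := by ring
      rw [this]
      exact zero_lt_one
    · rw [hρe]
      exact hq) η hη
  obtain ⟨g1, g2, g3⟩ := hη' (y := (z : ℝ)) (by rw [Real.dist_eq]; exact hz)
  have g1' : z ≠ 0 := by
    rintro rfl
    exact g1 (by norm_num)
  have g2' : Y ≠ 0 := by
    rintro rfl
    apply g2
    have := congrArg (fun r : ℚ => (r : ℝ)) hY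
    push_cast at this
    linear_combination -this
  have hYR : (Y : ℝ) ^ 2 = b * z ^ 4 + a := by exact_mod_cast congrArg (fun r : ℚ => (r : ℝ)) hY
  refine ⟨a / Y ^ 2, ?_, fun k => ?_⟩
  · push_cast
    rw [hYR]
    exact g3
  · have e1 : 1 - a / Y ^ 2 = b * z ^ 4 / Y ^ 2 := by
      field_simp
      linear_combination hY
    cases k
    · simp only [Bool.false_eq_true, if_false, eval_X]
      refine ⟨1 / Y, one_div_ne_zero g2', ?_⟩
      rw [one_div, inv_pow]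
      ring
    · simp only [if_true, eval_mul, eval_sub, eval_X, eval_C]
      refine ⟨z / Y, div_ne_zero g1' g2', ?_⟩
      rw [e1, ← hb]
      field_simp

end four

section six

/-- **Exponent six, the normal form.** -/
theorem lg_six : LGf (fun _ : Unit => 6) (fun _ => (X ^ 2 * (C 1 - X) : ℚ[X])) := by
  obtain ⟨B, hB, htors⟩ := tors6
  refine LGf.mk_ht (D := X * (1 - X)) ?_ B fun t₀ ht₀ hD0 s hs ε hε => ?_
  · refine mul_ne_zero X_ne_zero ?_
    intro h0
    have := congrArg (Polynomial.eval 0) h0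
    simp at this
  rw [eval_mul, eval_X, eval_sub, eval_one, eval_X] at hD0
  have h1 : t₀ ≠ 0 := left_ne_zero_of_mul hD0
  have h2 : 1 - t₀ ≠ 0 := right_ne_zero_of_mul hD0
  have hsv : ∀ v ∈ uIcc (t₀ : ℝ) s, v ≠ 0 ∧ 1 - v ≠ 0 := by
    intro v hv
    have := hs v hv
    simp only [map_mul, aeval_X, map_sub, map_one] at this
    exact ⟨left_ne_zero_of_mul this, right_ne_zero_of_mul this⟩
  have hs0 : s ≠ 0 := (hsv s right_mem_uIcc).1
  have hs1 : 1 - s ≠ 0 := (hsv s right_mem_uIcc).2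
  have hp2 : 0 < (1 - (t₀ : ℝ)) * (1 - s) :=
    seg_pos (f := fun v : ℝ => 1 - v) (by fun_prop) fun v hv => (hsv v hv).2
  set k : ℚ := t₀ ^ 2 * (1 - t₀) with hk
  have hk0 : k ≠ 0 := mul_ne_zero (pow_ne_zero 2 h1) h2
  have hkR : (k : ℝ) = t₀ ^ 2 * (1 - t₀) := by rw [hk]; push_cast; ring
  have hdsc : dsc (0 : ℚ) 0 k ≠ 0 := by
    rw [dsc]
    have : (0 : ℚ) ^ 2 * 0 ^ 2 - 4 * 0 ^ 3 - 4 * 0 ^ 3 * k - 27 * k ^ 2 + 18 * 0 * 0 * k =
      -27 * k ^ 2 := by ring
    rw [this]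
    exact mul_ne_zero (by norm_num) (pow_ne_zero 2 hk0)
  have hns : (cv 0 0 k).toAffine.Nonsingular t₀ t₀ := by
    refine ns_of_dsc hdsc ?_
    rw [hk]
    ring
  have htor : ∀ n : ℕ, n ≠ 0 → n • (.some t₀ t₀ hns : Pt 0 0 k) ≠ 0 := by
    intro n hn
    refine htors k hk0 t₀ t₀ hns ?_ n hn
    have : t₀ ^ 3 / t₀ ^ 2 = t₀ := by field_simp
    rw [this]
    exact ht₀
  -- the real point
  have hq : 0 < k / (1 - s) := by
    have : (k : ℝ) / (1 - s) = t₀ ^ 2 * ((1 - t₀) * (1 - s)) / (1 - s) ^ 2 := by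
      rw [hkR]
      field_simp
    rw [this]
    have : (t₀ : ℝ) ≠ 0 := by exact_mod_cast h1
    positivity
  set η : ℝ := Real.sqrt (k / (1 - s)) with hη
  have hηp : 0 < η := Real.sqrt_pos.2 hq
  have hη2 : η ^ 2 = k / (1 - s) := Real.sq_sqrt hq.le
  set ξ : ℝ := cr (s * η ^ 2) with hξ
  have hξ3 : ξ ^ 3 = s * η ^ 2 := cr_cube (mul_ne_zero hs0 (pow_ne_zero 2 hηp.ne'))
  have hξ0 : ξ ≠ 0 := by
    intro h0
    rw [h0, zero_pow three_ne_zero] at hξ3
    exact mul_ne_zero hs0 (pow_ne_zero 2 hηp.ne') hξ3.symm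
  have hcurve : η ^ 2 = gg (((0 : ℚ) : ℚ) : ℝ) ((0 : ℚ) : ℝ) (k : ℝ) ξ := by
    rw [gg, hξ3]
    have : (k : ℝ) = η ^ 2 * (1 - s) := by rw [hη2]; field_simp
    rw [this]
    push_cast
    ring
  have hnear : Near (Rat.castHom ℝ) (.some t₀ t₀ hns : Pt 0 0 k) ξ η := by
    refine near_all hdsc htor (fun x hx => ?_) hcurve
    have h3 : ξ ^ 3 < x ^ 3 := Odd.strictMono_pow (by decide : Odd 3) hx
    have h4 : 0 < η ^ 2 := by positivity
    rw [hcurve] at h4
    simp only [gg, map_zero, zero_mul, add_zero, eq_ratCast, Rat.cast_zero] at h4 ⊢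
    linarith
  obtain ⟨n, x, y, h, hnP, hx, hy⟩ := near_seq hnear
  have hx' : Tendsto (fun j => (x j : ℝ)) atTop (𝓝 ξ) := hx
  have hy' : Tendsto (fun j => (y j : ℝ)) atTop (𝓝 η) := hy
  have htl : Tendsto (fun j => (x j : ℝ) ^ 3 / (y j : ℝ) ^ 2) atTop (𝓝 s) := by
    have := (hx'.pow 3).div (hy'.pow 2) (pow_ne_zero 2 hηp.ne')
    rw [hξ3, mul_div_cancel_right₀ _ (pow_ne_zero 2 hηp.ne')] at this
    exact this
  have hev1 := (Metric.tendsto_nhds.1 htl) ε hε
  obtain ⟨j, hj1, hj2, hj3⟩ := (hev1.and ((hx'.eventually_ne hξ0).and (hy'.eventually_ne hηp.ne'))).exists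
  have hxj : x j ≠ 0 := fun h0 => hj2 (by rw [h0]; norm_num)
  have hyj : y j ≠ 0 := fun h0 => hj3 (by rw [h0]; norm_num)
  have heq := (cv_ns.1 (h j)).1
  refine ⟨x j ^ 3 / y j ^ 2, ?_, fun _ => ⟨x j / y j, div_ne_zero hxj hyj, ?_⟩⟩
  · push_cast
    rw [Real.dist_eq] at hj1
    exact hj1
  · simp only [eval_mul, eval_pow, eval_X, eval_sub, eval_C]
    rw [← hk]
    have e1 : 1 - x j ^ 3 / y j ^ 2 = k / y j ^ 2 := by
      field_simp
      linear_combination heq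
    rw [e1]
    field_simp

end six

end Pool.Agent.J4H71.PC
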