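import Pool.Agent.J4H71.PC.TypB

/-!
# The types of lines (helper71)
-/

set_option autoImplicit false
set_option linter.unusedSectionVars false

namespace Pool.Agent.J4H71.PC

open Set Filter Topology Polynomial Pool.Agent.H581R2 Pool.Agent.TH729.SQ Pool.Agent.J4H71.SC

/-- sets of pairs of an exponent and a polynomial with locally dense joint classes -/
def LGS (S : Set (ℕ × ℚ[X])) : Prop :=
  ∀ (K : Type) [Finite K] (f : K → ℕ × ℚ[X]), (∀ k, f k ∈ S) →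
    LGf (fun k => (f k).1) (fun k => (f k).2)

lemma LGS.of_family {K₀ : Type} {n : K₀ → ℕ} {F : K₀ → ℚ[X]} (h : LGf n F) {S : Set (ℕ × ℚ[X])}
    (hS : ∀ x ∈ S, ∃ k, x = (n k, F k)) : LGS S := by
  intro K _ f hf
  choose g hg using fun k => hS _ (hf k)
  have := h.comp g
  convert this using 1
  · funext k
    rw [hg]
  · funext k
    rw [hg]

/-- products of powers of elements of `S`, up to powers -/
def Over (S : Set (ℕ × ℚ[X])) (s : ℕ) (p : ℚ[X]) : Prop :=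
  ∃ (m : ℕ) (f : Fin m → ℕ × ℚ[X]) (e : Fin m → ℕ) (c : ℚ) (g g₁ : ℚ[X]), g₁ ≠ 0 ∧
    (∀ j, f j ∈ S ∧ s ∣ (f j).1 * e j) ∧ p * g₁ ^ s = C c * g ^ s * ∏ j, (f j).2 ^ e j

theorem LGS.over {S : Set (ℕ × ℚ[X])} (h : LGS S) {R : Type} [Finite R] {s : R → ℕ} {p : R → ℚ[X]}
    (hp : ∀ r, Over S (s r) (p r)) : LGf s p := by
  choose m f e c g g₁ hg₁ hf hpe using hp
  have h1 := h (Σ r, Fin (m r)) (fun x => f x.1 x.2) (fun x => (hf x.1 x.2).1)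
  refine h1.gen fun r => ⟨Fin (m r), inferInstance, fun j => ⟨r, j⟩, e r, c r, g r, g₁ r, hg₁ r,
    fun j => (hf r j).2, hpe r⟩

/-- a linear form -/
noncomputable def lin (a b : ℚ) : ℚ[X] := C a * X + C b

lemma lin_eval (a b t : ℚ) : (lin a b).eval t = a * t + b := by simp [lin]

/-- three linear forms in normal form -/
lemma forms {a₁ b₁ a₂ b₂ a₃ b₃ : ℚ} (h12 : a₁ * b₂ - b₁ * a₂ ≠ 0) (h13 : a₁ * b₃ - b₁ * a₃ ≠ 0)
    (h23 : a₂ * b₃ - b₂ * a₃ ≠ 0) : ∃ α β c₁ c₂ : ℚ, α * b₃ - β * a₃ ≠ 0 ∧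
      ∀ t, a₃ * t + b₃ ≠ 0 →
        a₁ * t + b₁ = c₁ * ((a₃ * t + b₃) * ((α * t + β) / (a₃ * t + b₃))) ∧
        a₂ * t + b₂ = c₂ * ((a₃ * t + b₃) * (1 - (α * t + β) / (a₃ * t + b₃))) := by
  obtain ⟨l₁, hl₁⟩ : ∃ l₁, l₁ = -(a₂ * b₃ - b₂ * a₃) / (a₁ * b₂ - b₁ * a₂) := ⟨_, rfl⟩
  obtain ⟨l₂, hl₂⟩ : ∃ l₂, l₂ = (a₁ * b₃ - b₁ * a₃) / (a₁ * b₂ - b₁ * a₂) := ⟨_, rfl⟩
  have hl10 : l₁ ≠ 0 := by rw [hl₁]; exact div_ne_zero (neg_ne_zero.2 h23) h12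
  have hl20 : l₂ ≠ 0 := by rw [hl₂]; exact div_ne_zero h13 h12
  have e1 : l₁ * (a₁ * b₂ - b₁ * a₂) = -(a₂ * b₃ - b₂ * a₃) := by
    rw [hl₁, div_mul_cancel₀ _ h12]
  have e2 : l₂ * (a₁ * b₂ - b₁ * a₂) = a₁ * b₃ - b₁ * a₃ := by
    rw [hl₂, div_mul_cancel₀ _ h12]
  have ea : l₁ * a₁ + l₂ * a₂ = a₃ := by
    apply mul_right_cancel₀ h12
    linear_combination a₁ * e1 + a₂ * e2
  have eb : l₁ * b₁ + l₂ * b₂ = b₃ := by
    apply mul_right_cancel₀ h12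
    linear_combination b₁ * e1 + b₂ * e2
  refine ⟨l₁ * a₁, l₁ * b₁, 1 / l₁, 1 / l₂, ?_, fun t ht => ⟨?_, ?_⟩⟩
  · have : l₁ * a₁ * b₃ - l₁ * b₁ * a₃ = l₁ * (a₁ * b₃ - b₁ * a₃) := by ring
    rw [this]
    exact mul_ne_zero hl10 h13
  · rw [mul_div_cancel₀ _ ht]
    field_simp
  · rw [mul_sub, mul_one, mul_div_cancel₀ _ ht]
    rw [← ea, ← eb]
    field_simp
    ring

/-- **Two rational branch points.** -/
theorem lgs_zero {m : ℕ} (hm : m ≠ 0) {a₁ b₁ a₂ b₂ : ℚ} (h : a₁ * b₂ - b₁ * a₂ ≠ 0) :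
    LGS {(m, lin a₁ b₁ * lin a₂ b₂ ^ (m - 1))} := by
  refine LGS.of_family (K₀ := Unit) (n := fun _ => m)
    (F := fun _ => lin a₁ b₁ * lin a₂ b₂ ^ (m - 1)) ?_ (fun x hx => ⟨(), hx⟩)
  refine (lg_zero hm).mobius h (fun _ => m) (fun _ => dvd_rfl) fun _ t ht => ?_
  rw [eval_mul, eval_pow, lin_eval, lin_eval, eval_X]
  obtain ⟨j, rfl⟩ : ∃ j, m = j + 1 := ⟨m - 1, by omega⟩
  obtain ⟨L, hL⟩ : ∃ L, L = a₂ * t + b₂ := ⟨_, rfl⟩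
  rw [← hL] at ht ⊢
  rw [Nat.add_sub_cancel, pow_succ]
  field_simp

/-- **Exponent two.** -/
theorem lgs_two {F : ℚ[X]} (hF : F.Separable) (hd : F.natDegree ≤ 4) :
    LGS {x | x.1 = 2 ∧ x.2 ∣ F ∧ (F.natDegree ≤ 3 ∨ Even x.2.natDegree)} := by
  intro K _ f hf
  have h := lg_two hF hd (p := fun k => (f k).2) (fun k => by
    obtain ⟨-, ⟨q', hq'⟩, h3⟩ := hf k
    exact ⟨1, 1, (f k).2, q', by simp, hq', h3⟩)
  convert h using 1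
  funext k
  exact (hf k).1

/-- **Exponent three.** -/
theorem lgs_three {F : ℚ[X]} (hF : F.Separable) (hd : F.natDegree = 2 ∨ F.natDegree = 3) :
    LGS {(3, F)} :=
  LGS.of_family (lg_three' hF hd) fun _ hx => ⟨(), hx⟩

/-- **Exponent three, three rational branch points.** -/
theorem lgs_three_split {a₁ b₁ a₂ b₂ a₃ b₃ : ℚ} (h12 : a₁ * b₂ - b₁ * a₂ ≠ 0)
    (h13 : a₁ * b₃ - b₁ * a₃ ≠ 0) (h23 : a₂ * b₃ - b₂ * a₃ ≠ 0) :
    LGS {(3, lin a₁ b₁ * lin a₃ b₃ ^ 2), (3, lin a₂ b₂ * lin a₃ b₃ ^ 2)} := by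
  obtain ⟨α, β, c₁, c₂, hdet, h⟩ := forms h12 h13 h23
  have h1 := (lg_three_split.smul fun k => if k = true then c₁ else c₂).mobius
    (F := fun k => if k = true then lin a₁ b₁ * lin a₃ b₃ ^ 2 else lin a₂ b₂ * lin a₃ b₃ ^ 2)
    (α := α) (β := β) (γ := a₃) (δ := b₃) hdet (fun _ => 3) (fun _ => dvd_rfl) (by
      intro k t ht
      obtain ⟨k1, k2⟩ := h t ht
      cases k
      · simp only [Bool.false_eq_true, if_false, eval_mul, eval_pow, lin_eval, eval_sub, eval_C,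
          eval_X]
        rw [k2]
        ring
      · simp only [if_true, eval_mul, eval_pow, lin_eval, eval_C, eval_X]
        rw [k1]
        ring)
  refine LGS.of_family h1 ?_
  rintro x (rfl | rfl)
  · exact ⟨true, rfl⟩
  · exact ⟨false, rfl⟩

/-- **Exponent four.** -/
theorem lgs_four {q₀ q₁ q₂ a b : ℚ} (hdisc : q₁ ^ 2 - 4 * q₀ * q₂ ≠ 0)
    (hP : q₂ * b ^ 2 - q₁ * a * b + q₀ * a ^ 2 ≠ 0) :
    LGS {(4, (C q₂ * X ^ 2 + C q₁ * X + C q₀) * lin a b ^ 2)} := by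
  refine LGS.of_family (K₀ := Unit) (n := fun _ => 4)
    (F := fun _ => (C q₂ * X ^ 2 + C q₁ * X + C q₀) * lin a b ^ 2) ?_ (fun x hx => ⟨(), hx⟩)
  have h := (lg_four (β := -(q₁ ^ 2 - 4 * q₀ * q₂)) (neg_ne_zero.2 hdisc)).smul
    fun _ => 1 / (4 * (q₂ * b ^ 2 - q₁ * a * b + q₀ * a ^ 2))
  refine h.mobius (α := 2 * q₂ * b - q₁ * a) (β := q₁ * b - 2 * q₀ * a) (γ := a) (δ := b) ?_
    (fun _ => 4) (fun _ => dvd_rfl) fun _ t ht => ?_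
  · have : (2 * q₂ * b - q₁ * a) * b - (q₁ * b - 2 * q₀ * a) * a =
      2 * (q₂ * b ^ 2 - q₁ * a * b + q₀ * a ^ 2) := by ring
    rw [this]
    exact mul_ne_zero two_ne_zero hP
  · simp only [eval_mul, eval_pow, lin_eval, eval_add, eval_C, eval_X]
    obtain ⟨P, hPe⟩ : ∃ P, P = q₂ * b ^ 2 - q₁ * a * b + q₀ * a ^ 2 := ⟨_, rfl⟩
    obtain ⟨M, hM⟩ : ∃ M, M = (2 * q₂ * b - q₁ * a) * t + (q₁ * b - 2 * q₀ * a) := ⟨_, rfl⟩
    obtain ⟨L, hL⟩ : ∃ L, L = a * t + b := ⟨_, rfl⟩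
    have hid : 4 * P * (q₂ * t ^ 2 + q₁ * t + q₀) = M ^ 2 - (q₁ ^ 2 - 4 * q₀ * q₂) * L ^ 2 := by
      rw [hPe, hM, hL]
      ring
    rw [← hPe, ← hM, ← hL]
    rw [← hPe] at hP
    rw [← hL] at ht
    have e : L ^ 4 * (1 / (4 * P) * ((M / L) ^ 2 + -(q₁ ^ 2 - 4 * q₀ * q₂))) =
        1 / (4 * P) * (M ^ 2 - (q₁ ^ 2 - 4 * q₀ * q₂) * L ^ 2) * L ^ 2 := by
      field_simp
      ring
    rw [e, ← hid]
    field_simp

/-- **Exponent four, three rational branch points.** -/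
theorem lgs_four_split {a₁ b₁ a₂ b₂ a₃ b₃ : ℚ} (h12 : a₁ * b₂ - b₁ * a₂ ≠ 0)
    (h13 : a₁ * b₃ - b₁ * a₃ ≠ 0) (h23 : a₂ * b₃ - b₂ * a₃ ≠ 0) :
    LGS {(4, lin a₁ b₁ * lin a₂ b₂ * lin a₃ b₃ ^ 2), (2, lin a₁ b₁ * lin a₃ b₃)} := by
  obtain ⟨α, β, c₁, c₂, hdet, h⟩ := forms h12 h13 h23
  have h1 := (lg_four_split.smul fun k => if k = true then c₁ * c₂ else c₁).mobius
    (F := fun k => if k = true then lin a₁ b₁ * lin a₂ b₂ * lin a₃ b₃ ^ 2 else lin a₁ b₁ * lin a₃ b₃)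
    (α := α) (β := β) (γ := a₃) (δ := b₃) hdet (fun k => if k = true then 4 else 2)
    (fun _ => dvd_rfl) (by
      intro k t ht
      obtain ⟨k1, k2⟩ := h t ht
      cases k
      · simp only [Bool.false_eq_true, if_false, eval_mul, lin_eval, eval_C, eval_X]
        rw [k1]
        ring
      · simp only [if_true, eval_mul, eval_pow, lin_eval, eval_C, eval_X, eval_sub]
        rw [k1, k2]
        ring)
  refine LGS.of_family h1 ?_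
  rintro x (rfl | rfl)
  · exact ⟨true, rfl⟩
  · exact ⟨false, rfl⟩

/-- **Exponent six.** -/
theorem lgs_six {a₁ b₁ a₂ b₂ a₃ b₃ : ℚ} (h12 : a₁ * b₂ - b₁ * a₂ ≠ 0)
    (h13 : a₁ * b₃ - b₁ * a₃ ≠ 0) (h23 : a₂ * b₃ - b₂ * a₃ ≠ 0) :
    LGS {(6, lin a₁ b₁ * lin a₂ b₂ ^ 2 * lin a₃ b₃ ^ 3)} := by
  obtain ⟨α, β, c₂, c₁, hdet, h⟩ := forms (a₁ := a₂) (b₁ := b₂) (a₂ := a₁) (b₂ := b₁)
    (by intro h0; apply h12; linear_combination -h0) h23 h13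
  have h1 := (lg_six.smul fun _ => c₁ * c₂ ^ 2).mobius
    (F := fun _ => lin a₁ b₁ * lin a₂ b₂ ^ 2 * lin a₃ b₃ ^ 3)
    (α := α) (β := β) (γ := a₃) (δ := b₃) hdet (fun _ => 6)
    (fun _ => dvd_rfl) (by
      intro _ t ht
      obtain ⟨k1, k2⟩ := h t ht
      simp only [eval_mul, eval_pow, lin_eval, eval_C, eval_X, eval_sub]
      rw [k1, k2]
      ring)
  exact LGS.of_family h1 fun x hx => ⟨(), hx⟩

end Pool.Agent.J4H71.PC
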